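import Pool.Agent.H76Z.LieDefs

/-!
The Lie algebra of a Lie group, integrability of a topological Lie algebra, and the notions
attached to solvable length two.
-/

set_option autoImplicit false

namespace Pool.Agent.H76Z

universe u v w

/-- `l` is the left invariant vector field with value `X` at the identity, read in the chart `e`
around the identity: `l a` is the derivative at `e 1`, in the direction `X`, of the left
translation by the point with coordinate `a`. -/
def IsLeftInvField {F : Type u} [AddCommGroup F] [Module ℝ F] [TopologicalSpace F]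
    {G : Type v} [Group G] [TopologicalSpace G] (e : OpenPartialHomeomorph G F) (X : F)
    (l : F → F) : Prop :=
  ∀ a ∈ e.target, HasDirDeriv (fun b : F => e (e.symm a * e.symm b)) (e 1) X (l a)

/-- `Z` is the Lie bracket of `X` and `Y` in the tangent space at the identity, read in the chart
`e`: the value at the identity of the bracket of the left invariant vector fields. -/
def IsBracket {F : Type u} [AddCommGroup F] [Module ℝ F] [TopologicalSpace F]
    {G : Type v} [Group G] [TopologicalSpace G] (e : OpenPartialHomeomorph G F) (X Y Z : F) :
    Prop :=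
  ∃ lX lY : F → F, IsLeftInvField e X lX ∧ IsLeftInvField e Y lY ∧
    ∃ p q : F, HasDirDeriv lY (e 1) X p ∧ HasDirDeriv lX (e 1) Y q ∧ Z = p - q

/-- The topological Lie algebra `g` is integrable: there is a Lie group `G`, modelled on a
Hausdorff locally convex space `F`, whose Lie algebra (the space `F` with the bracket read in a
chart around the identity) is isomorphic to `g` as a topological Lie algebra. -/
def Integrable (g : Type w) [LieRing g] [LieAlgebra ℝ g] [TopologicalSpace g] : Prop :=
  ∃ (F : Type u) (_ : AddCommGroup F) (_ : Module ℝ F) (_ : TopologicalSpace F)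
    (_ : IsTopologicalAddGroup F) (_ : ContinuousSMul ℝ F) (_ : LocallyConvexSpace ℝ F)
    (_ : T2Space F) (G : Type v) (_ : Group G) (_ : TopologicalSpace G) (_ : T2Space G)
    (A : SmoothAtlas F G), IsLieGroup A ∧ ∃ e ∈ A.charts, (1 : G) ∈ e.source ∧
      ∃ T : F ≃L[ℝ] g, ∀ X Y : F, IsBracket e X Y (T.symm ⁅T X, T Y⁆)

/-- The closure of the commutator `[g, g]`. -/
def closedCommutator (g : Type w) [LieRing g] [LieAlgebra ℝ g] [TopologicalSpace g]
    [IsTopologicalAddGroup g] [ContinuousSMul ℝ g] : Submodule ℝ g :=
  (Submodule.span ℝ {z : g | ∃ x y : g, ⁅x, y⁆ = z}).topologicalClosure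

/-- With `E` the closure of the commutator and `W = g / E`, the module structure of `W` on `E`
integrates to a smooth action of the additive group `W` on `E` by linear maps. -/
def ModuleIntegrates (g : Type w) [LieRing g] [LieAlgebra ℝ g] [TopologicalSpace g]
    [IsTopologicalAddGroup g] [ContinuousSMul ℝ g] : Prop :=
  ∃ α : (g ⧸ closedCommutator g) × closedCommutator g → closedCommutator g,
    IsSmooth α Set.univ ∧
    (∀ a : g ⧸ closedCommutator g, IsLinearMap ℝ (fun z : closedCommutator g => α (a, z))) ∧
    (∀ z : closedCommutator g, α (0, z) = z) ∧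
    (∀ (a b : g ⧸ closedCommutator g) (z : closedCommutator g),
      α (a + b, z) = α (a, α (b, z))) ∧
    ∀ (x : g) (z : closedCommutator g), ∃ y : closedCommutator g, (y : g) = ⁅x, (z : g)⁆ ∧
      HasDirDeriv (fun t : ℝ => α (t • Submodule.Quotient.mk x, z)) 0 1 y

end Pool.Agent.H76Z
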