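import Pool.Agent.H76Z.Calc2
import Pool.Agent.H76Z.AlgDefs

set_option autoImplicit false
set_option linter.unusedSectionVars false
set_option linter.deprecated false
set_option maxHeartbeats 800000

namespace Pool.Agent.H76Z

open Filter Topology Set

universe u v

variable {F : Type u} [AddCommGroup F] [Module ℝ F] [TopologicalSpace F]
  [IsTopologicalAddGroup F] [ContinuousSMul ℝ F] [LocallyConvexSpace ℝ F] [T2Space F]
  {G : Type v} [Group G] [TopologicalSpace G]

/-- Along the curve `c t = e 1 + t X` the adjoint action of the inverse solves a linear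
differential equation. -/
theorem ad_ode (A : SmoothAtlas F G) (hL : IsLieGroup A) {e : OpenPartialHomeomorph G F}
    (he : e ∈ A.charts) (h1 : (1 : G) ∈ e.source) (X Y : F) :
    ∃ (δ : ℝ) (v ξ : ℝ → F), 0 < δ ∧ v 0 = Y ∧ ξ 0 = X ∧
      ∀ t : ℝ, |t| < δ → ∀ Z : F, IsBracket e (ξ t) (v t) Z → HasDirDeriv v t 1 (-Z) := by
  set o : F := e 1 with ho
  have hso : e.symm o = 1 := e.left_inv h1
  have hot : o ∈ e.target := e.map_source h1
  set m : F × F → F := fun p => e (e.symm p.1 * e.symm p.2) with hm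
  set Dm : Set (F × F) := {p | p.1 ∈ e.target ∧ p.2 ∈ e.target ∧
    e.symm p.1 * e.symm p.2 ∈ e.source} with hDm
  have hDmo : IsOpen Dm := isOpen_mulDom hL.1.1 e e e
  have hms : IsSmooth m Dm := hL.1.2 e he e he e he
  set i : F → F := fun a => e (e.symm a)⁻¹ with hi
  set Di : Set F := {a | a ∈ e.target ∧ (e.symm a)⁻¹ ∈ e.source} with hDi
  have hDio : IsOpen Di := isOpen_mapDom hL.2.1 e e
  have his : IsSmooth i Di := hL.2.2 e he e he
  have hsi : ∀ a ∈ Di, e.symm (i a) = (e.symm a)⁻¹ := fun a ha => e.left_inv ha.2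
  have hoi : o ∈ Di := ⟨hot, by rw [hso, inv_one]; exact h1⟩
  have hio : i o = o := by simp only [hi, hso, inv_one, ← ho]
  -- the conjugation map
  set P1 : F × F → F × F := fun p => (i p.1, p.2) with hP1
  have hP1s : ∀ k, IsCk (F × F) k (F × F) P1 (Di ×ˢ univ) := fun k =>
    IsCk.prodMk (((his k).comp_clm (ContinuousLinearMap.fst ℝ F F)).mono fun q hq => hq.1)
      (isCk_clm k (ContinuousLinearMap.snd ℝ F F) _)
  set D1 : Set (F × F) := (Di ×ˢ univ) ∩ P1 ⁻¹' Dm with hD1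
  have hD1o : IsOpen D1 :=
    ContinuousOn.isOpen_inter_preimage (hP1s 0) (hDio.prod isOpen_univ) hDmo
  set P2 : F × F → F × F := fun p => (m (P1 p), p.1) with hP2
  have hP2s : ∀ k, IsCk (F × F) k (F × F) P2 D1 := fun k =>
    IsCk.prodMk (IsCk.comp hDmo (hms k) ((hP1s k).mono inter_subset_left) fun q hq => hq.2)
      (isCk_clm k (ContinuousLinearMap.fst ℝ F F) _)
  set D : Set (F × F) := D1 ∩ P2 ⁻¹' Dm with hD
  have hDo : IsOpen D := ContinuousOn.isOpen_inter_preimage (hP2s 0) hD1o hDmo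
  set Ψ : F × F → F := fun p => e ((e.symm p.1)⁻¹ * e.symm p.2 * e.symm p.1) with hΨ
  have hDval : ∀ p ∈ D, p.1 ∈ Di ∧ p.2 ∈ e.target ∧
      (e.symm p.1)⁻¹ * e.symm p.2 * e.symm p.1 ∈ e.source ∧ Ψ p = m (P2 p) := by
    intro p hp
    have a1 : p.1 ∈ Di := hp.1.1.1
    have a2 : (e.symm p.1)⁻¹ * e.symm p.2 ∈ e.source := by
      have := hp.1.2.2.2
      simpa only [hP1, hsi _ a1] using this
    have a3 : e.symm (m (P1 p)) = (e.symm p.1)⁻¹ * e.symm p.2 := by
      simp only [hm, hP1, hsi _ a1]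
      exact e.left_inv a2
    refine ⟨a1, hp.1.2.2.1, ?_, ?_⟩
    · have := hp.2.2.2
      simpa only [hP2, a3] using this
    · simp only [hΨ, hm, hP2]
      rw [← a3]
  have hΨs : ∀ k, IsCk F k (F × F) Ψ D := fun k =>
    (IsCk.comp hDmo (hms k) ((hP2s k).mono inter_subset_left) fun q hq => hq.2).congr hDo
      fun p hp => (hDval p hp).2.2.2
  have hmemD : ∀ a ∈ Di, (a, o) ∈ D := by
    intro a ha
    have a1 : i a ∈ e.target := e.map_source ha.2
    have a2 : m (i a, o) = i a := by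
      simp only [hm, hso, mul_one]
      exact e.right_inv a1
    refine ⟨⟨⟨ha, mem_univ _⟩, a1, hot, ?_⟩, ?_⟩
    · simp only [hP1, hsi a ha, hso, mul_one]
      exact ha.2
    · simp only [mem_preimage, hP2, hP1, a2]
      refine ⟨a1, ha.1, ?_⟩
      simp only [hsi a ha, inv_mul_cancel]
      exact h1
  have hao : ∀ a ∈ e.target, (a, o) ∈ Dm := fun a ha =>
    ⟨ha, hot, by simp only [hso, mul_one]; exact e.map_target ha⟩
  have hoa : ∀ a ∈ e.target, (o, a) ∈ Dm := fun a ha =>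
    ⟨hot, ha, by simp only [hso, one_mul]; exact e.map_target ha⟩
  have hΨo : ∀ a, Ψ (a, o) = o := by
    intro a
    simp only [hΨ, hso, mul_one, inv_mul_cancel, ← ho]
  obtain ⟨hmc, dm, hdm, hdmc, d2m, hd2m, hd2mc⟩ := hms 2
  obtain ⟨hΨc, dΨ, hdΨ, hdΨc, d2Ψ, hd2Ψ, hd2Ψc⟩ := hΨs 2
  have hlineo : ∀ V : F, ∀ᶠ t in 𝓝[≠] (0 : ℝ), o + t • V ∈ e.target := fun V =>
    tendsto_line o V (e.open_target.mem_nhds hot)
  -- partial derivatives
  have hm2 : ∀ a b, (a, b) ∈ Dm → ∀ V,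
      HasDirDeriv (fun b => m (a, b)) b V (dm ((a, b), (0, V))) :=
    fun a b hab V => HasDirDeriv.chain hDmo hdm hdmc (f := fun b => (a, b)) hab
      ((hasDirDeriv_const a b V).prodMk (hasDirDeriv_id b V))
  have hm1 : ∀ a b, (a, b) ∈ Dm → ∀ V,
      HasDirDeriv (fun a => m (a, b)) a V (dm ((a, b), (V, 0))) :=
    fun a b hab V => HasDirDeriv.chain hDmo hdm hdmc (f := fun a => (a, b)) hab
      ((hasDirDeriv_id a V).prodMk (hasDirDeriv_const b a V))
  have hΨ2 : ∀ a ∈ Di, ∀ V, HasDirDeriv (fun b => Ψ (a, b)) o V (dΨ ((a, o), (0, V))) :=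
    fun a ha V => HasDirDeriv.chain hDo hdΨ hdΨc (f := fun b => (a, b)) (hmemD a ha)
      ((hasDirDeriv_const a o V).prodMk (hasDirDeriv_id o V))
  have hmoo : ∀ V, dm ((o, o), (0, V)) = V := by
    intro V
    refine (hm2 o o (hao o hot) V).unique ((hasDirDeriv_id o V).congr_ev ?_ ?_)
    · simp only [hm, hso, mul_one, ← ho]
    · filter_upwards [hlineo V] with t ht
      simp only [hm, hso, one_mul]
      exact e.right_inv ht
  have hΨoo : ∀ V, dΨ ((o, o), (0, V)) = V := by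
    intro V
    refine (hΨ2 o hoi V).unique ((hasDirDeriv_id o V).congr_ev (hΨo o) ?_)
    filter_upwards [hlineo V] with t ht
    simp only [hΨ, hso, inv_one, one_mul, mul_one]
    exact e.right_inv ht
  have hlineD : ∀ a ∈ Di, ∀ V : F, ∀ᶠ t in 𝓝[≠] (0 : ℝ), (a, o + t • V) ∈ D := fun a ha V =>
    (tendsto_const_nhds.prodMk_nhds (tendsto_line o V)) (hDo.mem_nhds (hmemD a ha))
  -- left and right invariant fields
  have hlr : ∀ a ∈ Di, ∀ V, dm ((a, o), (0, dΨ ((a, o), (0, V)))) = dm ((o, a), (V, 0)) := by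
    intro a ha V
    have a1 : (a, Ψ (a, o)) ∈ Dm := by rw [hΨo]; exact hao a ha.1
    have a2 := HasDirDeriv.chain hDmo hdm hdmc (f := fun b => (a, Ψ (a, b))) a1
      ((hasDirDeriv_const a o V).prodMk (hΨ2 a ha V))
    simp only [hΨo] at a2
    refine a2.unique ((hm1 o a (hoa a ha.1) V).congr_ev ?_ ?_)
    · simp only [hΨo, hm, hso, mul_one, one_mul]
    · filter_upwards [hlineD a ha V] with t ht
      have a3 := (hDval _ ht).2.2.1
      simp only [hm, hΨ]
      rw [e.left_inv a3, mul_assoc, mul_inv_cancel_left]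
  have hDmo2 : IsOpen (Dm ×ˢ (univ : Set (F × F))) := hDmo.prod isOpen_univ
  have hDo2 : IsOpen (D ×ˢ (univ : Set (F × F))) := hDo.prod isOpen_univ
  -- derivative of the adjoint action along a curve through the identity
  have hcurve : ∀ (k : ℝ → F) (t₀ : ℝ) (ξ V : F), k t₀ = o → HasDirDeriv k t₀ 1 ξ →
      HasDirDeriv (fun t => dΨ ((k t, o), (0, V))) t₀ 1
        (d2Ψ (((o, o), (0, V)), ((ξ, 0), (0, 0)))) := by
    intro k t₀ ξ V hk0 hk
    have a1 : ((k t₀, o), ((0 : F), V)) ∈ D ×ˢ (univ : Set (F × F)) := by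
      rw [hk0]; exact ⟨hmemD o hoi, mem_univ _⟩
    have a2 := HasDirDeriv.chain hDo2 hd2Ψ hd2Ψc (f := fun t => ((k t, o), ((0 : F), V))) a1
      ((hk.prodMk (hasDirDeriv_const o t₀ 1)).prodMk (hasDirDeriv_const ((0 : F), V) t₀ 1))
    simp only [hk0] at a2
    exact a2
  have hkey : ∀ ξ V Z, IsBracket e ξ V Z → d2Ψ (((o, o), (0, V)), ((ξ, 0), (0, 0))) = -Z := by
    rintro ξ V Z ⟨lX, lY, hlX, hlY, p, q, hp, hq, rfl⟩
    set β := d2Ψ (((o, o), (0, V)), ((ξ, 0), (0, 0))) with hβ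
    have hoo : ∀ W : F × F, ((o, o), W) ∈ Dm ×ˢ (univ : Set (F × F)) := fun W =>
      ⟨hao o hot, mem_univ _⟩
    have hline : HasDirDeriv (fun t : ℝ => o + t • ξ) 0 1 ξ := (hasDirDeriv_id o ξ).line
    have b1 := hcurve (fun t : ℝ => o + t • ξ) 0 ξ V (by simp) hline
    -- left hand side
    have b2 := HasDirDeriv.chain hDmo2 hd2m hd2mc
      (f := fun t : ℝ => ((o + t • ξ, o), ((0 : F), dΨ ((o + t • ξ, o), (0, V))))) (a := 0)
      (by simp only [zero_smul, add_zero]; exact hoo _)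
      ((hline.prodMk (hasDirDeriv_const o 0 1)).prodMk ((hasDirDeriv_const (0 : F) 0 1).prodMk b1))
    have b3 := HasDirDeriv.chain hDmo2 hd2m hd2mc
      (f := fun t : ℝ => ((o, o + t • ξ), (V, (0 : F)))) (a := 0)
      (by simp only [zero_smul, add_zero]; exact hoo _)
      (((hasDirDeriv_const o 0 1).prodMk hline).prodMk (hasDirDeriv_const (V, (0 : F)) 0 1))
    simp only [zero_smul, add_zero, hΨoo] at b2 b3
    have b4 : d2m (((o, o), (0, V)), ((ξ, 0), (0, β))) =
        d2m (((o, o), (V, 0)), ((0, ξ), (0, 0))) := by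
      refine b2.unique (b3.congr_ev ?_ ?_)
      · simp only [zero_smul, add_zero]
        exact hlr o hoi V
      · filter_upwards [tendsto_line o ξ (hDio.mem_nhds hoi)] with t ht
        simp only [zero_add, smul_eq_mul, mul_one]
        exact hlr _ ht V
    have b5 := deriv_add_dir hDmo2 hd2m hd2mc (hoo (0, V)) ((ξ, 0), (0, 0)) ((0, 0), (0, β))
    simp only [Prod.mk_add_mk, add_zero, zero_add] at b5
    have hfield : ∀ (W U : F) (l : F → F) (r : F), IsLeftInvField e W l → HasDirDeriv l o U r →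
        d2m (((o, o), (0, W)), ((U, 0), (0, 0))) = r := by
      intro W U l r hl hr
      have c1 : ∀ a ∈ e.target, dm ((a, o), (0, W)) = l a := fun a ha =>
        (hm2 a o (hao a ha) W).unique (hl a ha)
      have c2 := HasDirDeriv.chain hDmo2 hd2m hd2mc
        (f := fun a : F => ((a, o), ((0 : F), W))) (a := o) (hoo _)
        (((hasDirDeriv_id o U).prodMk (hasDirDeriv_const o o U)).prodMk
          (hasDirDeriv_const ((0 : F), W) o U))
      refine c2.unique (hr.congr_ev (c1 o hot) ?_)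
      filter_upwards [hlineo U] with t ht
      exact c1 _ ht
    have b6 := hfield V ξ lY p hlY hp
    have b7 := hfield ξ V lX q hlX hq
    have b8 : d2m (((o, o), (0, V)), ((0, 0), (0, β))) = β := by
      have c2 := HasDirDeriv.chain hDmo2 hd2m hd2mc
        (f := fun W : F => ((o, o), ((0 : F), W))) (a := V) (hoo _)
        ((hasDirDeriv_const (o, o) V β).prodMk
          ((hasDirDeriv_const (0 : F) V β).prodMk (hasDirDeriv_id V β)))
      simp only [hmoo] at c2
      exact c2.unique (hasDirDeriv_id V β)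
    have b9 := schwarz hDmo hdm hd2m hd2mc (hao o hot) (V, 0) (0, ξ)
    have b10 : d2m (((o, o), (V, 0)), ((0, ξ), (0, 0))) = q := b9.trans b7
    rw [b4, b10, b6, b8] at b5
    rw [b5]
    abel
  -- the curve
  have hc : Continuous (fun t : ℝ => o + t • X) := by fun_prop
  have hc0 : ∀ᶠ t in 𝓝 (0 : ℝ), o + t • X ∈ Di := by
    have := hc.tendsto 0
    simp only [zero_smul, add_zero] at this
    exact this (hDio.mem_nhds hoi)
  obtain ⟨δ, hδ, hδB⟩ := Metric.mem_nhds_iff.1 hc0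
  have hcD : ∀ t : ℝ, |t| < δ → o + t • X ∈ Di := fun t ht => hδB (by simpa using ht)
  refine ⟨δ, fun t => dΨ ((o + t • X, o), (0, Y)),
    fun t => dm ((i (o + t • X), o + t • X), (0, X)), hδ, ?_, ?_, ?_⟩
  · simp only [zero_smul, add_zero, hΨoo]
  · simp only [zero_smul, add_zero, hio, hmoo]
  · intro t₀ ht₀ Z hZ
    rw [← hkey _ _ _ hZ]
    have hc₀ := hcD t₀ ht₀
    set c₀ := o + t₀ • X with hc₀def
    have hmem : (i c₀, c₀) ∈ Dm := ⟨e.map_source hc₀.2, hc₀.1, by
      simp only [hsi _ hc₀, inv_mul_cancel]; exact h1⟩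
    set k : ℝ → F := fun t => m (i c₀, o + t • X) with hk
    have hk0 : k t₀ = o := by
      simp only [hk, hm, ← hc₀def, hsi _ hc₀, inv_mul_cancel, ← ho]
    have hcl : HasDirDeriv (fun t : ℝ => o + t • X) t₀ 1 X := by
      have := hasDirDeriv_affine (LinearMap.toSpanSingleton ℝ F X) o t₀ 1
      simpa using this
    have hkd : HasDirDeriv k t₀ 1 (dm ((i c₀, c₀), (0, X))) :=
      HasDirDeriv.chain hDmo hdm hdmc (f := fun t : ℝ => (i c₀, o + t • X)) hmem
        ((hasDirDeriv_const (i c₀) t₀ 1).prodMk hcl)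
    have hev : ∀ t : ℝ, o + t • X ∈ Di → (i c₀, o + t • X) ∈ Dm → k t ∈ Di →
        dΨ ((o + t • X, o), (0, Y)) = dΨ ((k t, o), (0, dΨ ((c₀, o), (0, Y)))) := by
      intro t a1 a2 a3
      have a4 : e.symm (k t) = (e.symm c₀)⁻¹ * e.symm (o + t • X) := by
        have := e.left_inv a2.2.2
        simp only [hsi _ hc₀] at this
        simp only [hk, hm, hsi _ hc₀]
        exact this
      have a5 : (k t, Ψ (c₀, o)) ∈ D := by rw [hΨo]; exact hmemD _ a3
      have a6 := HasDirDeriv.chain hDo hdΨ hdΨc (f := fun b => (k t, Ψ (c₀, b))) a5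
        ((hasDirDeriv_const (k t) o Y).prodMk (hΨ2 c₀ hc₀ Y))
      simp only [hΨo] at a6
      refine (hΨ2 _ a1 Y).unique (a6.congr_ev ?_ ?_)
      · simp only [hΨo]
      · filter_upwards [hlineD c₀ hc₀ Y] with s hs
        have a7 := (hDval _ hs).2.2.1
        simp only [hΨ]
        rw [e.left_inv a7, a4]
        congr 1
        group
    have hl : Tendsto (fun s : ℝ => t₀ + s • (1 : ℝ)) (𝓝[≠] 0) (𝓝 t₀) := tendsto_line t₀ 1
    have hp : Tendsto (fun t : ℝ => (i c₀, o + t • X)) (𝓝 t₀) (𝓝 (i c₀, c₀)) :=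
      tendsto_const_nhds.prodMk_nhds (hc.tendsto t₀)
    have hkc : Tendsto k (𝓝 t₀) (𝓝 o) := by
      rw [← hk0]
      exact (hmc.continuousAt (hDmo.mem_nhds hmem)).tendsto.comp hp
    refine (hcurve k t₀ _ _ hk0 hkd).congr_ev ?_ ?_
    · simp only [hk0, hΨoo]
    · filter_upwards [hl ((hc.tendsto t₀) (hDio.mem_nhds hc₀)), hl (hp (hDmo.mem_nhds hmem)),
        hl (hkc (hDio.mem_nhds hoi))] with s a1 a2 a3
      exact hev _ a1 a2 a3

end Pool.Agent.H76Z
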