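import Pool.Agent.H76Z.Defs

set_option autoImplicit false

namespace Pool.Agent.H76Z

open Filter Topology Set

universe u v w

section MVT

variable {F : Type v} [AddCommGroup F] [Module ℝ F] [TopologicalSpace F]
  [IsTopologicalAddGroup F] [ContinuousSMul ℝ F] [LocallyConvexSpace ℝ F]

theorem mvt_lt {K : Set F} (hK : Convex ℝ K) (hc : IsClosed K) (c c' : ℝ → F) {a b : ℝ}
    (hab : a < b)
    (hd : ∀ s ∈ Icc a b,
      Tendsto (fun h : ℝ => h⁻¹ • (c (s + h) - c s)) (𝓝[≠] 0) (𝓝 (c' s)))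
    (hm : ∀ s ∈ Icc a b, c' s ∈ K) : (b - a)⁻¹ • (c b - c a) ∈ K := by
  by_contra hn
  obtain ⟨f, r, h1, h2⟩ := geometric_hahn_banach_point_closed hK hc hn
  have hg : ∀ s ∈ Icc a b, HasDerivAt (fun s => f (c s)) (f (c' s)) s := by
    intro s hs
    rw [hasDerivAt_iff_tendsto_slope_zero]
    have := (f.continuous.tendsto _).comp (hd s hs)
    refine this.congr fun h => ?_
    simp [map_smul, map_sub]
  obtain ⟨ξ, hξ, h3⟩ := exists_hasDerivAt_eq_slope (fun s => f (c s)) (fun s => f (c' s)) hab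
    (fun s hs => (hg s hs).continuousAt.continuousWithinAt)
    (fun s hs => hg s (Ioo_subset_Icc_self hs))
  have h4 := h2 _ (hm ξ (Ioo_subset_Icc_self hξ))
  rw [h3] at h4
  rw [map_smul, map_sub, smul_eq_mul, ← div_eq_inv_mul] at h1
  linarith

theorem mvt_ne {K : Set F} (hK : Convex ℝ K) (hc : IsClosed K) (c c' : ℝ → F) {t : ℝ}
    (ht : t ≠ 0)
    (hd : ∀ s : ℝ, |s| ≤ |t| →
      Tendsto (fun h : ℝ => h⁻¹ • (c (s + h) - c s)) (𝓝[≠] 0) (𝓝 (c' s)))
    (hm : ∀ s : ℝ, |s| ≤ |t| → c' s ∈ K) : t⁻¹ • (c t - c 0) ∈ K := by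
  rcases lt_or_gt_of_ne ht with h | h
  · have hs : ∀ s ∈ Icc t 0, |s| ≤ |t| := fun s hs => by
      rw [abs_of_nonpos hs.2, abs_of_neg h]; linarith [hs.1]
    have := mvt_lt hK hc c c' h (fun s h' => hd s (hs s h')) (fun s h' => hm s (hs s h'))
    rw [zero_sub, inv_neg, neg_smul, ← smul_neg, neg_sub] at this
    exact this
  · have hs : ∀ s ∈ Icc 0 t, |s| ≤ |t| := fun s hs => by
      rw [abs_of_nonneg hs.1, abs_of_pos h]; exact hs.2
    have := mvt_lt hK hc c c' h (fun s h' => hd s (hs s h')) (fun s h' => hm s (hs s h'))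
    rw [sub_zero] at this
    exact this

theorem exists_closed_convex {y : F} {N : Set F} (hN : N ∈ 𝓝 y) :
    ∃ K ∈ 𝓝 y, Convex ℝ K ∧ IsClosed K ∧ K ⊆ N := by
  obtain ⟨N', hN', hcl, hsub⟩ := exists_mem_nhds_isClosed_subset hN
  obtain ⟨V, ⟨hV, hVc⟩, hVs⟩ := (LocallyConvexSpace.convex_basis (𝕜 := ℝ) y).mem_iff.1 hN'
  refine ⟨closure V, mem_of_superset hV subset_closure, hVc.closure, isClosed_closure, ?_⟩
  exact (closure_minimal hVs hcl).trans hsub

/-- strict differentiability of `C^1` maps along moving base points and directions -/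
theorem strict_deriv {Y : Type u} [AddCommGroup Y] [Module ℝ Y] [TopologicalSpace Y]
    [IsTopologicalAddGroup Y] [ContinuousSMul ℝ Y]
    {g : Y → F} {U : Set Y} (hU : IsOpen U) {dg : Y × Y → F}
    (hd : ∀ y ∈ U, ∀ w, HasDirDeriv g y w (dg (y, w)))
    (hc : ContinuousOn dg (U ×ˢ univ)) {p w : ℝ → Y} {y₀ w₀ : Y} (hy : y₀ ∈ U)
    (hp : Tendsto p (𝓝[≠] 0) (𝓝 y₀)) (hw : Tendsto w (𝓝[≠] 0) (𝓝 w₀)) :
    Tendsto (fun t : ℝ => t⁻¹ • (g (p t + t • w t) - g (p t))) (𝓝[≠] 0) (𝓝 (dg (y₀, w₀))) := by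
  intro N hN
  obtain ⟨K, hK, hKc, hKcl, hKN⟩ := exists_closed_convex hN
  have hUo : IsOpen (U ×ˢ (univ : Set Y)) := hU.prod isOpen_univ
  have hmem : (y₀, w₀) ∈ U ×ˢ (univ : Set Y) := ⟨hy, mem_univ _⟩
  have hS : (U ×ˢ (univ : Set Y)) ∩ dg ⁻¹' K ∈ 𝓝 (y₀, w₀) :=
    inter_mem (hUo.mem_nhds hmem) ((hc.continuousAt (hUo.mem_nhds hmem)) hK)
  have hT : Tendsto (fun q : ℝ × ℝ => (p q.1 + q.2 • w q.1, w q.1))
      ((𝓝[≠] (0 : ℝ)) ×ˢ (𝓝 (0 : ℝ))) (𝓝 (y₀, w₀)) := by
    have h1 : Tendsto (fun q : ℝ × ℝ => p q.1 + q.2 • w q.1)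
        ((𝓝[≠] (0 : ℝ)) ×ˢ (𝓝 (0 : ℝ))) (𝓝 (y₀ + (0 : ℝ) • w₀)) :=
      (hp.comp tendsto_fst).add (tendsto_snd.smul (hw.comp tendsto_fst))
    rw [zero_smul, add_zero] at h1
    exact h1.prodMk_nhds (hw.comp tendsto_fst)
  obtain ⟨T, hT1, B, hB, hTB⟩ := mem_prod_iff.1 (hT hS)
  obtain ⟨δ, hδ, hδB⟩ := Metric.mem_nhds_iff.1 hB
  have h1 : ∀ᶠ t in 𝓝[≠] (0 : ℝ), |t| < δ := by
    apply mem_nhdsWithin_of_mem_nhds
    filter_upwards [Metric.ball_mem_nhds (0 : ℝ) hδ] with t ht
    simpa using ht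
  rw [mem_map]
  filter_upwards [hT1, h1, self_mem_nhdsWithin] with t ht1 ht2 ht3
  have ht0 : t ≠ 0 := ht3
  have key : ∀ s : ℝ, |s| ≤ |t| → p t + s • w t ∈ U ∧ dg (p t + s • w t, w t) ∈ K := by
    intro s hs
    have h2 : s ∈ B := hδB (by simpa using hs.trans_lt ht2)
    have h3 := hTB (mk_mem_prod ht1 h2)
    exact ⟨h3.1.1, h3.2⟩
  have h4 := mvt_ne hKc hKcl (fun s => g (p t + s • w t)) (fun s => dg (p t + s • w t, w t)) ht0
    (fun s hs => by
      have h5 := hd _ (key s hs).1 (w t)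
      unfold HasDirDeriv at h5
      refine h5.congr fun h => ?_
      rw [add_smul, add_assoc])
    (fun s hs => (key s hs).2)
  apply hKN
  simpa using h4

end MVT

section Basic

variable {F : Type v} [AddCommGroup F] [Module ℝ F] [TopologicalSpace F]

theorem IsCk.continuousOn {k : ℕ} {E : Type u} [AddCommGroup E] [Module ℝ E] [TopologicalSpace E]
    {f : E → F} {U : Set E} (h : IsCk F k E f U) : ContinuousOn f U := by
  cases k with
  | zero => exact h
  | succ k => exact h.1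

theorem IsCk.mono {k : ℕ} : ∀ {E : Type u} [AddCommGroup E] [Module ℝ E] [TopologicalSpace E]
    {f : E → F} {U V : Set E}, IsCk F k E f U → V ⊆ U → IsCk F k E f V := by
  induction k with
  | zero => intro E _ _ _ f U V h hV; exact ContinuousOn.mono h hV
  | succ k ih =>
    intro E _ _ _ f U V h hV
    obtain ⟨h1, df, h2, h3⟩ := h
    exact ⟨h1.mono hV, df, fun a ha v => h2 a (hV ha) v, ih h3 (prod_mono hV subset_rfl)⟩

theorem IsCk.of_succ {k : ℕ} : ∀ {E : Type u} [AddCommGroup E] [Module ℝ E] [TopologicalSpace E]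
    {f : E → F} {U : Set E}, IsCk F (k + 1) E f U → IsCk F k E f U := by
  induction k with
  | zero => intro E _ _ _ f U h; exact h.1
  | succ k ih =>
    intro E _ _ _ f U h
    obtain ⟨h1, df, h2, h3⟩ := h
    exact ⟨h1, df, h2, ih h3⟩

theorem tendsto_line {E : Type u} [AddCommGroup E] [Module ℝ E] [TopologicalSpace E]
    [IsTopologicalAddGroup E] [ContinuousSMul ℝ E] (a v : E) :
    Tendsto (fun t : ℝ => a + t • v) (𝓝[≠] 0) (𝓝 a) := by
  have h : Continuous (fun t : ℝ => a + t • v) := by fun_prop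
  have h2 := h.tendsto 0
  simp only [zero_smul, add_zero] at h2
  exact h2.mono_left nhdsWithin_le_nhds

theorem HasDirDeriv.congr {E : Type u} [AddCommGroup E] [Module ℝ E] [TopologicalSpace E]
    [IsTopologicalAddGroup E] [ContinuousSMul ℝ E] {f g : E → F} {U : Set E} (hU : IsOpen U)
    (hfg : EqOn g f U) {a v : E} {y : F} (ha : a ∈ U) (h : HasDirDeriv f a v y) :
    HasDirDeriv g a v y := by
  unfold HasDirDeriv at h ⊢
  refine h.congr' ?_
  filter_upwards [tendsto_line a v (hU.mem_nhds ha)] with t ht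
  rw [hfg ht, hfg ha]

theorem IsCk.congr {k : ℕ} {E : Type u} [AddCommGroup E] [Module ℝ E] [TopologicalSpace E]
    [IsTopologicalAddGroup E] [ContinuousSMul ℝ E] {f g : E → F} {U : Set E} (hU : IsOpen U)
    (h : IsCk F k E f U) (hfg : EqOn g f U) : IsCk F k E g U := by
  cases k with
  | zero => exact ContinuousOn.congr h hfg
  | succ k =>
    obtain ⟨h1, df, h2, h3⟩ := h
    exact ⟨h1.congr hfg, df, fun a ha v => (h2 a ha v).congr hU hfg ha, h3⟩

theorem isCk_clm (k : ℕ) : ∀ {E : Type u} [AddCommGroup E] [Module ℝ E] [TopologicalSpace E]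
    (L : E →L[ℝ] F) (U : Set E), IsCk F k E L U := by
  induction k with
  | zero => intro E _ _ _ L U; exact L.continuous.continuousOn
  | succ k ih =>
    intro E _ _ _ L U
    refine ⟨L.continuous.continuousOn, L.comp (ContinuousLinearMap.snd ℝ E E), ?_, ih _ _⟩
    intro a _ v
    unfold HasDirDeriv
    refine tendsto_const_nhds.congr' ?_
    filter_upwards [self_mem_nhdsWithin] with t ht
    have ht0 : t ≠ 0 := ht
    simp [smul_smul, ht0]

theorem isCk_const (k : ℕ) :
    ∀ {E : Type u} [AddCommGroup E] [Module ℝ E] [TopologicalSpace E]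
    (c : F) (U : Set E), IsCk F k E (fun _ => c) U := by
  induction k with
  | zero => intro E _ _ _ c U; exact continuousOn_const
  | succ k ih =>
    intro E _ _ _ c U
    refine ⟨continuousOn_const, fun _ => 0, ?_, ih _ _⟩
    intro a _ v
    unfold HasDirDeriv
    simpa using tendsto_const_nhds

theorem IsCk.comp_clm {k : ℕ} : ∀ {E : Type u} [AddCommGroup E] [Module ℝ E] [TopologicalSpace E]
    {E' : Type w} [AddCommGroup E'] [Module ℝ E'] [TopologicalSpace E']
    {f : E → F} {U : Set E} (L : E' →L[ℝ] E), IsCk F k E f U →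
      IsCk F k E' (fun a => f (L a)) (L ⁻¹' U) := by
  induction k with
  | zero =>
    intro E _ _ _ E' _ _ _ f U L h
    exact ContinuousOn.comp h L.continuous.continuousOn (fun _ ha => ha)
  | succ k ih =>
    intro E _ _ _ E' _ _ _ f U L h
    obtain ⟨h1, df, h2, h3⟩ := h
    refine ⟨h1.comp L.continuous.continuousOn (fun _ ha => ha),
      fun q => df (L.prodMap L q), ?_, (ih (L.prodMap L) h3).mono ?_⟩
    · intro a ha v
      have := h2 (L a) ha (L v)
      unfold HasDirDeriv at this ⊢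
      simpa [map_add, map_smul] using this
    · intro q hq
      exact ⟨hq.1, mem_univ _⟩

theorem IsCk.clm_comp {H : Type w} [AddCommGroup H] [Module ℝ H] [TopologicalSpace H]
    (L : F →L[ℝ] H) {k : ℕ} :
    ∀ {E : Type u} [AddCommGroup E] [Module ℝ E] [TopologicalSpace E]
    {f : E → F} {U : Set E}, IsCk F k E f U → IsCk H k E (fun a => L (f a)) U := by
  induction k with
  | zero =>
    intro E _ _ _ f U h
    exact L.continuous.comp_continuousOn h
  | succ k ih =>
    intro E _ _ _ f U h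
    obtain ⟨h1, df, h2, h3⟩ := h
    refine ⟨L.continuous.comp_continuousOn h1, fun q => L (df q), ?_, ih h3⟩
    intro a ha v
    have := (L.continuous.tendsto _).comp (h2 a ha v)
    unfold HasDirDeriv
    refine this.congr fun t => ?_
    simp [map_smul, map_sub]

theorem IsCk.prodMk {H : Type w} [AddCommGroup H] [Module ℝ H] [TopologicalSpace H] {k : ℕ} :
    ∀ {E : Type u} [AddCommGroup E] [Module ℝ E] [TopologicalSpace E]
    {f : E → F} {g : E → H} {U : Set E}, IsCk F k E f U → IsCk H k E g U →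
      IsCk (F × H) k E (fun a => (f a, g a)) U := by
  induction k with
  | zero =>
    intro E _ _ _ f g U hf hg
    exact ContinuousOn.prodMk hf hg
  | succ k ih =>
    intro E _ _ _ f g U hf hg
    obtain ⟨h1, df, h2, h3⟩ := hf
    obtain ⟨h4, dg, h5, h6⟩ := hg
    refine ⟨h1.prodMk h4, fun q => (df q, dg q), ?_, ih h3 h6⟩
    intro a ha v
    exact (h2 a ha v).prodMk_nhds (h5 a ha v)

theorem IsCk.pi {ι : Type w} {k : ℕ} :
    ∀ {E : Type u} [AddCommGroup E] [Module ℝ E] [TopologicalSpace E]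
    {f : E → ι → F} {U : Set E}, (∀ i, IsCk F k E (fun a => f a i) U) →
      IsCk (ι → F) k E f U := by
  induction k with
  | zero =>
    intro E _ _ _ f U hf
    exact continuousOn_pi.2 hf
  | succ k ih =>
    intro E _ _ _ f U hf
    choose h1 df h2 h3 using hf
    refine ⟨continuousOn_pi.2 h1, fun q i => df i q, ?_, ih h3⟩
    intro a ha v
    exact tendsto_pi_nhds.2 fun i => h2 i a ha v

end Basic

section Chain

variable {H : Type w} [AddCommGroup H] [Module ℝ H] [TopologicalSpace H]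
  [IsTopologicalAddGroup H] [ContinuousSMul ℝ H] [LocallyConvexSpace ℝ H]

theorem HasDirDeriv.chain {E : Type u} [AddCommGroup E] [Module ℝ E]
    {F : Type v} [AddCommGroup F] [Module ℝ F] [TopologicalSpace F]
    [IsTopologicalAddGroup F] [ContinuousSMul ℝ F]
    {g : F → H} {V : Set F} (hV : IsOpen V) {dg : F × F → H}
    (hd : ∀ y ∈ V, ∀ w, HasDirDeriv g y w (dg (y, w))) (hc : ContinuousOn dg (V ×ˢ univ))
    {f : E → F} {a v : E} {y : F} (ha : f a ∈ V) (hf : HasDirDeriv f a v y) :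
    HasDirDeriv (fun b => g (f b)) a v (dg (f a, y)) := by
  have h := strict_deriv hV hd hc (p := fun _ => f a) ha tendsto_const_nhds hf
  unfold HasDirDeriv
  refine h.congr' ?_
  filter_upwards [self_mem_nhdsWithin] with t ht
  have ht0 : t ≠ 0 := ht
  simp [smul_smul, ht0]

theorem IsCk.comp {k : ℕ} :
    ∀ {E : Type u} [AddCommGroup E] [Module ℝ E] [TopologicalSpace E]
    {F : Type v} [AddCommGroup F] [Module ℝ F] [TopologicalSpace F]
    [IsTopologicalAddGroup F] [ContinuousSMul ℝ F]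
    {g : F → H} {V : Set F} {f : E → F} {U : Set E}, IsOpen V → IsCk H k F g V →
      IsCk F k E f U → MapsTo f U V → IsCk H k E (fun a => g (f a)) U := by
  induction k with
  | zero =>
    intro E _ _ _ F _ _ _ _ _ g V f U _ hg hf hm
    exact ContinuousOn.comp hg hf hm
  | succ k ih =>
    intro E _ _ _ F _ _ _ _ _ g V f U hV hg hf hm
    have hf' := hf.of_succ
    obtain ⟨h1, dg, h2, h3⟩ := hg
    obtain ⟨h4, df, h5, h6⟩ := hf
    refine ⟨h1.comp h4 hm, fun q => dg (f q.1, df q), ?_, ?_⟩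
    · intro a ha v
      exact HasDirDeriv.chain hV h2 h3.continuousOn (hm ha) (h5 a ha v)
    · have h7 : IsCk F k (E × E) (fun q => f q.1) (U ×ˢ univ) :=
        (hf'.comp_clm (ContinuousLinearMap.fst ℝ E E)).mono fun q hq => hq.1
      exact ih (hV.prod isOpen_univ) h3 (h7.prodMk h6) fun q hq => ⟨hm hq.1, mem_univ _⟩

end Chain

end Pool.Agent.H76Z
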