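import Pool.Agent.H76Z.Defs

/-!
Lie groups modelled on locally convex spaces, local exponentiality, injectivity of the derivative
of a morphism at the identity.
-/

set_option autoImplicit false

namespace Pool.Agent.H76Z

universe u v w x

/-- The atlas `A` makes `G` a Lie group: multiplication and inversion are smooth. -/
def IsLieGroup {E : Type u} [AddCommGroup E] [Module ℝ E] [TopologicalSpace E]
    {G : Type v} [Group G] [TopologicalSpace G] (A : SmoothAtlas E G) : Prop :=
  MulSmooth A ∧ SmoothMap A A (fun g : G => g⁻¹)

/-- A map from a topological vector space `V` into a manifold is smooth if it is continuous and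
smooth in all charts of the manifold. -/
def SmoothTo {V : Type u} [AddCommGroup V] [Module ℝ V] [TopologicalSpace V]
    {E : Type v} [AddCommGroup E] [Module ℝ E] [TopologicalSpace E]
    {M : Type w} [TopologicalSpace M] (A : SmoothAtlas E M) (f : V → M) : Prop :=
  Continuous f ∧ ∀ e ∈ A.charts, IsSmooth (fun a : V => e (f a)) {a | f a ∈ e.source}

/-- `G` is locally exponential.  The Lie algebra is identified with `E` by a chart `e` around `1`.
Every `a` in `E` is the velocity at `0` of a smooth one parameter group `γ a`, the map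
`exp a = γ a 1` is smooth, and it agrees on an open neighbourhood of `0` with a homeomorphism `Φ`
onto an open subset of `G` whose inverse is smooth in all charts. -/
def LocallyExponential {E : Type u} [AddCommGroup E] [Module ℝ E] [TopologicalSpace E]
    {G : Type v} [Group G] [TopologicalSpace G] (A : SmoothAtlas E G) : Prop :=
  ∃ e ∈ A.charts, (1 : G) ∈ e.source ∧ ∃ γ : E → ℝ → G,
    (∀ a : E, (∀ s t : ℝ, γ a (s + t) = γ a s * γ a t) ∧ SmoothTo A (γ a) ∧
      HasDirDeriv (fun t : ℝ => e (γ a t)) 0 1 a) ∧
    SmoothTo A (fun a : E => γ a 1) ∧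
    ∃ Φ : OpenPartialHomeomorph E G, (0 : E) ∈ Φ.source ∧ (∀ a ∈ Φ.source, Φ a = γ a 1) ∧
      ∀ e' ∈ A.charts,
        IsSmooth (fun a : E => Φ.symm (e'.symm a)) {a | a ∈ e'.target ∧ e'.symm a ∈ Φ.target}

/-- The derivative of `φ` at the identity, read in any charts around the identity elements,
is injective. -/
def InjectiveDerivative {E : Type u} {F : Type v} [AddCommGroup E] [Module ℝ E]
    [TopologicalSpace E] [AddCommGroup F] [Module ℝ F] [TopologicalSpace F]
    {G : Type w} {H : Type x} [Group G] [TopologicalSpace G] [Group H] [TopologicalSpace H]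
    (A : SmoothAtlas E G) (B : SmoothAtlas F H) (φ : G →* H) : Prop :=
  ∀ e ∈ A.charts, (1 : G) ∈ e.source → ∀ e' ∈ B.charts, (1 : H) ∈ e'.source →
    ∀ (v w : E) (y : F), HasDirDeriv (fun a : E => e' (φ (e.symm a))) (e 1) v y →
      HasDirDeriv (fun a : E => e' (φ (e.symm a))) (e 1) w y → v = w

end Pool.Agent.H76Z
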