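import Pool.Agent.H76Z.Inv
import Pool.Agent.H76Z.LieDefs

set_option autoImplicit false
set_option linter.unusedSectionVars false
set_option linter.deprecated false
set_option maxHeartbeats 400000

namespace Pool.Agent.H76Z

open Filter Topology Set

universe u v w

section

variable {F : Type v} [AddCommGroup F] [Module ℝ F] [TopologicalSpace F]
  [IsTopologicalAddGroup F] [ContinuousSMul ℝ F]

theorem HasDirDeriv.unique [T2Space F] {E : Type u} [AddCommGroup E] [Module ℝ E]
    {f : E → F} {a v : E} {y z : F} (h : HasDirDeriv f a v y) (h' : HasDirDeriv f a v z) :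
    y = z := tendsto_nhds_unique h h'

theorem HasDirDeriv.congr_ev {E : Type u} [AddCommGroup E] [Module ℝ E]
    {f g : E → F} {a v : E} {y : F} (h : HasDirDeriv f a v y) (h0 : g a = f a)
    (h1 : ∀ᶠ t in 𝓝[≠] (0 : ℝ), g (a + t • v) = f (a + t • v)) : HasDirDeriv g a v y := by
  unfold HasDirDeriv at h ⊢
  refine h.congr' ?_
  filter_upwards [h1] with t ht
  rw [ht, h0]

theorem hasDirDeriv_affine {E : Type u} [AddCommGroup E] [Module ℝ E]
    (L : E →ₗ[ℝ] F) (c : F) (a v : E) : HasDirDeriv (fun b => c + L b) a v (L v) := by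
  unfold HasDirDeriv
  refine tendsto_const_nhds.congr' ?_
  filter_upwards [self_mem_nhdsWithin] with t ht
  have ht0 : t ≠ 0 := ht
  simp [smul_smul, ht0]

theorem hasDirDeriv_id (a v : F) : HasDirDeriv (fun b => b) a v v := by
  have := hasDirDeriv_affine (LinearMap.id : F →ₗ[ℝ] F) 0 a v
  simpa using this

theorem hasDirDeriv_const {E : Type u} [AddCommGroup E] [Module ℝ E] (c : F) (a v : E) :
    HasDirDeriv (fun _ => c) a v 0 := by
  unfold HasDirDeriv
  simpa using tendsto_const_nhds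

theorem HasDirDeriv.prodMk {E : Type u} [AddCommGroup E] [Module ℝ E]
    {H : Type w} [AddCommGroup H] [Module ℝ H] [TopologicalSpace H]
    {f : E → F} {g : E → H} {a v : E} {y : F} {z : H}
    (hf : HasDirDeriv f a v y) (hg : HasDirDeriv g a v z) :
    HasDirDeriv (fun b => (f b, g b)) a v (y, z) := Tendsto.prodMk_nhds hf hg

theorem HasDirDeriv.clm {E : Type u} [AddCommGroup E] [Module ℝ E]
    {H : Type w} [AddCommGroup H] [Module ℝ H] [TopologicalSpace H]
    {f : E → F} {a v : E} {y : F} (L : F →L[ℝ] H) (hf : HasDirDeriv f a v y) :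
    HasDirDeriv (fun b => L (f b)) a v (L y) := by
  have := (L.continuous.tendsto _).comp hf
  unfold HasDirDeriv
  refine this.congr fun t => ?_
  simp [map_smul, map_sub]

theorem HasDirDeriv.line {E : Type u} [AddCommGroup E] [Module ℝ E]
    {f : E → F} {a v : E} {y : F} (hf : HasDirDeriv f a v y) :
    HasDirDeriv (fun t : ℝ => f (a + t • v)) 0 1 y := by
  unfold HasDirDeriv at hf ⊢
  simpa using hf

theorem HasDirDeriv.of_line {E : Type u} [AddCommGroup E] [Module ℝ E]
    {f : E → F} {a v : E} {y : F} (hf : HasDirDeriv (fun t : ℝ => f (a + t • v)) 0 1 y) :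
    HasDirDeriv f a v y := by
  unfold HasDirDeriv at hf ⊢
  simpa using hf

theorem hasDirDeriv_real {f : ℝ → ℝ} {a y : ℝ} (hf : HasDirDeriv f a 1 y) : HasDerivAt f y a := by
  rw [hasDerivAt_iff_tendsto_slope_zero]
  unfold HasDirDeriv at hf
  simpa using hf

theorem IsCk.add {k : ℕ} {E : Type u} [AddCommGroup E] [Module ℝ E] [TopologicalSpace E]
    {f g : E → F} {U : Set E} (hf : IsCk F k E f U) (hg : IsCk F k E g U) :
    IsCk F k E (fun a => f a + g a) U :=
  IsCk.clm_comp (ContinuousLinearMap.fst ℝ F F + ContinuousLinearMap.snd ℝ F F) (hf.prodMk hg)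

theorem isCk_smul_clm (k : ℕ) : ∀ {E : Type u} [AddCommGroup E] [Module ℝ E] [TopologicalSpace E]
    (l : E →L[ℝ] ℝ) (L : E →L[ℝ] F), IsCk F k E (fun a => l a • L a) univ := by
  induction k with
  | zero => intro E _ _ _ l L; exact (l.continuous.smul L.continuous).continuousOn
  | succ k ih =>
    intro E _ _ _ l L
    refine ⟨(l.continuous.smul L.continuous).continuousOn,
      fun q => l q.2 • L q.1 + l q.1 • L q.2, ?_, ?_⟩
    · intro a _ v
      unfold HasDirDeriv
      have h1 : Continuous (fun t : ℝ => l v • L a + l a • L v + t • (l v • L v)) := by fun_prop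
      have h2 := (h1.tendsto 0).mono_left (nhdsWithin_le_nhds (s := {0}ᶜ))
      simp only [zero_smul, add_zero] at h2
      refine h2.congr' ?_
      filter_upwards [self_mem_nhdsWithin] with t ht
      have ht0 : t ≠ 0 := ht
      rw [eq_inv_smul_iff₀ ht0]
      simp only [map_add, map_smul, smul_eq_mul]
      module
    · exact ((ih (l.comp (ContinuousLinearMap.snd ℝ E E))
        (L.comp (ContinuousLinearMap.fst ℝ E E))).add
        (ih (l.comp (ContinuousLinearMap.fst ℝ E E))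
          (L.comp (ContinuousLinearMap.snd ℝ E E)))).mono (subset_univ _)

variable [LocallyConvexSpace ℝ F]

theorem IsCk.smul {k : ℕ} {E : Type u} [AddCommGroup E] [Module ℝ E] [TopologicalSpace E]
    {c : E → ℝ} {f : E → F} {U : Set E} (hc : IsCk ℝ k E c U) (hf : IsCk F k E f U) :
    IsCk F k E (fun a => c a • f a) U :=
  IsCk.comp isOpen_univ
    (isCk_smul_clm k (ContinuousLinearMap.fst ℝ ℝ F) (ContinuousLinearMap.snd ℝ ℝ F))
    (hc.prodMk hf) (mapsTo_univ _ _)

variable {Y : Type u} [AddCommGroup Y] [Module ℝ Y] [TopologicalSpace Y]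
  [IsTopologicalAddGroup Y] [ContinuousSMul ℝ Y]

theorem deriv_add_dir [T2Space F] {g : Y → F} {U : Set Y} (hU : IsOpen U) {dg : Y × Y → F}
    (hd : ∀ y ∈ U, ∀ w, HasDirDeriv g y w (dg (y, w)))
    (hc : ContinuousOn dg (U ×ˢ univ)) {y : Y} (hy : y ∈ U) (v w : Y) :
    dg (y, v + w) = dg (y, v) + dg (y, w) := by
  have h1 := strict_deriv hU hd hc (w := fun _ => w) hy (tendsto_line y v) tendsto_const_nhds
  have h2 := (hd y hy v).add h1
  refine tendsto_nhds_unique (hd y hy (v + w)) (h2.congr fun t => ?_)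
  rw [← smul_add, smul_add t v w, add_assoc y]
  congr 1
  abel

theorem second_diff {g : Y → F} {U : Set Y} (hU : IsOpen U) {dg : Y × Y → F}
    (hd : ∀ y ∈ U, ∀ w, HasDirDeriv g y w (dg (y, w))) {d2 : (Y × Y) × (Y × Y) → F}
    (hd2 : ∀ q ∈ U ×ˢ (univ : Set Y), ∀ w, HasDirDeriv dg q w (d2 (q, w)))
    (hc : ContinuousOn d2 ((U ×ˢ univ) ×ˢ univ)) {y : Y} (hy : y ∈ U) (v w : Y) :
    Tendsto (fun t : ℝ => t⁻¹ • (t⁻¹ • (g (y + t • v + t • w) - g (y + t • v)) -
      t⁻¹ • (g (y + t • w) - g y))) (𝓝[≠] 0) (𝓝 (d2 ((y, v), (w, 0)))) := by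
  intro N hN
  obtain ⟨K, hK, hKc, hKcl, hKN⟩ := exists_closed_convex hN
  have hUo : IsOpen ((U ×ˢ (univ : Set Y)) ×ˢ (univ : Set (Y × Y))) :=
    (hU.prod isOpen_univ).prod isOpen_univ
  have hmem : ((y, v), (w, (0 : Y))) ∈ (U ×ˢ (univ : Set Y)) ×ˢ (univ : Set (Y × Y)) :=
    ⟨⟨hy, mem_univ _⟩, mem_univ _⟩
  have hS := inter_mem (hUo.mem_nhds hmem) ((hc.continuousAt (hUo.mem_nhds hmem)) hK)
  have hT : Continuous (fun q : ℝ × ℝ => ((y + q.1 • v + q.2 • w, v), (w, (0 : Y)))) := by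
    fun_prop
  have hT0 := hT.tendsto (0, 0)
  simp only [zero_smul, add_zero] at hT0
  obtain ⟨δ, hδ, hδB⟩ := Metric.mem_nhds_iff.1 (hT0 hS)
  have key : ∀ σ τ : ℝ, |σ| < δ → |τ| < δ → y + σ • v + τ • w ∈ U ∧
      d2 ((y + σ • v + τ • w, v), (w, 0)) ∈ K := by
    intro σ τ h1 h2
    have h3 : (σ, τ) ∈ Metric.ball ((0 : ℝ), (0 : ℝ)) δ := by
      rw [← ball_prod_same]
      exact ⟨by simpa using h1, by simpa using h2⟩
    have h4 := hδB h3
    exact ⟨h4.1.1.1, h4.2⟩
  have h1 : ∀ᶠ t in 𝓝[≠] (0 : ℝ), |t| < δ := by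
    apply mem_nhdsWithin_of_mem_nhds
    filter_upwards [Metric.ball_mem_nhds (0 : ℝ) hδ] with t ht
    simpa using ht
  rw [mem_map]
  filter_upwards [h1, self_mem_nhdsWithin] with t ht2 ht3
  have ht0 : t ≠ 0 := ht3
  have hz : |(0 : ℝ)| < δ := by simpa using hδ
  have h5 := mvt_ne hKc hKcl
    (fun σ => t⁻¹ • (g (y + σ • v + t • w) - g (y + σ • v)))
    (fun σ => t⁻¹ • (dg (y + σ • v + t • w, v) - dg (y + σ • v, v))) ht0
    (fun σ hσ => by
      have a1 := hd _ (key σ t (hσ.trans_lt ht2) ht2).1 v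
      have a2 := hd _ (key σ 0 (hσ.trans_lt ht2) hz).1 v
      simp only [zero_smul, add_zero] at a2
      have a3 := (Tendsto.sub a1 a2).const_smul t⁻¹
      refine a3.congr fun h => ?_
      have e1 : y + (σ + h) • v + t • w = y + σ • v + t • w + h • v := by module
      have e2 : y + (σ + h) • v = y + σ • v + h • v := by module
      rw [e1, e2]
      module)
    (fun σ hσ => by
      have a4 := mvt_ne hKc hKcl (fun τ => dg (y + σ • v + τ • w, v))
        (fun τ => d2 ((y + σ • v + τ • w, v), (w, 0))) ht0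
        (fun τ hτ => by
          have a1 := hd2 (y + σ • v + τ • w, v)
            ⟨(key σ τ (hσ.trans_lt ht2) (hτ.trans_lt ht2)).1, mem_univ _⟩ (w, 0)
          refine Tendsto.congr (fun h => ?_) a1
          simp only [Prod.smul_mk, Prod.mk_add_mk, smul_zero, add_zero, add_smul, add_assoc])
        (fun τ hτ => (key σ τ (hσ.trans_lt ht2) (hτ.trans_lt ht2)).2)
      simpa using a4)
  apply hKN
  simpa using h5

theorem schwarz [T2Space F] {g : Y → F} {U : Set Y} (hU : IsOpen U) {dg : Y × Y → F}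
    (hd : ∀ y ∈ U, ∀ w, HasDirDeriv g y w (dg (y, w))) {d2 : (Y × Y) × (Y × Y) → F}
    (hd2 : ∀ q ∈ U ×ˢ (univ : Set Y), ∀ w, HasDirDeriv dg q w (d2 (q, w)))
    (hc : ContinuousOn d2 ((U ×ˢ univ) ×ˢ univ)) {y : Y} (hy : y ∈ U) (v w : Y) :
    d2 ((y, v), (w, 0)) = d2 ((y, w), (v, 0)) := by
  refine tendsto_nhds_unique (second_diff hU hd hd2 hc hy v w)
    ((second_diff hU hd hd2 hc hy w v).congr fun t => ?_)
  rw [add_right_comm y (t • w)]
  module

end

end Pool.Agent.H76Z
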