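import Mathlib

/-!
Calculus on locally convex spaces in the sense of Bastiani (Keller `C^k_c`), smooth manifolds
modelled on such spaces, and smoothness of maps and of a group multiplication, read in charts.
-/

set_option autoImplicit false

namespace Pool.Agent.H76Z

open Filter Topology

universe u v w x

/-- `y` is the directional derivative of `f` at the point `a` in the direction `v`. -/
def HasDirDeriv {E : Type u} {F : Type v} [AddCommGroup E] [Module ℝ E] [AddCommGroup F]
    [Module ℝ F] [TopologicalSpace F] (f : E → F) (a v : E) (y : F) : Prop :=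
  Tendsto (fun t : ℝ => t⁻¹ • (f (a + t • v) - f a)) (𝓝[≠] 0) (𝓝 y)

/-- `f` is `C^k` on the set `U` (always an open set below): `C^0` means continuous, and
`C^(k+1)` means continuous, with all directional derivatives `df (a, v)` at points `a` of `U`,
such that `df` is `C^k` on `U × E`. -/
def IsCk (F : Type v) [AddCommGroup F] [Module ℝ F] [TopologicalSpace F] :
    ℕ → ∀ (E : Type u) [AddCommGroup E] [Module ℝ E] [TopologicalSpace E],
      (E → F) → Set E → Prop
  | 0, _, _, _, _, f, U => ContinuousOn f U
  | k + 1, E, _, _, _, f, U => ContinuousOn f U ∧ ∃ df : E × E → F,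
      (∀ a ∈ U, ∀ v : E, HasDirDeriv f a v (df (a, v))) ∧
      IsCk F k (E × E) df (U ×ˢ (Set.univ : Set E))

/-- `f` is smooth on `U`: it is `C^k` on `U` for every `k`. -/
def IsSmooth {E : Type u} {F : Type v} [AddCommGroup E] [Module ℝ E] [TopologicalSpace E]
    [AddCommGroup F] [Module ℝ F] [TopologicalSpace F] (f : E → F) (U : Set E) : Prop :=
  ∀ k : ℕ, IsCk F k E f U

/-- A smooth atlas on the space `M` modelled on `E`: homeomorphisms from open subsets of `M`
onto open subsets of `E`, whose sources cover `M`, with smooth transition maps. -/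
structure SmoothAtlas (E : Type u) [AddCommGroup E] [Module ℝ E] [TopologicalSpace E]
    (M : Type v) [TopologicalSpace M] where
  charts : Set (OpenPartialHomeomorph M E)
  cover : ∀ g : M, ∃ e ∈ charts, g ∈ e.source
  transition : ∀ e₁ ∈ charts, ∀ e₂ ∈ charts,
    IsSmooth (fun a : E => e₂ (e₁.symm a)) {a | a ∈ e₁.target ∧ e₁.symm a ∈ e₂.source}

/-- A map between manifolds is smooth if it is continuous and smooth in all pairs of charts. -/
def SmoothMap {E : Type u} {F : Type v} [AddCommGroup E] [Module ℝ E] [TopologicalSpace E]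
    [AddCommGroup F] [Module ℝ F] [TopologicalSpace F]
    {M : Type w} {N : Type x} [TopologicalSpace M] [TopologicalSpace N]
    (A : SmoothAtlas E M) (B : SmoothAtlas F N) (f : M → N) : Prop :=
  Continuous f ∧ ∀ e ∈ A.charts, ∀ e' ∈ B.charts,
    IsSmooth (fun a : E => e' (f (e.symm a))) {a | a ∈ e.target ∧ f (e.symm a) ∈ e'.source}

/-- The multiplication `G × G → G` is smooth: it is continuous and smooth in all product
charts of `G × G` and all charts of `G`. -/
def MulSmooth {E : Type u} [AddCommGroup E] [Module ℝ E] [TopologicalSpace E]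
    {G : Type v} [Mul G] [TopologicalSpace G] (A : SmoothAtlas E G) : Prop :=
  Continuous (fun p : G × G => p.1 * p.2) ∧
    ∀ e₁ ∈ A.charts, ∀ e₂ ∈ A.charts, ∀ e₃ ∈ A.charts,
      IsSmooth (fun p : E × E => e₃ (e₁.symm p.1 * e₂.symm p.2))
        {p | p.1 ∈ e₁.target ∧ p.2 ∈ e₂.target ∧ e₁.symm p.1 * e₂.symm p.2 ∈ e₃.source}

end Pool.Agent.H76Z
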