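import Pool.Agent.H76Z.Swindle
import Pool.Agent.H76Z.Calc
import Pool.Agent.H76Z.LieDefs

set_option autoImplicit false
set_option linter.unusedSectionVars false
set_option linter.deprecated false
set_option maxHeartbeats 400000

namespace Pool.Agent.H76Z

open Filter Topology Set Vol

noncomputable section

theorem hasDirDeriv_contDiff {Z Y : Type} [NormedAddCommGroup Z] [NormedSpace ℝ Z]
    [NormedAddCommGroup Y] [NormedSpace ℝ Y] {f : Y → Z} (hf : ContDiff ℝ ⊤ f) (a v : Y) :
    HasDirDeriv f a v (fderiv ℝ f a v) := by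
  have h1 : HasDerivAt (fun t : ℝ => a + t • v) v 0 := by
    simpa using ((hasDerivAt_id (0 : ℝ)).smul_const v).const_add a
  have h2 : HasFDerivAt f (fderiv ℝ f a) (a + (0 : ℝ) • v) := by
    rw [zero_smul, add_zero]
    exact ((hf.differentiable (by simp)) a).hasFDerivAt
  have h3 := h2.comp_hasDerivAt (0 : ℝ) h1
  rw [hasDerivAt_iff_tendsto_slope_zero] at h3
  unfold HasDirDeriv
  simpa using h3

theorem isCk_contDiff {Z : Type} [NormedAddCommGroup Z] [NormedSpace ℝ Z] (k : ℕ) :
    ∀ {Y : Type} [NormedAddCommGroup Y] [NormedSpace ℝ Y] {f : Y → Z}, ContDiff ℝ ⊤ f →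
      IsCk Z k Y f univ := by
  induction k with
  | zero => intro Y _ _ f hf; exact hf.continuous.continuousOn
  | succ k ih =>
    intro Y _ _ f hf
    refine ⟨hf.continuous.continuousOn, fun q => fderiv ℝ f q.1 q.2,
      fun a _ v => hasDirDeriv_contDiff hf a v, ?_⟩
    have h1 : ContDiff ℝ ⊤ (fun q : Y × Y => fderiv ℝ f q.1 q.2) :=
      ((hf.fderiv_right (m := ⊤) le_top).comp contDiff_fst).clm_apply contDiff_snd
    exact (ih h1).mono (subset_univ _)

/-- the atlas given by one global chart -/
def globalAtlas {E : Type} [AddCommGroup E] [Module ℝ E] [TopologicalSpace E]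
    [IsTopologicalAddGroup E] [ContinuousSMul ℝ E] {M : Type} [TopologicalSpace M]
    (c : M ≃ₜ E) : SmoothAtlas E M where
  charts := {c.toOpenPartialHomeomorph}
  cover g := ⟨_, rfl, mem_univ g⟩
  transition := by
    rintro _ rfl _ rfl k
    have h := isCk_clm k (ContinuousLinearMap.id ℝ E) (univ : Set E)
    refine (h.congr isOpen_univ (g := fun a => c (c.symm a)) fun a _ => ?_).mono (subset_univ _)
    simp

theorem smoothMap_global {E : Type} [AddCommGroup E] [Module ℝ E] [TopologicalSpace E]
    [IsTopologicalAddGroup E] [ContinuousSMul ℝ E] {M : Type} [TopologicalSpace M]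
    {F : Type} [AddCommGroup F] [Module ℝ F] [TopologicalSpace F]
    [IsTopologicalAddGroup F] [ContinuousSMul ℝ F] {N : Type} [TopologicalSpace N]
    (c : M ≃ₜ E) (c' : N ≃ₜ F) (f : M → N) (h : IsSmooth (fun a => c' (f (c.symm a))) univ) :
    SmoothMap (globalAtlas c) (globalAtlas c') f := by
  refine ⟨?_, ?_⟩
  · have h1 : Continuous (fun a => c' (f (c.symm a))) := continuousOn_univ.1 (h 0)
    have h2 := c'.symm.continuous.comp (h1.comp c.continuous)
    convert h2 using 1
    funext a
    simp
  · rintro _ rfl _ rfl k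
    exact (h k).mono (subset_univ _)

theorem smoothTo_global {V : Type} [AddCommGroup V] [Module ℝ V] [TopologicalSpace V]
    {F : Type} [AddCommGroup F] [Module ℝ F] [TopologicalSpace F]
    [IsTopologicalAddGroup F] [ContinuousSMul ℝ F] {N : Type} [TopologicalSpace N]
    (c' : N ≃ₜ F) (f : V → N) (h : IsSmooth (fun a => c' (f a)) univ) :
    SmoothTo (globalAtlas c') f := by
  refine ⟨?_, ?_⟩
  · have h1 : Continuous (fun a => c' (f a)) := continuousOn_univ.1 (h 0)
    have h2 := c'.symm.continuous.comp h1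
    convert h2 using 1
    funext a
    simp
  · rintro _ rfl k
    exact (h k).mono (subset_univ _)

theorem mulSmooth_global {E : Type} [AddCommGroup E] [Module ℝ E] [TopologicalSpace E]
    [IsTopologicalAddGroup E] [ContinuousSMul ℝ E] {G : Type} [Mul G] [TopologicalSpace G]
    (c : G ≃ₜ E) (h : IsSmooth (fun p : E × E => c (c.symm p.1 * c.symm p.2)) univ) :
    MulSmooth (globalAtlas c) := by
  refine ⟨?_, ?_⟩
  · have h1 : Continuous (fun p : E × E => c (c.symm p.1 * c.symm p.2)) :=
      continuousOn_univ.1 (h 0)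
    have h2 := c.symm.continuous.comp (h1.comp (c.continuous.prodMap c.continuous))
    convert h2 using 1
    funext a
    simp
  · rintro _ rfl _ rfl _ rfl k
    exact (h k).mono (subset_univ _)

/-- the additive group of a topological vector space -/
def addChart (E : Type) [TopologicalSpace E] : Multiplicative E ≃ₜ E where
  toEquiv := Multiplicative.toAdd
  continuous_toFun := continuous_toAdd
  continuous_invFun := continuous_ofAdd

theorem add_lie (E : Type) [AddCommGroup E] [Module ℝ E] [TopologicalSpace E]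
    [IsTopologicalAddGroup E] [ContinuousSMul ℝ E] : IsLieGroup (globalAtlas (addChart E)) :=
  ⟨mulSmooth_global _ fun k =>
      isCk_clm k (ContinuousLinearMap.fst ℝ E E + ContinuousLinearMap.snd ℝ E E) _,
    smoothMap_global _ _ _ fun k => isCk_clm k (-ContinuousLinearMap.id ℝ E) _⟩

theorem add_locExp (E : Type) [AddCommGroup E] [Module ℝ E] [TopologicalSpace E]
    [IsTopologicalAddGroup E] [ContinuousSMul ℝ E] :
    LocallyExponential (globalAtlas (addChart E)) := by
  refine ⟨_, rfl, mem_univ _, fun a t => Multiplicative.ofAdd (t • a), fun a => ⟨?_, ?_, ?_⟩, ?_,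
    (addChart E).symm.toOpenPartialHomeomorph, mem_univ _, ?_, ?_⟩
  · intro s t
    simp only [add_smul, ofAdd_add]
  · exact smoothTo_global _ _ fun k => isCk_clm k (ContinuousLinearMap.toSpanSingleton ℝ a) _
  · unfold HasDirDeriv
    refine tendsto_const_nhds.congr' ?_
    filter_upwards [self_mem_nhdsWithin] with t ht
    have ht0 : t ≠ 0 := ht
    change a = t⁻¹ • ((0 + t • (1 : ℝ)) • a - (0 : ℝ) • a)
    simp [smul_smul, ht0]
  · exact smoothTo_global _ _ fun k => isCk_clm k ((1 : ℝ) • ContinuousLinearMap.id ℝ E) _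
  · intro a _
    simp only [one_smul]
    rfl
  · rintro _ rfl k
    exact isCk_clm k (ContinuousLinearMap.id ℝ E) _

/-- the model space -/
abbrev Mod : Type := ℕ × ℕ → Pa Al

/-- the group -/
def Grp : Type := data.Hs

instance : Group Grp := inferInstanceAs (Group data.Hs)

/-- the chart as a bijection -/
def chartEquiv : Grp ≃ Mod := data.Φ

instance : TopologicalSpace Grp := TopologicalSpace.induced chartEquiv inferInstance

/-- the chart -/
def chart : Grp ≃ₜ Mod := chartEquiv.toHomeomorphOfIsInducing ⟨rfl⟩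

instance : T2Space Grp := chart.symm.t2Space

/-- two consecutive coordinates -/
def two (i : ℕ × ℕ) : Mod →L[ℝ] Pa Al × Pa Al :=
  (ContinuousLinearMap.proj i).prod (ContinuousLinearMap.proj (i.1, i.2 + 1))

theorem grp_lie : IsLieGroup (globalAtlas chart) := by
  refine ⟨mulSmooth_global _ fun k => IsCk.pi fun i => ?_,
    smoothMap_global _ _ _ fun k => IsCk.pi fun i => ?_⟩
  · have h := (isCk_contDiff k data.μ_smooth).comp_clm ((two i).prodMap (two i))
    have h2 : (fun a : Mod × Mod => chart (chart.symm a.1 * chart.symm a.2) i) =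
        fun a => data.μ ((two i).prodMap (two i) a) := funext fun a => data.Φ_mul a.1 a.2 i
    rw [h2]
    exact h
  · have h := (isCk_contDiff k data.ι_smooth).comp_clm (two i)
    have h2 : (fun a : Mod => chart (chart.symm a)⁻¹ i) = fun a => data.ι (two i a) :=
      funext fun a => data.Φ_inv a i
    rw [h2]
    exact h

/-- the morphism -/
def hom : Multiplicative (ℕ → ℝ) →* Grp := data.φ

theorem chart_hom (t : ℕ → ℝ) (i : ℕ × ℕ) :
    chart (hom ((addChart (ℕ → ℝ)).symm t)) i = data.ν (t i.1) := data.Φ_φ t i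

theorem hom_smooth : SmoothMap (globalAtlas (addChart (ℕ → ℝ))) (globalAtlas chart) hom := by
  refine smoothMap_global _ _ _ fun k => IsCk.pi fun i => ?_
  have h := (isCk_contDiff k data.ν_smooth).comp_clm
    (ContinuousLinearMap.proj i.1 : (ℕ → ℝ) →L[ℝ] ℝ)
  simp only [chart_hom]
  exact h

theorem hom_inj :
    InjectiveDerivative (globalAtlas (addChart (ℕ → ℝ))) (globalAtlas chart) hom := by
  rintro _ rfl - _ rfl - v w y hv hw
  have key : ∀ (u : ℕ → ℝ), HasDirDeriv (fun a : ℕ → ℝ =>
      chart (hom ((addChart (ℕ → ℝ)).symm a))) 0 u y → ∀ m, y (m, 0) = u m • deriv data.ν 0 := by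
    intro u hu m
    have h1 := tendsto_pi_nhds.1 hu (m, 0)
    have h2 := hasDirDeriv_contDiff data.ν_smooth 0 (u m)
    unfold HasDirDeriv at h2
    have h3 : fderiv ℝ data.ν 0 (u m) = u m • deriv data.ν 0 := by
      rw [← fderiv_apply_one_eq_deriv, ← map_smul, smul_eq_mul, mul_one]
    rw [h3] at h2
    refine tendsto_nhds_unique h1 (h2.congr fun t => ?_)
    simp only [Pi.smul_apply, Pi.sub_apply, chart_hom, Pi.add_apply, Pi.zero_apply]
  funext m
  have h4 := (key v hv m).symm.trans (key w hw m)
  rw [← sub_eq_zero, ← sub_smul] at h4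
  exact sub_eq_zero.1 ((smul_eq_zero.1 h4).resolve_right data.ν_deriv)

theorem hom_ker : ¬ DiscreteTopology hom.ker := by
  intro h
  let x : ℕ → hom.ker := fun m => ⟨Multiplicative.ofAdd (Pi.single m 1), data.φ_single m⟩
  have h1 : Tendsto x atTop (𝓝 1) := by
    rw [tendsto_subtype_rng]
    change Tendsto (fun m : ℕ => (Pi.single m 1 : ℕ → ℝ)) atTop (𝓝 0)
    refine tendsto_pi_nhds.2 fun n => tendsto_const_nhds.congr' ?_
    filter_upwards [eventually_gt_atTop n] with m hm
    rw [Pi.single_eq_of_ne hm.ne]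
    rfl
  rw [nhds_discrete, tendsto_pure] at h1
  obtain ⟨m, hm⟩ := h1.exists
  have h2 : (Pi.single m 1 : ℕ → ℝ) = 0 := congrArg (fun z : hom.ker => z.1.toAdd) hm
  have h3 := congrFun h2 m
  simp at h3

end

end Pool.Agent.H76Z
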