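import Pool.Agent.H76Z.Calc2
import Pool.Agent.H76Z.SmallCircles

set_option autoImplicit false
set_option linter.unusedSectionVars false
set_option linter.deprecated false
set_option maxHeartbeats 800000

namespace Pool.Agent.H76Z

open Filter Topology Set

universe u v

theorem HasDirDeriv.smul_dir {E : Type u} [AddCommGroup E] [Module ℝ E]
    {F : Type v} [AddCommGroup F] [Module ℝ F] [TopologicalSpace F] [ContinuousSMul ℝ F]
    {f : E → F} {a v : E} {y : F} (h : HasDirDeriv f a v y) (c : ℝ) :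
    HasDirDeriv f a (c • v) (c • y) := by
  unfold HasDirDeriv at h ⊢
  by_cases hc : c = 0
  · subst hc
    simpa using tendsto_const_nhds
  have h1 : Tendsto (fun t : ℝ => t * c) (𝓝[≠] 0) (𝓝[≠] 0) := by
    refine tendsto_nhdsWithin_iff.2 ⟨?_, ?_⟩
    · have : Continuous (fun t : ℝ => t * c) := by fun_prop
      simpa using (this.tendsto 0).mono_left nhdsWithin_le_nhds
    · filter_upwards [self_mem_nhdsWithin] with t ht
      exact mul_ne_zero ht hc
  refine ((h.comp h1).const_smul c).congr' ?_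
  filter_upwards [self_mem_nhdsWithin] with t ht
  have ht0 : t ≠ 0 := ht
  simp only [Function.comp, smul_smul]
  congr 1
  field_simp

/-- second order estimate for a real function on a normed space -/
theorem taylor_two {H : Type u} [NormedAddCommGroup H] [NormedSpace ℝ H] {h : H → ℝ} {U : Set H}
    (hU : IsOpen U) (h0 : (0 : H) ∈ U) {dh : H × H → ℝ}
    (hd : ∀ y ∈ U, ∀ w, HasDirDeriv h y w (dh (y, w))) {d2 : (H × H) × (H × H) → ℝ}
    (hd2 : ∀ q ∈ U ×ˢ (univ : Set H), ∀ w, HasDirDeriv dh q w (d2 (q, w)))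
    (hc : ContinuousOn d2 ((U ×ˢ univ) ×ˢ univ)) :
    ∃ δ : ℝ, 0 < δ ∧ ∀ x : H, ‖x‖ < δ →
      x ∈ U ∧ |h x - h 0 - dh (0, x)| ≤ (‖x‖ / δ) ^ 2 := by
  have hUo : IsOpen ((U ×ˢ (univ : Set H)) ×ˢ (univ : Set (H × H))) :=
    (hU.prod isOpen_univ).prod isOpen_univ
  have hmem : (0 : (H × H) × (H × H)) ∈ (U ×ˢ (univ : Set H)) ×ˢ (univ : Set (H × H)) :=
    ⟨⟨h0, mem_univ _⟩, mem_univ _⟩
  have hz : d2 0 = 0 := by
    have a1 := hd2 0 ⟨h0, mem_univ _⟩ 0
    have a2 : HasDirDeriv dh 0 0 0 := by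
      unfold HasDirDeriv
      simpa using tendsto_const_nhds
    exact a1.unique a2
  have hK : Icc (-1 : ℝ) 1 ∈ 𝓝 (d2 0) := by
    rw [hz]; exact Icc_mem_nhds (by norm_num) (by norm_num)
  have hS := inter_mem (hUo.mem_nhds hmem) ((hc.continuousAt (hUo.mem_nhds hmem)) hK)
  obtain ⟨δ, hδ, hδB⟩ := Metric.nhds_basis_closedBall.mem_iff.1 hS
  have key : ∀ y u : H, ‖y‖ ≤ δ → ‖u‖ ≤ δ → y ∈ U ∧ d2 ((y, u), (u, 0)) ∈ Icc (-1 : ℝ) 1 := by
    intro y u hy hu
    have a1 : ((y, u), (u, (0 : H))) ∈ Metric.closedBall (0 : (H × H) × (H × H)) δ := by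
      simp [Prod.norm_def, hy, hu, hδ.le]
    exact ⟨(hδB a1).1.1.1, (hδB a1).2⟩
  refine ⟨δ, hδ, fun x hx => ⟨(key x 0 hx.le (by simpa using hδ.le)).1, ?_⟩⟩
  by_cases hx0 : x = 0
  · subst hx0
    have a2 : HasDirDeriv h 0 0 0 := by
      unfold HasDirDeriv
      simpa using tendsto_const_nhds
    rw [(hd 0 h0 0).unique a2]
    simp
  have hn : 0 < ‖x‖ := norm_pos_iff.2 hx0
  set t : ℝ := ‖x‖ / δ with ht
  have htp : 0 < t := by positivity
  have ht1 : t < 1 := (div_lt_one hδ).2 hx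
  set u : H := t⁻¹ • x with hu
  have hun : ‖u‖ = δ := by
    rw [hu, norm_smul, norm_inv, Real.norm_of_nonneg htp.le, ht]
    field_simp
  have hxu : t • u = x := by rw [hu, smul_smul, mul_inv_cancel₀ htp.ne', one_smul]
  have hsu : ∀ s : ℝ, |s| ≤ |t| → ‖s • u‖ ≤ δ := by
    intro s hs
    rw [norm_smul, hun, Real.norm_eq_abs]
    rw [abs_of_pos htp] at hs
    exact mul_le_of_le_one_left hδ.le (hs.trans ht1.le)
  have a3 : ∀ s : ℝ, |s| ≤ |t| → dh (s • u, u) ∈ Icc (dh (0, u) - t) (dh (0, u) + t) := by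
    intro s hs
    by_cases hs0 : s = 0
    · subst hs0
      rw [zero_smul]
      exact ⟨by linarith, by linarith⟩
    have b1 := mvt_ne (convex_Icc (-1 : ℝ) 1) isClosed_Icc (fun τ => dh (τ • u, u))
      (fun τ => d2 ((τ • u, u), (u, 0))) hs0
      (fun τ hτ => by
        have c1 := hd2 (τ • u, u) ⟨(key _ u (hsu τ (hτ.trans hs)) hun.le).1, mem_univ _⟩ (u, 0)
        refine Tendsto.congr (fun k => ?_) c1
        simp only [Prod.smul_mk, Prod.mk_add_mk, smul_zero, add_zero, add_smul])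
      (fun τ hτ => (key _ u (hsu τ (hτ.trans hs)) hun.le).2)
    rw [zero_smul, smul_eq_mul, mem_Icc, ← abs_le, abs_mul, abs_inv,
      inv_mul_le_iff₀ (abs_pos.2 hs0), mul_one] at b1
    rw [abs_of_pos htp] at hs
    have b2 := abs_le.1 (b1.trans hs)
    exact ⟨by linarith [b2.1], by linarith [b2.2]⟩
  have a4 := mvt_ne (convex_Icc _ _) isClosed_Icc (fun s => h (s • u)) (fun s => dh (s • u, u))
    htp.ne' (fun s hs => by
      have c1 := hd _ (key _ u (hsu s hs) hun.le).1 u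
      refine Tendsto.congr (fun k => ?_) c1
      simp only [add_smul]) a3
  rw [hxu, zero_smul, smul_eq_mul] at a4
  have a5 : dh (0, x) = t * dh (0, u) := by
    have := (hd 0 h0 u).smul_dir t
    rw [hxu] at this
    exact (hd 0 h0 x).unique this
  have a6 : h x - h 0 - dh (0, x) = t * (t⁻¹ * (h x - h 0) - dh (0, u)) := by
    rw [a5]; field_simp
  rw [a6, abs_mul, abs_of_pos htp, pow_two]
  refine mul_le_mul_of_nonneg_left (abs_le.2 ⟨?_, ?_⟩) htp.le
  · linarith [a4.1]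
  · linarith [a4.2]

/-- A subgroup containing enough Lipschitz curves determines smooth homomorphisms. -/
theorem epi_of_curves {H : Type} [NormedAddCommGroup H] [NormedSpace ℝ H] (L : AddSubgroup H)
    (hL : ∀ T : H → ℝ, Continuous T → (∀ a b, T (a + b) = T a + T b) →
      (∀ (c : ℝ) a, T (c • a) = c * T a) →
      (∀ c : ℝ → H, (∀ t, c t ∈ L) → (∀ s t, ‖c s - c t‖ ≤ |s - t|) → ∀ s t, T (c s) = T (c t)) →
      ∀ a, T a = 0)
    {F : Type u} [AddCommGroup F] [Module ℝ F] [TopologicalSpace F]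
    [IsTopologicalAddGroup F] [ContinuousSMul ℝ F] [LocallyConvexSpace ℝ F] [T2Space F]
    {K : Type v} [Group K] [TopologicalSpace K] (C : SmoothAtlas F K) (hC : IsLieGroup C)
    (g₁ g₂ : Multiplicative H →* K) (s₁ : SmoothMap (globalAtlas (addChart H)) C g₁)
    (s₂ : SmoothMap (globalAtlas (addChart H)) C g₂)
    (hagree : ∀ l ∈ L, g₁ (Multiplicative.ofAdd l) = g₂ (Multiplicative.ofAdd l)) : g₁ = g₂ := by
  obtain ⟨e, he, h1⟩ := C.cover 1
  set o : F := e 1 with ho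
  have hso : e.symm o = 1 := e.left_inv h1
  have hot : o ∈ e.target := e.map_source h1
  set m : F × F → F := fun p => e (e.symm p.1 * e.symm p.2) with hm
  set Dm : Set (F × F) := {p | p.1 ∈ e.target ∧ p.2 ∈ e.target ∧
    e.symm p.1 * e.symm p.2 ∈ e.source} with hDm
  have hDmo : IsOpen Dm := isOpen_mulDom hC.1.1 e e e
  have hms : IsSmooth m Dm := hC.1.2 e he e he e he
  set γ₁ : H → K := fun x => g₁ (Multiplicative.ofAdd x) with hγ₁
  set γ₂ : H → K := fun x => g₂ (Multiplicative.ofAdd (-x)) with hγ₂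
  have hγ₁c : Continuous γ₁ := s₁.1.comp continuous_ofAdd
  have hγ₂c : Continuous γ₂ := s₂.1.comp (continuous_ofAdd.comp continuous_neg)
  have hγ₁0 : γ₁ 0 = 1 := map_one g₁
  have hγ₂0 : γ₂ 0 = 1 := by simp [hγ₂]
  have hγ₁a : ∀ x y, γ₁ (x + y) = γ₁ y * γ₁ x := fun x y => by
    simp only [hγ₁]; rw [add_comm, ofAdd_add, map_mul]
  have hγ₂a : ∀ x y, γ₂ (x + y) = γ₂ x * γ₂ y := fun x y => by
    simp only [hγ₂]; rw [neg_add, ofAdd_add, map_mul]
  have hmulc := hC.1.1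
  have hγc : Continuous (fun x => γ₂ x * γ₁ x) :=
    hmulc.comp (f := fun x => (γ₂ x, γ₁ x)) (hγ₂c.prodMk hγ₁c)
  set U : Set H := {x | γ₂ x ∈ e.source ∧ γ₁ x ∈ e.source ∧ γ₂ x * γ₁ x ∈ e.source} with hU
  have hUo : IsOpen U := (e.open_source.preimage hγ₂c).inter
    ((e.open_source.preimage hγ₁c).inter (e.open_source.preimage hγc))
  have hU0 : (0 : H) ∈ U := by
    simp only [hU, mem_setOf_eq, hγ₁0, hγ₂0, mul_one, h1, and_self]
  set Θ : H → F := fun x => e (γ₂ x * γ₁ x) with hΘ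
  have hψ₁ : ∀ k, IsCk F k H (fun x => e (γ₁ x)) U := fun k =>
    (s₁.2 _ rfl e he k).mono fun x hx => ⟨mem_univ _, hx.2.1⟩
  have hψ₂ : ∀ k, IsCk F k H (fun x => e (γ₂ x)) U := fun k =>
    ((s₂.2 _ rfl e he k).comp_clm (-ContinuousLinearMap.id ℝ H)).mono
      fun x hx => ⟨mem_univ _, hx.1⟩
  have hΘs : ∀ k, IsCk F k H Θ U := fun k => by
    refine (IsCk.comp hDmo (hms k) ((hψ₂ k).prodMk (hψ₁ k)) fun x hx => ?_).congr hUo
      fun x hx => ?_
    · refine ⟨e.map_source hx.1, e.map_source hx.2.1, ?_⟩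
      simp only [e.left_inv hx.1, e.left_inv hx.2.1]
      exact hx.2.2
    · simp only [hΘ, hm, e.left_inv hx.1, e.left_inv hx.2.1]
  have hΘ0 : Θ 0 = o := by simp only [hΘ, hγ₁0, hγ₂0, mul_one, ← ho]
  have hΘL : ∀ l ∈ L, Θ l = o := by
    intro l hl
    simp only [hΘ, hγ₁, hγ₂, hagree l hl, ← map_mul, ← ofAdd_add, neg_add_cancel, ofAdd_zero,
      map_one, ← ho]
  obtain ⟨-, dΘ, hdΘ, hdΘc, d2Θ, hd2Θ, hd2Θc⟩ := hΘs 2
  -- the derivative at zero vanishes
  have hder : ∀ a, dΘ (0, a) = 0 := by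
    intro a
    by_contra hne
    obtain ⟨f, hf⟩ := geometric_hahn_banach_point_point hne
    rw [map_zero] at hf
    obtain ⟨δ, hδ, hest⟩ := taylor_two (h := fun x => f (Θ x)) hUo hU0
      (dh := fun q => f (dΘ q)) (fun y hy w => (hdΘ y hy w).clm f)
      (d2 := fun q => f (d2Θ q)) (fun q hq w => (hd2Θ q hq w).clm f)
      (f.continuous.comp_continuousOn hd2Θc)
    have hadd : ∀ a b, f (dΘ (0, a + b)) = f (dΘ (0, a)) + f (dΘ (0, b)) := fun a b => by
      rw [deriv_add_dir hUo hdΘ hdΘc hU0, map_add]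
    have hsm : ∀ (c : ℝ) a, f (dΘ (0, c • a)) = c * f (dΘ (0, a)) := fun c a => by
      rw [(hdΘ 0 hU0 (c • a)).unique ((hdΘ 0 hU0 a).smul_dir c), map_smul, smul_eq_mul]
    refine hf.ne (hL (fun a => f (dΘ (0, a))) ?_ hadd hsm ?_ a)
    · refine f.continuous.comp (continuousOn_univ.1 ?_)
      exact hdΘc.comp (f := fun a : H => ((0 : H), a)) (by fun_prop)
        fun a _ => ⟨hU0, mem_univ _⟩
    · intro c hcL hcl
      have b1 : ∀ t, HasDerivAt (fun t => f (dΘ (0, c t))) 0 t := by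
        intro t
        rw [hasDerivAt_iff_isLittleO_nhds_zero]
        have b2 : (fun k : ℝ => f (dΘ (0, c (t + k))) - f (dΘ (0, c t)) - k • (0 : ℝ))
            =O[𝓝 0] (fun k : ℝ => k ^ 2) := by
          refine Asymptotics.IsBigO.of_bound (δ⁻¹ ^ 2) ?_
          filter_upwards [Metric.ball_mem_nhds (0 : ℝ) hδ] with k hk
          have hk' : |k| < δ := by simpa using hk
          have b3 : ‖c (t + k) - c t‖ ≤ |k| := by simpa using hcl (t + k) t
          have b4 := (hest _ (b3.trans_lt hk')).2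
          rw [hΘL _ (L.sub_mem (hcL _) (hcL _)), hΘ0, sub_self, zero_sub, abs_neg] at b4
          have b5 := hadd (c (t + k) - c t) (c t)
          rw [sub_add_cancel] at b5
          rw [b5, smul_zero, sub_zero, add_sub_cancel_right, Real.norm_eq_abs, Real.norm_eq_abs,
            abs_pow, ← mul_pow]
          refine b4.trans (pow_le_pow_left₀ (by positivity) ?_ 2)
          rw [div_eq_inv_mul]
          exact mul_le_mul_of_nonneg_left b3 (by positivity)
        exact b2.trans_isLittleO (Asymptotics.isLittleO_pow_id (by norm_num))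
      exact is_const_of_deriv_eq_zero (fun t => (b1 t).differentiableAt) (fun t => (b1 t).deriv)
  obtain ⟨hmc, dm, hdm, hdm1⟩ := hms 1
  have hdmc : ContinuousOn dm (Dm ×ˢ univ) := hdm1
  have hdm0 : ∀ p ∈ Dm, dm (p, 0) = 0 := by
    intro p hp
    refine (hdm p hp 0).unique ?_
    unfold HasDirDeriv
    simpa using tendsto_const_nhds
  have hflat : ∀ x ∈ U, ∀ w, HasDirDeriv Θ x w 0 := by
    intro x hx w
    have a0 : HasDirDeriv Θ 0 w 0 := by
      have := hdΘ 0 hU0 w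
      rwa [hder] at this
    have a1 : (e (γ₂ x), Θ 0) ∈ Dm := by
      rw [hΘ0]
      refine ⟨e.map_source hx.1, hot, ?_⟩
      simp only [e.left_inv hx.1, hso, mul_one]
      exact hx.1
    have a2 := HasDirDeriv.chain hDmo hdm hdmc (f := fun y => (e (γ₂ x), Θ y)) a1
      ((hasDirDeriv_const (e (γ₂ x)) 0 w).prodMk a0)
    rw [Prod.mk_zero_zero, hdm0 _ a1] at a2
    have a3 : m (e (γ₂ x), Θ 0) = e (γ₂ x) := by
      simp only [hm, hΘ0, hso, mul_one, e.left_inv hx.1]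
    have a4 : (m (e (γ₂ x), Θ 0), e (γ₁ x)) ∈ Dm := by
      rw [a3]
      refine ⟨e.map_source hx.1, e.map_source hx.2.1, ?_⟩
      simp only [e.left_inv hx.1, e.left_inv hx.2.1]
      exact hx.2.2
    have a5 := HasDirDeriv.chain hDmo hdm hdmc (f := fun y => (m (e (γ₂ x), Θ y), e (γ₁ x))) a4
      (a2.prodMk (hasDirDeriv_const (e (γ₁ x)) 0 w))
    rw [Prod.mk_zero_zero, hdm0 _ a4] at a5
    have hl := tendsto_line (0 : H) w
    have hΘc : Tendsto (fun t : ℝ => (e (γ₂ x), Θ (0 + t • w))) (𝓝[≠] 0) (𝓝 (e (γ₂ x), Θ 0)) :=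
      tendsto_const_nhds.prodMk_nhds
        (((hΘs 0).continuousOn.continuousAt (hUo.mem_nhds hU0)).tendsto.comp hl)
    unfold HasDirDeriv at a5 ⊢
    refine a5.congr' ?_
    filter_upwards [hl (hUo.mem_nhds hU0), hΘc (hDmo.mem_nhds a1)] with t b1 b2
    have b3 : e.symm (Θ (0 + t • w)) = γ₂ (0 + t • w) * γ₁ (0 + t • w) := e.left_inv b1.2.2
    have b4 : γ₂ x * (γ₂ (0 + t • w) * γ₁ (0 + t • w)) ∈ e.source := by
      have := b2.2.2
      simpa only [e.left_inv hx.1, b3] using this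
    rw [a3]
    simp only [hm, e.left_inv hx.1, e.left_inv hx.2.1, b3, e.left_inv b4]
    simp only [hΘ, hγ₁a, hγ₂a, zero_add, mul_assoc]
  obtain ⟨ε, hε, hεB⟩ := Metric.nhds_basis_closedBall.mem_iff.1 (hUo.mem_nhds hU0)
  have hsmall : ∀ x : H, ‖x‖ ≤ ε → g₁ (Multiplicative.ofAdd x) = g₂ (Multiplicative.ofAdd x) := by
    intro x hx
    have a1 : ∀ s : ℝ, |s| ≤ |(1 : ℝ)| → s • x ∈ U := by
      intro s hs
      apply hεB
      rw [mem_closedBall_zero_iff, norm_smul, Real.norm_eq_abs]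
      rw [abs_one] at hs
      exact (mul_le_of_le_one_left (norm_nonneg _) hs).trans hx
    have a2 := mvt_ne (K := {(0 : F)}) (convex_singleton _) isClosed_singleton
      (fun s : ℝ => Θ (s • x)) (fun _ => 0) one_ne_zero
      (fun s hs => by
        refine Tendsto.congr (fun k => ?_) (hflat _ (a1 s hs) x)
        simp only [add_smul]) (fun _ _ => rfl)
    rw [inv_one, one_smul, one_smul, zero_smul, mem_singleton_iff, sub_eq_zero, hΘ0] at a2
    have a3 : x ∈ U := by simpa using a1 1 le_rfl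
    have a4 : γ₂ x * γ₁ x = 1 := e.injOn a3.2.2 h1 a2
    simp only [hγ₁, hγ₂, ofAdd_neg, map_inv] at a4
    exact (inv_mul_eq_one.1 a4).symm
  refine MonoidHom.ext fun y => ?_
  obtain ⟨n, hn⟩ := exists_nat_gt (‖y.toAdd‖ / ε)
  have hnp : (0 : ℝ) < n := lt_of_le_of_lt (by positivity) hn
  have a1 : y = Multiplicative.ofAdd ((n : ℝ)⁻¹ • y.toAdd) ^ n := by
    rw [← ofAdd_nsmul, ← Nat.cast_smul_eq_nsmul ℝ, smul_smul, mul_inv_cancel₀ hnp.ne', one_smul,
      ofAdd_toAdd]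
  rw [a1, map_pow, map_pow, hsmall]
  rw [norm_smul, norm_inv, Real.norm_of_nonneg hnp.le, inv_mul_le_iff₀ hnp]
  rw [div_lt_iff₀ hε] at hn
  exact hn.le

end Pool.Agent.H76Z
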