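import Pool.Agent.H76Z.Epi

set_option autoImplicit false
set_option linter.unusedSectionVars false
set_option linter.deprecated false
set_option maxHeartbeats 800000

namespace Pool.Agent.H76Z.EpiL

open Filter Topology Set MeasureTheory

universe u v

noncomputable section

/-- Lebesgue measure on the unit interval -/
def mu : Measure ℝ := volume.restrict (Icc 0 1)

instance : IsProbabilityMeasure mu := ⟨by simp [mu]⟩

/-- the Banach space -/
abbrev H1 : Type := Lp ℝ 1 mu

/-- the integer valued functions -/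
def LZ : AddSubgroup H1 where
  carrier := {f | ∀ᵐ x ∂mu, ∃ n : ℤ, f x = n}
  add_mem' := by
    intro f g hf hg
    filter_upwards [hf, hg, Lp.coeFn_add f g] with x h1 h2 h3
    obtain ⟨n, hn⟩ := h1
    obtain ⟨m, hm⟩ := h2
    exact ⟨n + m, by rw [h3, Pi.add_apply, hn, hm]; push_cast; rfl⟩
  zero_mem' := by
    filter_upwards [Lp.coeFn_zero ℝ 1 mu] with x h
    exact ⟨0, by rw [h]; simp⟩
  neg_mem' := by
    intro f hf
    filter_upwards [hf, Lp.coeFn_neg f] with x h1 h3
    obtain ⟨n, hn⟩ := h1
    exact ⟨-n, by rw [h3, Pi.neg_apply, hn]; push_cast; rfl⟩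

/-- indicator functions -/
def ind {s : Set ℝ} (hs : MeasurableSet s) (c : ℝ) : H1 :=
  indicatorConstLp 1 hs (measure_ne_top mu s) c

theorem ind_mem {s : Set ℝ} (hs : MeasurableSet s) : ind hs 1 ∈ LZ := by
  filter_upwards [indicatorConstLp_coeFn (p := 1) (hs := hs) (hμs := measure_ne_top mu s)
    (c := (1 : ℝ))] with x hx
  by_cases h : x ∈ s
  · exact ⟨1, by rw [ind, hx, indicator_of_mem h]; simp⟩
  · exact ⟨0, by rw [ind, hx, indicator_of_notMem h]; simp⟩

theorem ind_norm {s : Set ℝ} (hs : MeasurableSet s) : ‖ind hs 1‖ = mu.real s := by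
  rw [ind, norm_indicatorConstLp one_ne_zero ENNReal.one_ne_top]
  simp

theorem ind_smul {s : Set ℝ} (hs : MeasurableSet s) (c : ℝ) : ind hs c = c • ind hs 1 := by
  refine Lp.ext ?_
  filter_upwards [indicatorConstLp_coeFn (p := 1) (hs := hs) (hμs := measure_ne_top mu s)
    (c := (1 : ℝ)), indicatorConstLp_coeFn (p := 1) (hs := hs) (hμs := measure_ne_top mu s)
    (c := c), Lp.coeFn_smul c (ind hs 1)] with x h1 h2 h3
  rw [h3, Pi.smul_apply, ind, ind, h1, h2]
  by_cases h : x ∈ s <;> simp [h]

theorem ind_split {s t r : Set ℝ} (hs : MeasurableSet s) (ht : MeasurableSet t)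
    (hr : MeasurableSet r) (hd : Disjoint t r) (h : s = t ∪ r) :
    ind hs 1 = ind ht 1 + ind hr 1 := by
  subst h
  exact indicatorConstLp_disjoint_union ht hr _ _ hd 1

theorem mu_le (s : Set ℝ) {t : Set ℝ} (h : s ∩ Icc 0 1 ⊆ t) (hs : MeasurableSet s)
    (ht : volume t ≠ ⊤) : mu.real s ≤ volume.real t := by
  rw [mu, measureReal_restrict_apply hs]
  exact measureReal_mono h ht

theorem total (T : H1 → ℝ) (hc : Continuous T) (ha : ∀ a b, T (a + b) = T a + T b)
    (hs : ∀ (c : ℝ) a, T (c • a) = c * T a)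
    (hcur : ∀ c : ℝ → H1, (∀ t, c t ∈ LZ) → (∀ s t, ‖c s - c t‖ ≤ |s - t|) →
      ∀ s t, T (c s) = T (c t)) : ∀ a, T a = 0 := by
  have h0 : T 0 = 0 := by simpa using hs 0 0
  refine Lp.induction ENNReal.one_ne_top (fun a => T a = 0) ?_ ?_
    (isClosed_eq hc continuous_const)
  · intro c A hA _
    rw [Lp.simpleFunc.coe_indicatorConst]
    change T (ind hA c) = 0
    have hle : ∀ s t : ℝ, t ≤ s → ‖ind (hA.inter (measurableSet_Iio (a := s))) 1 -
        ind (hA.inter (measurableSet_Iio (a := t))) 1‖ ≤ s - t := by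
      intro s t hts
      rw [ind_split (hA.inter (measurableSet_Iio (a := s))) (hA.inter (measurableSet_Iio (a := t)))
        (hA.inter (measurableSet_Ico (a := t) (b := s)))
        (by
          rw [Set.disjoint_left]
          intro x h1 h2
          exact absurd h2.2.1 (not_le.2 h1.2))
        (by rw [← inter_union_distrib_left, Iio_union_Ico_eq_Iio hts]),
        add_sub_cancel_left, ind_norm]
      refine (mu_le _ (t := Ico t s) (fun x hx => hx.1.2)
        (hA.inter measurableSet_Ico) (by simp)).trans ?_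
      simp [Real.volume_real_Ico, hts]
    have h1 := hcur (fun t => ind (hA.inter (measurableSet_Iio (a := t))) 1)
      (fun t => ind_mem _) (fun s t => by
        rcases le_total t s with h | h
        · exact (hle s t h).trans (le_abs_self _)
        · rw [norm_sub_rev, abs_sub_comm]
          exact (hle t s h).trans (le_abs_self _)) 2 0
    have h2 : ind (hA.inter (measurableSet_Iio (a := (0 : ℝ)))) 1 = 0 := by
      rw [← norm_le_zero_iff, ind_norm]
      refine (mu_le _ (t := ∅) (fun x hx => absurd hx.2.1 (not_le.2 hx.1.2))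
        (hA.inter measurableSet_Iio) (by simp)).trans (by simp)
    have h3 : ind (hA.inter (measurableSet_Ici (a := (2 : ℝ)))) 1 = 0 := by
      rw [← norm_le_zero_iff, ind_norm]
      refine (mu_le _ (t := ∅) (fun x hx => ?_) (hA.inter measurableSet_Ici) (by simp)).trans
        (by simp)
      have a1 : (2 : ℝ) ≤ x := hx.1.2
      have a2 := hx.2.2
      linarith
    have h4 : ind hA 1 = ind (hA.inter (measurableSet_Iio (a := (2 : ℝ)))) 1 := by
      rw [ind_split hA (hA.inter (measurableSet_Iio (a := (2 : ℝ))))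
        (hA.inter (measurableSet_Ici (a := (2 : ℝ))))
        (by
          rw [Set.disjoint_left]
          intro x h1 h2
          exact absurd (show (2 : ℝ) ≤ x from h2.2) (not_le.2 h1.2))
        (by rw [← inter_union_distrib_left, Iio_union_Ici, inter_univ]), h3, add_zero]
    rw [ind_smul, hs, h4, h1, h2, h0, mul_zero]
  · intro f g hf hg _ h1 h2
    rw [ha, h1, h2, add_zero]

theorem far {f : H1} (hf : f ∈ LZ) : 1 / 2 ≤ ‖f - ind MeasurableSet.univ (1 / 2)‖ := by
  have h1 : ‖ind MeasurableSet.univ (1 / 2)‖ = 1 / 2 := by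
    rw [ind_smul, norm_smul, ind_norm]
    simp
  rw [← h1]
  conv_rhs => rw [h1]
  refine Lp.norm_le_norm_of_ae_le ?_
  filter_upwards [hf, Lp.coeFn_sub f (ind MeasurableSet.univ (1 / 2)),
    indicatorConstLp_coeFn (p := 1) (hs := MeasurableSet.univ) (hμs := measure_ne_top mu univ)
      (c := (1 / 2 : ℝ))] with x a1 a2 a3
  obtain ⟨n, hn⟩ := a1
  rw [a2, Pi.sub_apply, hn, ind, a3, indicator_univ, Real.norm_eq_abs, Real.norm_eq_abs,
    abs_of_pos (by norm_num : (0 : ℝ) < 1 / 2)]
  rcases le_or_gt n 0 with h | h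
  · have : (n : ℝ) ≤ 0 := by exact_mod_cast h
    rw [abs_of_nonpos (by linarith)]
    linarith
  · have : (1 : ℝ) ≤ n := by exact_mod_cast h
    rw [abs_of_nonneg (by linarith)]
    linarith

/-- the discrete group -/
def Gd : Type := Multiplicative LZ

instance : Group Gd := inferInstanceAs (Group (Multiplicative LZ))
instance : TopologicalSpace Gd := ⊥
instance : DiscreteTopology Gd := ⟨rfl⟩

/-- the zero space -/
abbrev Z0 : Type := Fin 0 → ℝ

/-- the chart at a point of the discrete group -/
def ptChart (g : Gd) : OpenPartialHomeomorph Gd Z0 where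
  toFun _ := 0
  invFun _ := g
  source := {g}
  target := univ
  map_source' _ _ := mem_univ _
  map_target' _ _ := rfl
  left_inv' _ h := h.symm
  right_inv' _ _ := Subsingleton.elim _ _
  open_source := isOpen_discrete _
  open_target := isOpen_univ
  continuousOn_toFun := continuousOn_const
  continuousOn_invFun := continuousOn_const

theorem smooth_of_subsingleton {E : Type} [AddCommGroup E] [Module ℝ E] [TopologicalSpace E]
    [Subsingleton E] {F : Type} [AddCommGroup F] [Module ℝ F] [TopologicalSpace F]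
    (f : E → F) (U : Set E) : IsSmooth f U := by
  intro k
  have : f = fun _ => f 0 := funext fun a => by rw [Subsingleton.elim a 0]
  rw [this]
  exact isCk_const k _ _

/-- the atlas of the discrete group -/
def atlasG : SmoothAtlas Z0 Gd where
  charts := range ptChart
  cover g := ⟨_, ⟨g, rfl⟩, rfl⟩
  transition _ _ _ _ := smooth_of_subsingleton _ _

theorem lieG : IsLieGroup atlasG :=
  ⟨⟨continuous_of_discreteTopology, fun _ _ _ _ _ _ => smooth_of_subsingleton _ _⟩,
    ⟨continuous_of_discreteTopology, fun _ _ _ _ => smooth_of_subsingleton _ _⟩⟩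

/-- the inclusion -/
def incl : Gd →* Multiplicative H1 := AddMonoidHom.toMultiplicative LZ.subtype

theorem incl_smooth : SmoothMap atlasG (globalAtlas (addChart H1)) incl :=
  ⟨continuous_of_discreteTopology, fun _ _ _ _ => smooth_of_subsingleton _ _⟩

theorem not_dense : ¬ DenseRange incl := by
  intro h
  have h1 : IsOpen ((addChart H1) ⁻¹' Metric.ball (ind MeasurableSet.univ (1 / 2)) (1 / 2)) :=
    Metric.isOpen_ball.preimage (addChart H1).continuous
  obtain ⟨g, hg⟩ := h.exists_mem_open h1
    ⟨Multiplicative.ofAdd (ind MeasurableSet.univ (1 / 2)), Metric.mem_ball_self (by norm_num)⟩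
  have h2 := far (Multiplicative.toAdd g).2
  rw [mem_preimage, Metric.mem_ball, dist_eq_norm] at hg
  exact absurd hg (not_lt.2 h2)

theorem epi {F : Type u} [AddCommGroup F] [Module ℝ F] [TopologicalSpace F]
    [IsTopologicalAddGroup F] [ContinuousSMul ℝ F] [LocallyConvexSpace ℝ F] [T2Space F]
    {K : Type v} [Group K] [TopologicalSpace K] (C : SmoothAtlas F K) (hC : IsLieGroup C)
    (g₁ g₂ : Multiplicative H1 →* K) (s₁ : SmoothMap (globalAtlas (addChart H1)) C g₁)
    (s₂ : SmoothMap (globalAtlas (addChart H1)) C g₂) (h : g₁.comp incl = g₂.comp incl) :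
    g₁ = g₂ :=
  epi_of_curves LZ total C hC g₁ g₂ s₁ s₂ fun l hl =>
    DFunLike.congr_fun h (Multiplicative.ofAdd (⟨l, hl⟩ : LZ))

end

end Pool.Agent.H76Z.EpiL
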