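import Pool.Agent.H76Z.Calc

set_option autoImplicit false

namespace Pool.Agent.H76Z

open Filter Topology Set

universe u v

variable {E : Type u} [AddCommGroup E] [Module ℝ E] [TopologicalSpace E]
  {G : Type v} [Group G] [TopologicalSpace G]

theorem isOpen_mulDom (hm : Continuous (fun p : G × G => p.1 * p.2))
    (e₁ e₂ e₃ : OpenPartialHomeomorph G E) :
    IsOpen {p : E × E | p.1 ∈ e₁.target ∧ p.2 ∈ e₂.target ∧
      e₁.symm p.1 * e₂.symm p.2 ∈ e₃.source} := by
  have h1 : ContinuousOn (fun p : E × E => e₁.symm p.1 * e₂.symm p.2) (e₁.target ×ˢ e₂.target) := by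
    refine hm.comp_continuousOn (f := fun p : E × E => (e₁.symm p.1, e₂.symm p.2)) ?_
    exact (e₁.continuousOn_symm.comp continuousOn_fst fun p hp => hp.1).prodMk
      (e₂.continuousOn_symm.comp continuousOn_snd fun p hp => hp.2)
  have h2 := h1.isOpen_inter_preimage (e₁.open_target.prod e₂.open_target) e₃.open_source
  convert h2 using 1
  ext p
  simp [and_assoc]

theorem isOpen_mapDom {M : Type*} {N : Type*} [TopologicalSpace M] [TopologicalSpace N]
    {F : Type*} [TopologicalSpace F] {f : M → N} (hf : Continuous f)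
    (e : OpenPartialHomeomorph M E) (e' : OpenPartialHomeomorph N F) :
    IsOpen {a : E | a ∈ e.target ∧ f (e.symm a) ∈ e'.source} := by
  have h1 : ContinuousOn (fun a : E => f (e.symm a)) e.target :=
    hf.comp_continuousOn e.continuousOn_symm
  exact h1.isOpen_inter_preimage e.open_target e'.open_source

theorem inv_smooth [IsTopologicalAddGroup E] [ContinuousSMul ℝ E] [LocallyConvexSpace ℝ E]
    (A : SmoothAtlas E G) (hm : MulSmooth A) (hi : Continuous (fun g : G => g⁻¹)) :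
    SmoothMap A A (fun g : G => g⁻¹) := by
  refine ⟨hi, fun e₁ he₁ e₂ he₂ => ?_⟩
  obtain ⟨e₃, he₃, h1⟩ := A.cover 1
  set W : Set E := {a | a ∈ e₁.target ∧ (e₁.symm a)⁻¹ ∈ e₂.source} with hW
  have hWo : IsOpen W := isOpen_mapDom hi e₁ e₂
  set y : E → E := fun a => e₂ (e₁.symm a)⁻¹ with hy
  set D₁ : Set (E × E) := {p | p.1 ∈ e₂.target ∧ p.2 ∈ e₁.target ∧
    e₂.symm p.1 * e₁.symm p.2 ∈ e₃.source} with hD₁
  set D₂ : Set (E × E) := {p | p.1 ∈ e₃.target ∧ p.2 ∈ e₂.target ∧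
    e₃.symm p.1 * e₂.symm p.2 ∈ e₂.source} with hD₂
  set m₁ : E × E → E := fun p => e₃ (e₂.symm p.1 * e₁.symm p.2) with hm₁
  set m₂ : E × E → E := fun p => e₂ (e₃.symm p.1 * e₂.symm p.2) with hm₂
  have hD₁o : IsOpen D₁ := isOpen_mulDom hm.1 e₂ e₁ e₃
  have hD₂o : IsOpen D₂ := isOpen_mulDom hm.1 e₃ e₂ e₂
  have hs₁ : IsSmooth m₁ D₁ := hm.2 e₂ he₂ e₁ he₁ e₃ he₃
  have hs₂ : IsSmooth m₂ D₂ := hm.2 e₃ he₃ e₂ he₂ e₂ he₂
  set P : (E × E) × E → E × E := fun q => (m₁ q.1, q.2) with hP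
  have hPs : ∀ k, IsCk (E × E) k ((E × E) × E) P (D₁ ×ˢ univ) := fun k =>
    IsCk.prodMk (((hs₁ k).comp_clm (ContinuousLinearMap.fst ℝ (E × E) E)).mono fun q hq => hq.1)
      (isCk_clm k (ContinuousLinearMap.snd ℝ (E × E) E) _)
  set D : Set ((E × E) × E) := (D₁ ×ˢ univ) ∩ P ⁻¹' D₂ with hD
  have hDo : IsOpen D :=
    ContinuousOn.isOpen_inter_preimage (hPs 0) (hD₁o.prod isOpen_univ) hD₂o
  set N : (E × E) × E → E := fun q => m₂ (P q) with hN
  have hNs : ∀ k, IsCk E k ((E × E) × E) N D := fun k =>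
    IsCk.comp hD₂o (hs₂ k) ((hPs k).mono inter_subset_left) fun q hq => hq.2
  have hyc : ContinuousOn y W :=
    e₂.continuousOn.comp (hi.comp_continuousOn (e₁.continuousOn_symm.mono fun a ha => ha.1))
      fun a ha => ha.2
  have hsy : ∀ a ∈ W, e₂.symm (y a) = (e₁.symm a)⁻¹ := fun a ha => e₂.left_inv ha.2
  have hmem : ∀ a ∈ W, ((y a, a), y a) ∈ D := by
    intro a ha
    have h2 : y a ∈ e₂.target := e₂.map_source ha.2
    refine ⟨⟨⟨h2, ha.1, ?_⟩, mem_univ _⟩, ?_⟩
    · simp only [hsy a ha, inv_mul_cancel]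
      exact h1
    · simp only [mem_preimage, hP, hm₁, hD₂, mem_setOf_eq, hsy a ha, inv_mul_cancel]
      refine ⟨e₃.map_source h1, h2, ?_⟩
      rw [e₃.left_inv h1, one_mul]
      exact ha.2
  have hN1 : ∀ a ∈ W, ∀ b ∈ W, N ((y b, b), y a) = y a := by
    intro a ha b hb
    simp only [hN, hP, hm₁, hm₂, hsy a ha, hsy b hb, inv_mul_cancel]
    rw [e₃.left_inv h1, one_mul]
  have hN2 : ∀ a ∈ W, ∀ b ∈ W, ((y b, a), y a) ∈ D → N ((y b, a), y a) = y b := by
    intro a ha b hb hd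
    have h3 : (e₁.symm b)⁻¹ * e₁.symm a ∈ e₃.source := by
      have := hd.1.1.2.2
      simpa only [hsy b hb] using this
    simp only [hN, hP, hm₁, hm₂, hsy a ha, hsy b hb]
    rw [e₃.left_inv h3, mul_inv_cancel_right]
  intro k
  induction k with
  | zero => exact hyc
  | succ k ih =>
    obtain ⟨-, dN, hd, hdk⟩ := hNs (k + 1)
    refine ⟨hyc, fun q => -dN (((y q.1, q.1), y q.1), ((0, q.2), 0)), ?_, ?_⟩
    · intro a ha v
      have hl := tendsto_line a v
      have hlW : ∀ᶠ t in 𝓝[≠] (0 : ℝ), a + t • v ∈ W := hl (hWo.mem_nhds ha)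
      have hyt : Tendsto (fun t : ℝ => y (a + t • v)) (𝓝[≠] 0) (𝓝 (y a)) :=
        (hyc.continuousAt (hWo.mem_nhds ha)).tendsto.comp hl
      have hp : Tendsto (fun t : ℝ => ((y (a + t • v), a), y a)) (𝓝[≠] 0)
          (𝓝 ((y a, a), y a)) :=
        (hyt.prodMk_nhds tendsto_const_nhds).prodMk_nhds tendsto_const_nhds
      have h4 := (strict_deriv hDo hd hdk.continuousOn (w := fun _ => ((0, v), 0))
        (hmem a ha) hp tendsto_const_nhds).neg
      unfold HasDirDeriv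
      refine h4.congr' ?_
      filter_upwards [hlW, hp (hDo.mem_nhds (hmem a ha))] with t ht1 ht2
      have h5 : ((y (a + t • v), a), y a) + t • (((0 : E), v), (0 : E)) =
          ((y (a + t • v), a + t • v), y a) := by simp
      rw [h5, hN1 a ha _ ht1, hN2 a ha _ ht1 ht2, ← smul_neg, neg_sub]
    · have h6 : IsCk E k (E × E) (fun q => y q.1) (W ×ˢ univ) :=
        (IsCk.comp_clm (ContinuousLinearMap.fst ℝ E E) ih).mono fun q hq => hq.1
      have h7 : IsCk E k (E × E) (fun q => q.1) (W ×ˢ univ) :=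
        isCk_clm k (ContinuousLinearMap.fst ℝ E E) _
      have h8 : IsCk E k (E × E) (fun q => q.2) (W ×ˢ univ) :=
        isCk_clm k (ContinuousLinearMap.snd ℝ E E) _
      have h9 : IsCk E k (E × E) (fun _ => (0 : E)) (W ×ˢ univ) := isCk_const k _ _
      have h10 := IsCk.comp (hDo.prod isOpen_univ) hdk
        (((h6.prodMk h7).prodMk h6).prodMk ((h9.prodMk h8).prodMk h9))
        (fun q hq => ⟨hmem q.1 hq.1, mem_univ _⟩)
      exact IsCk.clm_comp (-ContinuousLinearMap.id ℝ E) h10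

end Pool.Agent.H76Z
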