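import Pool.Agent.H76Z.Volterra

set_option autoImplicit false
set_option linter.unusedSectionVars false
set_option linter.deprecated false
set_option maxHeartbeats 400000

namespace Pool.Agent.H76Z.Vol

open Filter Topology Set

noncomputable section

variable {A : Type} [NormedRing A] [NormedAlgebra ℝ A] [CompleteSpace A]

/-- invertible `C^1` paths with their inverse and left logarithmic derivative -/
structure Q (A : Type) [NormedRing A] [NormedAlgebra ℝ A] [CompleteSpace A] where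
  p : Pa A
  r : Pa A
  d : Pa A
  pr : p * r = 1
  rp : r * p = 1
  der : Der p (p * d)

theorem Q.ext {a b : Q A} (h : a.p = b.p) : a = b := by
  obtain ⟨p, r, d, h1, h2, h3⟩ := a
  obtain ⟨p', r', d', h1', h2', h3'⟩ := b
  obtain rfl : p = p' := h
  obtain rfl : r = r' := left_inv_eq_right_inv h2 h1'
  have h4 := h3.unique h3'
  obtain rfl : d = d' := by
    have h5 := congrArg (fun z => r * z) h4
    simpa only [← mul_assoc, h2, one_mul] using h5
  rfl

instance : Group (Q A) where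
  mul a b := ⟨a.p * b.p, b.r * a.r, b.r * a.d * b.p + b.d,
    by rw [mul_assoc, ← mul_assoc b.p, b.pr, one_mul, a.pr],
    by rw [mul_assoc, ← mul_assoc a.r, a.rp, one_mul, b.rp],
    by
      have h := a.der.mul b.der
      convert h using 1
      rw [mul_add, mul_assoc a.p b.p, mul_assoc a.p b.p, ← mul_assoc b.p, ← mul_assoc b.p, b.pr,
        one_mul, mul_assoc]⟩
  one := ⟨1, 1, 0, one_mul _, one_mul _, by rw [mul_zero]; exact der_one⟩
  inv a := ⟨a.r, a.p, -(a.p * a.d * a.r), a.rp, a.pr,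
    by
      have h := a.der.inv a.pr a.rp
      convert h using 1
      rw [mul_neg, mul_assoc a.r]⟩
  mul_assoc a b c := Q.ext (mul_assoc _ _ _)
  one_mul a := Q.ext (one_mul _)
  mul_one a := Q.ext (mul_one _)
  inv_mul_cancel a := Q.ext a.rp

theorem Q.mul_p (a b : Q A) : (a * b).p = a.p * b.p := rfl
theorem Q.mul_r (a b : Q A) : (a * b).r = b.r * a.r := rfl
theorem Q.mul_d (a b : Q A) : (a * b).d = b.r * a.d * b.p + b.d := rfl
theorem Q.inv_p (a : Q A) : (a⁻¹).p = a.r := rfl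
theorem Q.inv_r (a : Q A) : (a⁻¹).r = a.p := rfl
theorem Q.inv_d (a : Q A) : (a⁻¹).d = -(a.p * a.d * a.r) := rfl

/-- evaluation of a path -/
def Q.ev (t : unitInterval) : Q A →* Aˣ where
  toFun a := ⟨a.p t, a.r t, congrArg (fun z : Pa A => z t) a.pr,
    congrArg (fun z : Pa A => z t) a.rp⟩
  map_one' := Units.ext rfl
  map_mul' _ _ := Units.ext rfl

/-- constant paths -/
def Q.const : Aˣ →* Q A where
  toFun g := ⟨cst (g : A), cst ((g⁻¹ : Aˣ) : A), 0, by rw [← cst_mul, Units.mul_inv, cst_one],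
    by rw [← cst_mul, Units.inv_mul, cst_one], by rw [mul_zero]; exact der_cst _⟩
  map_one' := Q.ext rfl
  map_mul' _ _ := Q.ext rfl

theorem Q.ev_const (t : unitInterval) (g : Aˣ) : Q.ev t (Q.const g) = g := Units.ext rfl

/-- the evolution as a path -/
def Q.evol (η : Pa A) : Q A := ⟨Ev η, Ei η, η, Ev_mul_Ei η, Ei_mul_Ev η, Ev_der η⟩

theorem Q.ev_evol (η : Pa A) : Q.ev 0 (Q.evol η) = 1 := Units.ext (Ev_zero η)

theorem Q.evol_d {a : Q A} (h : Q.ev 0 a = 1) : Q.evol a.d = a :=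
  Q.ext (eq_Ev a.der (congrArg Units.val h)).symm

/-- smooth maps into the path group -/
def QS {Y : Type} [NormedAddCommGroup Y] [NormedSpace ℝ Y] (f : Y → Q A) : Prop :=
  ContDiff ℝ ⊤ (fun y => (f y).p) ∧ ContDiff ℝ ⊤ (fun y => (f y).r) ∧
    ContDiff ℝ ⊤ (fun y => (f y).d)

/-- smooth maps into the unit group -/
def US {Y : Type} [NormedAddCommGroup Y] [NormedSpace ℝ Y] (f : Y → Aˣ) : Prop :=
  ContDiff ℝ ⊤ (fun y => (f y : A)) ∧ ContDiff ℝ ⊤ (fun y => (((f y)⁻¹ : Aˣ) : A))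

section Smooth

variable {Y : Type} [NormedAddCommGroup Y] [NormedSpace ℝ Y]

theorem QS.mul {f g : Y → Q A} (hf : QS f) (hg : QS g) : QS (fun y => f y * g y) :=
  ⟨hf.1.mul hg.1, hg.2.1.mul hf.2.1, ((hg.2.1.mul hf.2.2).mul hg.1).add hg.2.2⟩

theorem QS.inv {f : Y → Q A} (hf : QS f) : QS (fun y => (f y)⁻¹) :=
  ⟨hf.2.1, hf.1, ((hf.1.mul hf.2.2).mul hf.2.1).neg⟩

theorem QS.cst (a : Q A) : QS (fun _ : Y => a) := ⟨contDiff_const, contDiff_const, contDiff_const⟩

theorem QS.evol {g : Y → Pa A} (hg : ContDiff ℝ ⊤ g) : QS (fun y => Q.evol (g y)) :=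
  ⟨Ev_smooth.comp hg, Ei_smooth.comp hg, hg⟩

theorem QS.ev {f : Y → Q A} (hf : QS f) (t : unitInterval) : US (fun y => Q.ev t (f y)) :=
  ⟨(evt (A := A) t).contDiff.comp hf.1, (evt (A := A) t).contDiff.comp hf.2.1⟩

theorem US.const {f : Y → Aˣ} (hf : US f) : QS (fun y => Q.const (f y)) :=
  ⟨(Vol.cst (A := A)).contDiff.comp hf.1, (Vol.cst (A := A)).contDiff.comp hf.2, contDiff_const⟩

theorem US.inv {f : Y → Aˣ} (hf : US f) : US (fun y => (f y)⁻¹) := ⟨hf.2, hf.1⟩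

end Smooth

/-- the unital monoid endomorphism attached to a multiplicative operator -/
def uni (ψ : A →L[ℝ] A) (h : ∀ a b, ψ (a * b) = ψ a * ψ b) : A →* A where
  toFun a := 1 + ψ (a - 1)
  map_one' := by simp
  map_mul' a b := by
    have h1 : a * b - 1 = (a - 1) * (b - 1) + (a - 1) + (b - 1) := by noncomm_ring
    rw [h1, map_add, map_add, h]
    noncomm_ring

theorem US.uni {Y : Type} [NormedAddCommGroup Y] [NormedSpace ℝ Y] {f : Y → Aˣ} (hf : US f)
    (ψ : A →L[ℝ] A) (h : ∀ a b, ψ (a * b) = ψ a * ψ b) :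
    US (fun y => Units.map (uni ψ h) (f y)) :=
  ⟨contDiff_const.add (ψ.contDiff.comp (hf.1.sub contDiff_const)),
    contDiff_const.add (ψ.contDiff.comp (hf.2.sub contDiff_const))⟩

/-- rotations -/
def rot (k : A) (θ : ℝ) : A := 1 + Real.sin θ • k + (1 - Real.cos θ) • (k * k)

theorem rot_zero (k : A) : rot k 0 = 1 := by simp [rot]

theorem rot_add {k : A} (hk : k * k * k = -k) (s t : ℝ) : rot k (s + t) = rot k s * rot k t := by
  have h3 : k * (k * k) = -k := by rw [← mul_assoc, hk]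
  have h4 : k * k * (k * k) = -(k * k) := by rw [← mul_assoc, hk, neg_mul]
  simp only [rot, mul_add, add_mul, one_mul, mul_one, smul_mul_assoc, mul_smul_comm, hk, h3, h4,
    Real.sin_add, Real.cos_add]
  module

theorem rot_smooth (k : A) : ContDiff ℝ ⊤ (rot k) := by
  unfold rot
  fun_prop

theorem rot_deriv {k : A} (hk : k * k * k = -k) (θ : ℝ) :
    HasDerivAt (rot k) (rot k θ * k) θ := by
  have h := (((Real.hasDerivAt_sin θ).smul_const k).const_add 1).add
    (((Real.hasDerivAt_cos θ).const_sub 1).smul_const (k * k))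
  have h2 : rot k θ * k = Real.cos θ • k + (-(-Real.sin θ)) • (k * k) := by
    simp only [rot, add_mul, one_mul, smul_mul_assoc, hk]
    module
  rw [h2]
  exact h

/-- rotations as units -/
def rotU {k : A} (hk : k * k * k = -k) (θ : ℝ) : Aˣ :=
  ⟨rot k θ, rot k (-θ), by rw [← rot_add hk, add_neg_cancel, rot_zero],
    by rw [← rot_add hk, neg_add_cancel, rot_zero]⟩

/-- a path of rotations -/
def rotP (k : A) (c : ℝ) : Pa A :=
  Pa.ofC ⟨fun t => rot k (c * (1 - (t : ℝ))),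
    (rot_smooth k).continuous.comp (by fun_prop)⟩

/-- the path from the half turn to the identity -/
def rotQ {k : A} (hk : k * k * k = -k) : Q A where
  p := rotP k Real.pi
  r := rotP k (-Real.pi)
  d := cst (-Real.pi • k)
  pr := Pa.ext fun t => by
    change rot k _ * rot k _ = 1
    rw [← rot_add hk, neg_mul, add_neg_cancel, rot_zero]
  rp := Pa.ext fun t => by
    change rot k _ * rot k _ = 1
    rw [← rot_add hk, neg_mul, neg_add_cancel, rot_zero]
  der := by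
    intro t ht
    have h1 : HasDerivAt (fun s : ℝ => Real.pi * (1 - s)) (Real.pi * (-1)) t :=
      ((hasDerivAt_id t).const_sub 1).const_mul _
    have h2 := (rot_deriv hk (Real.pi * (1 - t))).scomp t h1
    rw [ex_of_mem _ (Ioo_subset_Icc_self ht)]
    have h3 : (rotP k Real.pi * cst (-Real.pi • k)) ⟨t, Ioo_subset_Icc_self ht⟩ =
        (Real.pi * (-1)) • (rot k (Real.pi * (1 - t)) * k) := by
      change rot k (Real.pi * (1 - t)) * (-Real.pi • k) = _
      rw [mul_smul_comm, mul_neg_one]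
    rw [h3]
    refine h2.congr_of_eventuallyEq ?_
    filter_upwards [Ioo_mem_nhds ht.1 ht.2] with u hu
    rw [ex_of_mem _ (Ioo_subset_Icc_self hu)]
    rfl

theorem rotQ_one {k : A} (hk : k * k * k = -k) : Q.ev 1 (rotQ hk) = 1 := by
  refine Units.ext ?_
  change rot k (Real.pi * (1 - 1)) = 1
  rw [sub_self, mul_zero, rot_zero]

theorem rotQ_zero {k : A} (hk : k * k * k = -k) :
    (Q.ev 0 (rotQ hk) : A) = 1 + (2 : ℝ) • (k * k) := by
  change rot k (Real.pi * (1 - 0)) = _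
  rw [sub_zero, mul_one, rot, Real.sin_pi, Real.cos_pi]
  norm_num

/-- the data of an Eilenberg swindle together with a fixed circle -/
structure Data (A : Type) [NormedRing A] [NormedAlgebra ℝ A] [CompleteSpace A] where
  ψp : A →L[ℝ] A
  ψ0 : A →L[ℝ] A
  mp : ∀ a b, ψp (a * b) = ψp a * ψp b
  m0 : ∀ a b, ψ0 (a * b) = ψ0 a * ψ0 b
  k0 : A
  k1 : A
  k : A
  h0 : k0 * k0 * k0 = -k0
  h1 : k1 * k1 * k1 = -k1
  hk : k * k * k = -k
  sw : ∀ a, (1 + ψp a) * ((1 + (2 : ℝ) • (k1 * k1)) * (1 + (2 : ℝ) • (k0 * k0))) =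
    (1 + ψ0 a) * ((1 + (2 : ℝ) • (k1 * k1)) * (1 + (2 : ℝ) • (k0 * k0))) * (1 + ψp a)
  fix : ψ0 k = k
  ne : k ≠ 0

namespace Data

variable (D : Data A)

/-- the corner embedding -/
def j : Aˣ →* Aˣ := Units.map (uni D.ψ0 D.m0)

/-- the infinite amplification -/
def S : Aˣ →* Aˣ := Units.map (uni D.ψp D.mp)

/-- the path from the shift to the identity -/
def σ : Q A := rotQ D.h1 * rotQ D.h0

/-- the null homotopy of the corner embedding -/
def h (g : Aˣ) : Q A := Q.const (D.S g) * D.σ * (Q.const (D.S g))⁻¹ * D.σ⁻¹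

theorem h_one (g : Aˣ) : Q.ev 1 (D.h g) = 1 := by
  simp only [h, σ, map_mul, map_inv, rotQ_one, Q.ev_const]
  group

theorem h_zero (g : Aˣ) : Q.ev 0 (D.h g) = D.j g := by
  have h1 : D.S g * Q.ev 0 D.σ = D.j g * Q.ev 0 D.σ * D.S g := by
    refine Units.ext ?_
    simp only [σ, map_mul, Units.val_mul, rotQ_zero]
    exact D.sw _
  simp only [h, map_mul, map_inv, Q.ev_const]
  rw [h1]
  group

theorem h_smooth {Y : Type} [NormedAddCommGroup Y] [NormedSpace ℝ Y] {f : Y → Aˣ} (hf : US f) :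
    QS (fun y => D.h (f y)) :=
  ((((hf.uni D.ψp D.mp).const.mul (QS.cst _)).mul (hf.uni D.ψp D.mp).const.inv)).mul (QS.cst _)

/-- the circle -/
def circ (s : ℝ) : Aˣ := rotU D.hk (2 * Real.pi * s)

theorem circ_add (s t : ℝ) : D.circ (s + t) = D.circ s * D.circ t := by
  refine Units.ext ?_
  change rot _ _ = rot _ _ * rot _ _
  rw [mul_add, rot_add D.hk]

theorem circ_zero : D.circ 0 = 1 := by
  refine Units.ext ?_
  change rot _ _ = 1
  rw [mul_zero, rot_zero]

theorem circ_one : D.circ 1 = 1 := by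
  refine Units.ext ?_
  change rot _ _ = 1
  rw [mul_one, rot, Real.sin_two_pi, Real.cos_two_pi]
  simp

theorem j_circ (s : ℝ) : D.j (D.circ s) = D.circ s := by
  refine Units.ext ?_
  change 1 + D.ψ0 (rot _ _ - 1) = rot _ _
  rw [rot, add_assoc, add_sub_cancel_left, map_add, map_smul, map_smul, D.m0, D.fix]

theorem circ_smooth : US D.circ :=
  ⟨(rot_smooth D.k).comp (by fun_prop), (rot_smooth D.k).comp (by fun_prop)⟩

/-- a power of the homotopy inverse limit of the corner embedding -/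
def Hs : Subgroup (ℕ × ℕ → Q A) where
  carrier := {x | ∀ m n, Q.ev 0 (x (m, n)) = D.j (Q.ev 1 (x (m, n + 1)))}
  mul_mem' := by
    intro x y hx hy m n
    simp only [Pi.mul_apply, map_mul, hx m n, hy m n]
  one_mem' := by
    intro m n
    simp only [Pi.one_apply, map_one]
  inv_mem' := by
    intro x hx m n
    simp only [Pi.inv_apply, map_inv, hx m n]

/-- the global chart -/
def Φ : D.Hs ≃ (ℕ × ℕ → Pa A) where
  toFun x i := ((D.h (Q.ev 1 (x.1 (i.1, i.2 + 1))))⁻¹ * x.1 i).d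
  invFun ξ := ⟨fun i => D.h (Q.ev 1 (Q.evol (ξ (i.1, i.2 + 1)))) * Q.evol (ξ i), by
    intro m n
    simp only [map_mul, h_zero, h_one, Q.ev_evol, mul_one, one_mul]⟩
  left_inv x := by
    have h1 : ∀ m n, Q.evol ((D.h (Q.ev 1 (x.1 (m, n + 1))))⁻¹ * x.1 (m, n)).d =
        (D.h (Q.ev 1 (x.1 (m, n + 1))))⁻¹ * x.1 (m, n) := by
      intro m n
      apply Q.evol_d
      rw [map_mul, map_inv, h_zero, x.2 m n, inv_mul_cancel]
    refine Subtype.ext (funext fun i => ?_)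
    obtain ⟨m, n⟩ := i
    simp only [h1, map_mul, map_inv, h_one, inv_one, one_mul, mul_inv_cancel_left]
  right_inv ξ := by
    funext i
    simp only [map_mul, h_one, one_mul, inv_mul_cancel_left]
    rfl

theorem Φ_apply (x : D.Hs) (i : ℕ × ℕ) :
    D.Φ x i = ((D.h (Q.ev 1 (x.1 (i.1, i.2 + 1))))⁻¹ * x.1 i).d := rfl

theorem Φ_symm (ξ : ℕ × ℕ → Pa A) (i : ℕ × ℕ) :
    (D.Φ.symm ξ).1 i = D.h (Q.ev 1 (Q.evol (ξ (i.1, i.2 + 1)))) * Q.evol (ξ i) := rfl

/-- the multiplication in the chart -/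
def μ (y : (Pa A × Pa A) × (Pa A × Pa A)) : Pa A :=
  ((D.h (Q.ev 1 (Q.evol y.1.2 * Q.evol y.2.2)))⁻¹ *
    (D.h (Q.ev 1 (Q.evol y.1.2)) * Q.evol y.1.1 *
      (D.h (Q.ev 1 (Q.evol y.2.2)) * Q.evol y.2.1))).d

theorem μ_smooth : ContDiff ℝ ⊤ D.μ := by
  have a1 : QS (fun y : (Pa A × Pa A) × (Pa A × Pa A) => Q.evol y.1.1) := QS.evol (by fun_prop)
  have a2 : QS (fun y : (Pa A × Pa A) × (Pa A × Pa A) => Q.evol y.1.2) := QS.evol (by fun_prop)
  have a3 : QS (fun y : (Pa A × Pa A) × (Pa A × Pa A) => Q.evol y.2.1) := QS.evol (by fun_prop)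
  have a4 : QS (fun y : (Pa A × Pa A) × (Pa A × Pa A) => Q.evol y.2.2) := QS.evol (by fun_prop)
  exact ((D.h_smooth ((a2.mul a4).ev 1)).inv.mul
    (((D.h_smooth (a2.ev 1)).mul a1).mul ((D.h_smooth (a4.ev 1)).mul a3))).2.2

theorem Φ_mul (ξ ζ : ℕ × ℕ → Pa A) (i : ℕ × ℕ) :
    D.Φ (D.Φ.symm ξ * D.Φ.symm ζ) i =
      D.μ ((ξ i, ξ (i.1, i.2 + 1)), (ζ i, ζ (i.1, i.2 + 1))) := by
  simp only [Φ_apply, μ, Subgroup.coe_mul, Pi.mul_apply, Φ_symm, map_mul, h_one, one_mul]

/-- the inversion in the chart -/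
def ι (y : Pa A × Pa A) : Pa A :=
  ((D.h (Q.ev 1 (Q.evol y.2)⁻¹))⁻¹ * (D.h (Q.ev 1 (Q.evol y.2)) * Q.evol y.1)⁻¹).d

theorem ι_smooth : ContDiff ℝ ⊤ D.ι := by
  have a1 : QS (fun y : Pa A × Pa A => Q.evol y.1) := QS.evol (by fun_prop)
  have a2 : QS (fun y : Pa A × Pa A => Q.evol y.2) := QS.evol (by fun_prop)
  exact ((D.h_smooth (a2.inv.ev 1)).inv.mul ((D.h_smooth (a2.ev 1)).mul a1).inv).2.2

theorem Φ_inv (ξ : ℕ × ℕ → Pa A) (i : ℕ × ℕ) :
    D.Φ (D.Φ.symm ξ)⁻¹ i = D.ι (ξ i, ξ (i.1, i.2 + 1)) := by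
  simp only [Φ_apply, ι, Subgroup.coe_inv, Pi.inv_apply, Φ_symm, map_mul, map_inv, h_one, one_mul]

/-- the homomorphism with non discrete kernel -/
def φ : Multiplicative (ℕ → ℝ) →* D.Hs where
  toFun t := ⟨fun i => Q.const (D.circ (t.toAdd i.1)), by
    intro m n
    simp only [Q.ev_const, j_circ]⟩
  map_one' := by
    refine Subtype.ext (funext fun i => ?_)
    change Q.const (D.circ 0) = 1
    rw [circ_zero, map_one]
  map_mul' s t := by
    refine Subtype.ext (funext fun i => ?_)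
    change Q.const (D.circ (s.toAdd i.1 + t.toAdd i.1)) = _ * _
    rw [circ_add, map_mul]

/-- the circle in the chart -/
def ν (s : ℝ) : Pa A := ((D.h (D.circ s))⁻¹ * Q.const (D.circ s)).d

theorem ν_smooth : ContDiff ℝ ⊤ D.ν :=
  ((D.h_smooth D.circ_smooth).inv.mul D.circ_smooth.const).2.2

theorem Φ_φ (t : ℕ → ℝ) (i : ℕ × ℕ) : D.Φ (D.φ (Multiplicative.ofAdd t)) i = D.ν (t i.1) := by
  rw [Φ_apply]
  change ((D.h (Q.ev 1 (Q.const (D.circ (t i.1)))))⁻¹ * Q.const (D.circ (t i.1))).d = _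
  rw [Q.ev_const]
  rfl

theorem ν_deriv : deriv D.ν 0 ≠ 0 := by
  intro h0
  have h1 : HasDerivAt D.ν 0 0 := by
    rw [← h0]
    exact ((D.ν_smooth.differentiable (by simp)) 0).hasDerivAt
  have h2 : ∀ s, evt 1 (Ev (D.ν s)) = rot D.k (2 * Real.pi * s) := by
    intro s
    have h3 : Q.evol (D.ν s) = (D.h (D.circ s))⁻¹ * Q.const (D.circ s) := by
      apply Q.evol_d
      rw [map_mul, map_inv, h_zero, Q.ev_const, j_circ, inv_mul_cancel]
    have h4 : Q.ev 1 (Q.evol (D.ν s)) = D.circ s := by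
      rw [h3, map_mul, map_inv, h_one, Q.ev_const, inv_one, one_mul]
    exact congrArg Units.val h4
  have h5 : ContDiff ℝ ⊤ (fun η : Pa A => evt 1 (Ev η)) :=
    (evt (A := A) 1).contDiff.comp Ev_smooth
  have h6 := ((h5.differentiable (by simp)) (D.ν 0)).hasFDerivAt.comp_hasDerivAt 0 h1
  rw [map_zero] at h6
  have h7 : HasDerivAt (fun s : ℝ => 2 * Real.pi * s) (2 * Real.pi * 1) 0 :=
    (hasDerivAt_id 0).const_mul _
  have h8 := (rot_deriv D.hk (2 * Real.pi * 0)).scomp 0 h7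
  have h9 : ((fun η : Pa A => evt 1 (Ev η)) ∘ D.ν) = (rot D.k ∘ fun s : ℝ => 2 * Real.pi * s) :=
    funext h2
  rw [h9] at h6
  have h10 := h6.unique h8
  rw [mul_zero, rot_zero, one_mul, mul_one] at h10
  have h11 : (2 * Real.pi) ≠ 0 := by positivity
  exact D.ne ((smul_eq_zero.1 h10.symm).resolve_left h11)

theorem φ_single (m : ℕ) : D.φ (Multiplicative.ofAdd (Pi.single m 1)) = 1 := by
  refine Subtype.ext (funext fun i => ?_)
  change Q.const (D.circ ((Pi.single m 1 : ℕ → ℝ) i.1)) = 1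
  by_cases hi : i.1 = m
  · rw [hi, Pi.single_eq_same, circ_one, map_one]
  · rw [Pi.single_eq_of_ne hi, circ_zero, map_one]

end Data

end

end Pool.Agent.H76Z.Vol
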