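import Pool.Agent.H76Z.AdODE
import Pool.Agent.Results.MP_ed087a_al.NotSmooth

set_option autoImplicit false
set_option linter.unusedSectionVars false
set_option linter.deprecated false
set_option maxHeartbeats 800000

namespace Pool.Agent.H76Z.Solv

open Filter Topology Set
open Pool.Agent.Results.MP_ed087a_al.NotSmooth (ev ev_inj ev_apply)

universe u v

noncomputable section

/-- exponential polynomials -/
def E0 : Submodule ℝ (ℕ → ℝ) := LinearMap.range ev

theorem ev_single (t : ℝ) (p : Polynomial ℝ) (n : ℕ) :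
    ev (Finsupp.single t p) n = p.eval (n : ℝ) * Real.exp (t * n) := by
  simp only [ev, LinearMap.coe_mk, AddHom.coe_mk]
  rw [Finsupp.sum_single_index (by simp)]

theorem ev_mul (p : Polynomial ℝ) (F : ℝ →₀ Polynomial ℝ) (n : ℕ) :
    ev (p • F) n = p.eval (n : ℝ) * ev F n := by
  induction F using Finsupp.induction_linear with
  | zero => simp
  | add f g hf hg => rw [smul_add, map_add, map_add, Pi.add_apply, Pi.add_apply, hf, hg, mul_add]
  | single t q =>
    rw [Finsupp.smul_single, ev_single, ev_single, smul_eq_mul, Polynomial.eval_mul, mul_assoc]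

theorem mul_mem {f : ℕ → ℝ} (hf : f ∈ E0) : (fun n : ℕ => ((n : ℝ) + 1) * f n) ∈ E0 := by
  obtain ⟨F, rfl⟩ := hf
  refine ⟨(Polynomial.X + 1 : Polynomial ℝ) • F, funext fun n => ?_⟩
  rw [ev_mul]
  simp

theorem exp_mem (s : ℝ) {f : ℕ → ℝ} (hf : f ∈ E0) :
    (fun n : ℕ => Real.exp (s * ((n : ℝ) + 1)) * f n) ∈ E0 := by
  obtain ⟨F, rfl⟩ := hf
  induction F using Finsupp.induction_linear with
  | zero =>
    convert E0.zero_mem using 1
    funext n
    simp
  | add f g hf hg =>
    have := E0.add_mem hf hg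
    convert this using 1
    funext n
    simp [mul_add]
  | single t q =>
    refine ⟨Finsupp.single (s + t) (Polynomial.C (Real.exp s) * q), funext fun n => ?_⟩
    rw [ev_single, ev_single, Polynomial.eval_mul, Polynomial.eval_C, mul_add, add_mul,
      Real.exp_add, Real.exp_add, mul_one]
    ring

theorem poly_mem (p : Polynomial ℝ) : (fun n : ℕ => p.eval (n : ℝ)) ∈ E0 :=
  ⟨Finsupp.single 0 p, funext fun n => by rw [ev_single]; simp⟩

theorem not_mem {s : ℝ} (hs : s ≠ 0) {f : ℕ → ℝ} (hf : f ∈ E0)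
    (h : ∀ n : ℕ, ((n : ℝ) + 1) * f n + 1 = Real.exp s ^ (n + 1)) : False := by
  obtain ⟨F, rfl⟩ := hf
  have h1 : ev ((Polynomial.X + 1 : Polynomial ℝ) • F + Finsupp.single 0 1 -
      Finsupp.single s (Polynomial.C (Real.exp s))) = 0 := by
    funext n
    rw [map_sub, map_add, Pi.sub_apply, Pi.add_apply, ev_mul, ev_single, ev_single]
    have h2 := h n
    rw [pow_succ, ← Real.exp_nat_mul, mul_comm (n : ℝ) s] at h2
    simp only [Polynomial.eval_add, Polynomial.eval_X, Polynomial.eval_one, zero_mul,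
      Real.exp_zero, mul_one, Polynomial.eval_C, Pi.zero_apply]
    linarith
  have h3 := congrArg (fun H : ℝ →₀ Polynomial ℝ => (H 0).eval (-1)) (ev_inj _ h1)
  simp [hs] at h3

/-- multiplication by `n + 1` -/
def Am : E0 →L[ℝ] E0 where
  toFun f := ⟨fun n => ((n : ℝ) + 1) * f.1 n, mul_mem f.2⟩
  map_add' f g := Subtype.ext (funext fun n => by simp [mul_add])
  map_smul' c f := Subtype.ext (funext fun n => by simp [mul_left_comm])
  cont := by
    refine Continuous.subtype_mk (continuous_pi fun n => ?_) _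
    exact continuous_const.mul ((continuous_apply n).comp continuous_subtype_val)

theorem Am_apply (f : E0) (n : ℕ) : (Am f).1 n = ((n : ℝ) + 1) * f.1 n := rfl

/-- the constant sequence -/
def one : E0 := ⟨fun _ => 1, by simpa using poly_mem 1⟩

theorem one_apply (n : ℕ) : one.1 n = 1 := rfl

/-- the one parameter group -/
def act (s : ℝ) (f : E0) : E0 := ⟨fun n => Real.exp (s * ((n : ℝ) + 1)) * f.1 n, exp_mem s f.2⟩

theorem act_apply (s : ℝ) (f : E0) (n : ℕ) :
    (act s f).1 n = Real.exp (s * ((n : ℝ) + 1)) * f.1 n := rfl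

theorem act_cont : Continuous (fun p : ℝ × E0 => act p.1 p.2) := by
  refine Continuous.subtype_mk (continuous_pi fun n => ?_) _
  exact (Real.continuous_exp.comp (continuous_fst.mul continuous_const)).mul
    ((continuous_apply n).comp (continuous_subtype_val.comp continuous_snd))

theorem act_deriv {E : Type u} [AddCommGroup E] [Module ℝ E] (l : E →ₗ[ℝ] ℝ) (L : E →ₗ[ℝ] E0)
    (x v : E) : HasDirDeriv (fun a => act (l a) (L a)) x v
      (l v • act (l x) (Am (L x)) + act (l x) (L v)) := by
  unfold HasDirDeriv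
  rw [tendsto_subtype_rng, tendsto_pi_nhds]
  intro n
  have ha : HasDerivAt (fun t : ℝ => (l x + t * l v) * ((n : ℝ) + 1))
      (1 * l v * ((n : ℝ) + 1)) 0 :=
    (((hasDerivAt_id (0 : ℝ)).mul_const (l v)).const_add (l x)).mul_const _
  have hb : HasDerivAt (fun t : ℝ => (L x).1 n + t * (L v).1 n) (1 * (L v).1 n) 0 :=
    ((hasDerivAt_id (0 : ℝ)).mul_const _).const_add _
  have h2 := (ha.exp.mul hb).tendsto_slope_zero
  simp only [zero_add, zero_mul, add_zero, one_mul, Pi.mul_apply] at h2
  convert h2 using 1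
  · funext t
    change t⁻¹ * ((act (l (x + t • v)) (L (x + t • v))).1 n - (act (l x) (L x)).1 n) = _
    rw [act_apply, act_apply, map_add, map_add, map_smul, map_smul]
    rfl
  · change 𝓝 (l v * (act (l x) (Am (L x))).1 n + (act (l x) (L v)).1 n) = _
    rw [act_apply, act_apply, Am_apply]
    congr 1
    ring

theorem act_smooth (k : ℕ) : ∀ {E : Type u} [AddCommGroup E] [Module ℝ E] [TopologicalSpace E]
    (l : E →L[ℝ] ℝ) (L : E →L[ℝ] E0), IsCk E0 k E (fun a => act (l a) (L a)) univ := by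
  induction k with
  | zero =>
    intro E _ _ _ l L
    exact (act_cont.comp (l.continuous.prodMk L.continuous)).continuousOn
  | succ k ih =>
    intro E _ _ _ l L
    refine ⟨(act_cont.comp (l.continuous.prodMk L.continuous)).continuousOn,
      fun q => l q.2 • act (l q.1) (Am (L q.1)) + act (l q.1) (L q.2),
      fun a _ v => act_deriv l.toLinearMap L.toLinearMap a v, ?_⟩
    refine IsCk.mono (IsCk.add (IsCk.smul (isCk_clm k (l.comp (ContinuousLinearMap.snd ℝ E E)) _)
      (ih (l.comp (ContinuousLinearMap.fst ℝ E E))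
        (Am.comp (L.comp (ContinuousLinearMap.fst ℝ E E)))))
      (ih (l.comp (ContinuousLinearMap.fst ℝ E E))
        (L.comp (ContinuousLinearMap.snd ℝ E E)))) (subset_univ _)

/-- the Lie algebra -/
def Gl : Type := E0 × ℝ × ℝ

instance : AddCommGroup Gl := inferInstanceAs (AddCommGroup (E0 × ℝ × ℝ))
instance : Module ℝ Gl := inferInstanceAs (Module ℝ (E0 × ℝ × ℝ))
instance : TopologicalSpace Gl := inferInstanceAs (TopologicalSpace (E0 × ℝ × ℝ))

/-- the three components -/
def c1 : Gl →L[ℝ] E0 := ContinuousLinearMap.fst ℝ E0 (ℝ × ℝ)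
/-- the three components -/
def c2 : Gl →L[ℝ] ℝ :=
  (ContinuousLinearMap.fst ℝ ℝ ℝ).comp (ContinuousLinearMap.snd ℝ E0 (ℝ × ℝ))
/-- the three components -/
def c3 : Gl →L[ℝ] ℝ :=
  (ContinuousLinearMap.snd ℝ ℝ ℝ).comp (ContinuousLinearMap.snd ℝ E0 (ℝ × ℝ))
/-- the inclusion of the ideal -/
def inc : E0 →L[ℝ] Gl := ContinuousLinearMap.inl ℝ E0 (ℝ × ℝ)

theorem c1_inc (f : E0) : c1 (inc f) = f := rfl
theorem c2_inc (f : E0) : c2 (inc f) = 0 := rfl
theorem c3_inc (f : E0) : c3 (inc f) = 0 := rfl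

theorem inc_c1 {x : Gl} (h2 : c2 x = 0) (h3 : c3 x = 0) : inc (c1 x) = x :=
  Prod.ext rfl (Prod.ext h2.symm h3.symm)

/-- the value of the bracket -/
def br (x y : Gl) : E0 :=
  c2 x • Am (c1 y) - c2 y • Am (c1 x) + (c2 x * c3 y - c2 y * c3 x) • one

instance : LieRing Gl where
  bracket x y := inc (br x y)
  add_lie x y z := by
    rw [← map_add]
    congr 1
    simp only [br, map_add]
    module
  lie_add x y z := by
    rw [← map_add]
    congr 1
    simp only [br, map_add]
    module
  lie_self x := by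
    have : br x x = 0 := by
      simp only [br]
      module
    rw [this, map_zero]
  leibniz_lie x y z := by
    rw [← map_add]
    congr 1
    simp only [br, c1_inc, c2_inc, c3_inc, map_add, map_sub, map_smul]
    module

theorem lie_def (x y : Gl) : ⁅x, y⁆ = inc (br x y) := rfl

instance : LieAlgebra ℝ Gl where
  lie_smul t x y := by
    rw [lie_def, lie_def, ← map_smul]
    congr 1
    simp only [br, map_smul, smul_eq_mul]
    module

instance : IsTopologicalAddGroup Gl := inferInstanceAs (IsTopologicalAddGroup (E0 × ℝ × ℝ))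
instance : ContinuousSMul ℝ Gl := inferInstanceAs (ContinuousSMul ℝ (E0 × ℝ × ℝ))
instance : LocallyConvexSpace ℝ Gl := inferInstanceAs (LocallyConvexSpace ℝ (E0 × ℝ × ℝ))
instance : T2Space Gl := inferInstanceAs (T2Space (E0 × ℝ × ℝ))

theorem lie_cont : Continuous (fun p : Gl × Gl => ⁅p.1, p.2⁆) := by
  simp only [lie_def, br]
  fun_prop

theorem comm_le {x : Gl} (hx : x ∈ closedCommutator Gl) : c2 x = 0 ∧ c3 x = 0 := by
  have h1 : closedCommutator Gl ≤ (c2.prod c3).ker := by
    refine Submodule.topologicalClosure_minimal _ (Submodule.span_le.2 ?_)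
      (c2.prod c3).isClosed_ker
    rintro _ ⟨a, b, rfl⟩
    exact Prod.ext rfl rfl
  exact Prod.ext_iff.1 (h1 hx)

/-- the generator acting on the ideal -/
def xg : Gl := ((0 : E0), (1 : ℝ), (0 : ℝ))

/-- the second generator -/
def yg : Gl := ((0 : E0), (0 : ℝ), (1 : ℝ))

theorem lie_inc (x : Gl) (f : E0) : ⁅x, inc f⁆ = inc (c2 x • Am f) := by
  rw [lie_def]
  congr 1
  simp [br, c1_inc, c2_inc, c3_inc]

theorem inc_mem (f : E0) : inc f ∈ closedCommutator Gl := by
  let g : ℕ → E0 := fun N => ⟨_, poly_mem (Lagrange.interpolate (Finset.range N)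
    (fun n : ℕ => (n : ℝ)) (fun n => f.1 n / ((n : ℝ) + 1)))⟩
  have h1 : Tendsto (fun N => Am (g N)) atTop (𝓝 f) := by
    rw [tendsto_subtype_rng, tendsto_pi_nhds]
    intro n
    refine tendsto_const_nhds.congr' ?_
    filter_upwards [eventually_gt_atTop n] with N hN
    rw [Am_apply]
    have h2 : (g N).1 n = f.1 n / ((n : ℝ) + 1) :=
      Lagrange.eval_interpolate_at_node (s := Finset.range N) (v := fun n : ℕ => (n : ℝ))
        (fun n => f.1 n / ((n : ℝ) + 1)) (fun a _ b _ h => Nat.cast_injective h)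
        (Finset.mem_range.2 hN)
    rw [h2]
    field_simp
  refine mem_closure_of_tendsto ((inc.continuous.tendsto f).comp h1)
    (Eventually.of_forall fun N => Submodule.subset_span ⟨xg, inc (g N), ?_⟩)
  rw [lie_inc]
  exact congrArg inc (one_smul _ _)

theorem solv2 : ∀ a ∈ closedCommutator Gl, ∀ b ∈ closedCommutator Gl, ⁅a, b⁆ = 0 := by
  intro a ha b hb
  rw [← inc_c1 (comm_le hb).1 (comm_le hb).2, lie_inc, (comm_le ha).1, zero_smul, map_zero]

/-- the character of the quotient -/
def chi : (Gl ⧸ closedCommutator Gl) →L[ℝ] ℝ :=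
  (closedCommutator Gl).liftQL c2 fun _ hx => (comm_le hx).1

theorem chi_mk (x : Gl) : chi (Submodule.Quotient.mk x) = c2 x := rfl

/-- into the closed commutator -/
def io : E0 →L[ℝ] closedCommutator Gl := inc.codRestrict _ inc_mem

/-- out of the closed commutator -/
def pr : closedCommutator Gl →L[ℝ] E0 := c1.comp (closedCommutator Gl).subtypeL

theorem io_pr (z : closedCommutator Gl) : io (pr z) = z :=
  Subtype.ext (inc_c1 (comm_le z.2).1 (comm_le z.2).2)

theorem pr_io (f : E0) : pr (io f) = f := rfl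

theorem integrates : ModuleIntegrates Gl := by
  refine ⟨fun p => io (act (chi p.1) (pr p.2)), fun k => ?_, fun a => ⟨?_, ?_⟩, ?_, ?_, ?_⟩
  · exact IsCk.clm_comp io (act_smooth k
      (chi.comp (ContinuousLinearMap.fst ℝ (Gl ⧸ closedCommutator Gl) (closedCommutator Gl)))
      (pr.comp (ContinuousLinearMap.snd ℝ (Gl ⧸ closedCommutator Gl) (closedCommutator Gl))))
  · intro z w
    rw [← map_add]
    refine congrArg io ?_
    exact Subtype.ext (funext fun n => by simp [act_apply, mul_add])
  · intro c z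
    rw [← map_smul]
    refine congrArg io ?_
    exact Subtype.ext (funext fun n => by simp [act_apply, mul_left_comm])
  · intro z
    have : act (chi 0) (pr z) = pr z := Subtype.ext (funext fun n => by simp [act_apply])
    simp only [this, io_pr]
  · intro a b z
    simp only [pr_io]
    congr 1
    refine Subtype.ext (funext fun n => ?_)
    simp only [act_apply, map_add, add_mul, Real.exp_add, mul_assoc]
  · intro x z
    refine ⟨io (c2 x • Am (pr z)), ?_, ?_⟩
    · conv_rhs => rw [← io_pr z]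
      exact (lie_inc x (pr z)).symm
    · have h := (act_deriv (LinearMap.fst ℝ ℝ E0) (LinearMap.snd ℝ ℝ E0) (0, pr z)
        (c2 x, 0)).line.clm io
      have h0 : ∀ f : E0, act 0 f = f := fun f =>
        Subtype.ext (funext fun n => by simp [act_apply])
      simp only [LinearMap.fst_apply, LinearMap.snd_apply, h0, add_zero, Prod.smul_mk,
        Prod.mk_add_mk, zero_add, smul_zero] at h
      simpa only [map_smul, chi_mk] using h

theorem const_of_deriv {f : ℝ → ℝ} {δ : ℝ} (h : ∀ t, |t| < δ → HasDerivAt f 0 t) {t : ℝ}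
    (ht : |t| < δ) : f t = f 0 := by
  by_cases h0 : t = 0
  · rw [h0]
  have := mvt_ne (K := {(0 : ℝ)}) (convex_singleton _) isClosed_singleton f (fun _ => 0) h0
    (fun s hs => hasDerivAt_iff_tendsto_slope_zero.1 (h s (hs.trans_lt ht))) (fun _ _ => rfl)
  rw [mem_singleton_iff, smul_eq_zero] at this
  exact sub_eq_zero.1 (this.resolve_left (inv_ne_zero h0))

/-- coordinates -/
def co (n : ℕ) : Gl →L[ℝ] ℝ :=
  (ContinuousLinearMap.proj n).comp (E0.subtypeL.comp c1)

theorem co_apply (n : ℕ) (x : Gl) : co n x = (c1 x).1 n := rfl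

theorem not_integrable : ¬ Integrable.{u, v} Gl := by
  rintro ⟨F, _, _, _, _, _, _, _, G, _, _, _, A, hL, e, he, h1, T, hT⟩
  obtain ⟨δ, v, ξ, hδ, hv0, hξ0, hode⟩ := ad_ode A hL he h1 (T.symm xg) (T.symm yg)
  have hw : ∀ (L : Gl →L[ℝ] ℝ) (t : ℝ), |t| < δ →
      HasDerivAt (fun t => L (T (v t))) (-L ⁅T (ξ t), T (v t)⁆) t := by
    intro L t ht
    have h2 := (hode t ht _ (hT (ξ t) (v t))).clm (L.comp (T : F →L[ℝ] Gl))
    have h3 := hasDirDeriv_real h2
    simpa only [ContinuousLinearMap.comp_apply, map_neg, ContinuousLinearEquiv.coe_coe,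
      ContinuousLinearEquiv.apply_symm_apply] using h3
  have ha : ∀ t, |t| < δ → c2 (T (v t)) = 0 := by
    intro t ht
    rw [const_of_deriv (f := fun t => c2 (T (v t))) (fun s hs => by
      simpa [lie_def, c2_inc] using hw c2 s hs) ht, hv0, T.apply_symm_apply]
    rfl
  have hb : ∀ t, |t| < δ → c3 (T (v t)) = 1 := by
    intro t ht
    rw [const_of_deriv (f := fun t => c3 (T (v t))) (fun s hs => by
      simpa [lie_def, c3_inc] using hw c3 s hs) ht, hv0, T.apply_symm_apply]
    rfl
  set U : ℕ → ℝ → ℝ := fun n t => ((n : ℝ) + 1) * co n (T (v t)) + 1 with hU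
  have hUd : ∀ n t, |t| < δ →
      HasDerivAt (U n) (-(((n : ℝ) + 1) * c2 (T (ξ t)) * U n t)) t := by
    intro n t ht
    have h2 := ((hw (co n) t ht).const_mul ((n : ℝ) + 1)).add_const 1
    refine h2.congr_deriv ?_
    rw [co_apply, lie_def, c1_inc, br, ha t ht, hb t ht]
    simp only [hU, co_apply, Submodule.coe_add, Submodule.coe_sub, Submodule.coe_smul,
      Pi.add_apply, Pi.sub_apply, Pi.smul_apply, Am_apply, one_apply, smul_eq_mul]
    ring
  have hU0 : ∀ n, U n 0 = 1 := by
    intro n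
    simp only [hU, hv0, T.apply_symm_apply]
    have : co n yg = 0 := rfl
    rw [this, mul_zero, zero_add]
  have hz : |(0 : ℝ)| < δ := by simpa using hδ
  have hpos : ∀ᶠ t in 𝓝 (0 : ℝ), 0 < U 0 t ∧ |t| < δ := by
    refine ((hUd 0 0 hz).continuousAt.eventually (lt_mem_nhds ?_)).and ?_
    · rw [hU0]; exact zero_lt_one
    · filter_upwards [Metric.ball_mem_nhds (0 : ℝ) hδ] with t ht
      simpa using ht
  obtain ⟨ε, hε, hεB⟩ := Metric.mem_nhds_iff.1 hpos
  have hε' : ∀ t : ℝ, |t| < ε → 0 < U 0 t ∧ |t| < δ := fun t ht => hεB (by simpa using ht)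
  have hpow : ∀ n t, |t| < ε → U n t = U 0 t ^ (n + 1) := by
    intro n t ht
    have h2 := const_of_deriv (f := fun t => U n t / U 0 t ^ (n + 1)) (δ := ε) (fun s hs => by
      have a1 := (hε' s hs).1.ne'
      have a2 := (hUd n s (hε' s hs).2).div ((hUd 0 s (hε' s hs).2).pow (n + 1))
        (pow_ne_zero _ a1)
      refine a2.congr_deriv ?_
      rw [div_eq_zero_iff]
      left
      simp only [Pi.pow_apply, Nat.add_sub_cancel, Nat.cast_zero, Nat.cast_add, Nat.cast_one]
      ring) ht
    simp only [hU0, one_pow, div_one] at h2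
    exact (div_eq_one_iff_eq (pow_ne_zero _ (hε' t ht).1.ne')).1 h2
  have hex : ∃ t, |t| < ε ∧ U 0 t ≠ 1 := by
    by_contra hcon
    push Not at hcon
    have h2 : HasDerivAt (U 0) 0 0 := by
      refine (hasDerivAt_const (0 : ℝ) (1 : ℝ)).congr_of_eventuallyEq ?_
      filter_upwards [Metric.ball_mem_nhds (0 : ℝ) hε] with t ht
      exact hcon t (by simpa using ht)
    have h3 := h2.unique (hUd 0 0 hz)
    rw [hU0, hξ0, T.apply_symm_apply] at h3
    have h4 : c2 xg = 1 := rfl
    rw [h4] at h3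
    norm_num at h3
  obtain ⟨t, ht, hne⟩ := hex
  refine not_mem (s := Real.log (U 0 t)) ?_ (c1 (T (v t))).2 fun n => ?_
  · exact Real.log_ne_zero_of_pos_of_ne_one (hε' t ht).1 hne
  · rw [Real.exp_log (hε' t ht).1, ← hpow n t ht]
    rfl

end

end Pool.Agent.H76Z.Solv
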