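import Pool.Agent.H76Z.PathGroup

set_option autoImplicit false
set_option linter.unusedSectionVars false
set_option linter.deprecated false
set_option maxHeartbeats 400000

namespace Pool.Agent.H76Z.Vol

open BoundedContinuousFunction

noncomputable section

/-- the index set -/
def Ix : Type := ℕ → ℤ

instance : TopologicalSpace Ix := ⊥
instance : DiscreteTopology Ix := ⟨rfl⟩

/-- first entry -/
def hd (i : Ix) : ℤ := i 0

/-- remaining entries -/
def tl (i : Ix) : Ix := fun n => i (n + 1)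

/-- prepend an entry -/
def cs (a : ℤ) (i : Ix) : Ix := fun n => Nat.casesOn n a i

theorem hd_cs (a : ℤ) (i : Ix) : hd (cs a i) = a := rfl
theorem tl_cs (a : ℤ) (i : Ix) : tl (cs a i) = i := rfl
theorem cs_hd_tl (i : Ix) : cs (hd i) (tl i) = i := by
  funext n; cases n <;> rfl

/-- the base point -/
def i0 : Ix := fun _ => 0

theorem cs_eq_i0 (a : ℤ) (i : Ix) : cs a i = i0 ↔ a = 0 ∧ i = i0 := by
  constructor
  · intro h
    exact ⟨congrArg hd h, congrArg tl h⟩
  · rintro ⟨rfl, rfl⟩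
    funext n; cases n <;> rfl

/-- the Banach space -/
def Xs : Type := Ix →ᵇ ℂ

instance : NormedAddCommGroup Xs := inferInstanceAs (NormedAddCommGroup (Ix →ᵇ ℂ))
instance : NormedSpace ℝ Xs := inferInstanceAs (NormedSpace ℝ (Ix →ᵇ ℂ))
instance : CompleteSpace Xs := inferInstanceAs (CompleteSpace (Ix →ᵇ ℂ))

/-- as a bounded function -/
def Xs.toB (x : Xs) : Ix →ᵇ ℂ := x

instance : CoeFun Xs (fun _ => Ix → ℂ) := ⟨fun x i => x.toB i⟩

theorem Xs.ext {x y : Xs} (h : ∀ i, x i = y i) : x = y := BoundedContinuousFunction.ext h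

theorem Xs.ext' {x y : Xs} (h : ∀ a i, x (cs a i) = y (cs a i)) : x = y :=
  Xs.ext fun i => by rw [← cs_hd_tl i]; exact h _ _

theorem Xs.le_norm (x : Xs) (i : Ix) : ‖x i‖ ≤ ‖x‖ := x.toB.norm_coe_le_norm i

theorem Xs.norm_le (x : Xs) {c : ℝ} (hc : 0 ≤ c) (h : ∀ i, ‖x i‖ ≤ c) : ‖x‖ ≤ c :=
  (BoundedContinuousFunction.norm_le (f := x.toB) hc).2 h

/-- constructor -/
def Xs.mk (f : Ix → ℂ) (c : ℝ) (h : ∀ i, ‖f i‖ ≤ c) : Xs :=
  BoundedContinuousFunction.ofNormedAddCommGroupDiscrete f c h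

theorem Xs.mk_apply (f : Ix → ℂ) (c : ℝ) (h : ∀ i, ‖f i‖ ≤ c) (i : Ix) : Xs.mk f c h i = f i := rfl

theorem Xs.add_apply (x y : Xs) (i : Ix) : (x + y) i = x i + y i := rfl
theorem Xs.sub_apply (x y : Xs) (i : Ix) : (x - y) i = x i - y i := rfl
theorem Xs.neg_apply (x : Xs) (i : Ix) : (-x) i = -x i := rfl
theorem Xs.zero_apply (i : Ix) : (0 : Xs) i = 0 := rfl
theorem Xs.smul_apply (c : ℝ) (x : Xs) (i : Ix) : (c • x) i = c • x i := rfl

/-- weighted composition operators -/
def Wc (c : Ix → ℂ) (hc : ∀ i, ‖c i‖ ≤ 1) (f : Ix → Ix) : Xs →L[ℝ] Xs :=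
  LinearMap.mkContinuous
    { toFun := fun x => Xs.mk (fun i => c i * x (f i)) ‖x‖ (fun i => by
        rw [norm_mul]
        exact (mul_le_mul (hc i) (x.le_norm _) (norm_nonneg _) zero_le_one).trans (one_mul _).le)
      map_add' := fun x y => Xs.ext fun i => by
        simp only [Xs.mk_apply, Xs.add_apply, mul_add]
      map_smul' := fun r x => Xs.ext fun i => by
        simp only [Xs.mk_apply, Xs.smul_apply, RingHom.id_apply, mul_smul_comm] } 1
    (fun x => by
      rw [one_mul]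
      refine Xs.norm_le _ (norm_nonneg _) fun i => ?_
      change ‖c i * x (f i)‖ ≤ _
      rw [norm_mul]
      exact (mul_le_mul (hc i) (x.le_norm _) (norm_nonneg _) zero_le_one).trans (one_mul _).le)

theorem Wc_apply (c : Ix → ℂ) (hc : ∀ i, ‖c i‖ ≤ 1) (f : Ix → Ix) (x : Xs) (i : Ix) :
    Wc c hc f x i = c i * x (f i) := rfl

/-- composition operators -/
def Cm (f : Ix → Ix) : Xs →L[ℝ] Xs := Wc (fun _ => 1) (fun _ => norm_one.le) f

theorem Cm_apply (f : Ix → Ix) (x : Xs) (i : Ix) : Cm f x i = x (f i) := one_mul _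

theorem Cm_norm (f : Ix → Ix) (x : Xs) : ‖Cm f x‖ ≤ ‖x‖ :=
  Xs.norm_le _ (norm_nonneg _) fun i => by rw [Cm_apply]; exact x.le_norm _

/-- the algebra -/
def Al : Type := Xs →L[ℝ] Xs

instance : NormedRing Al := inferInstanceAs (NormedRing (Xs →L[ℝ] Xs))
instance : NormedAlgebra ℝ Al := inferInstanceAs (NormedAlgebra ℝ (Xs →L[ℝ] Xs))
instance : CompleteSpace Al := inferInstanceAs (CompleteSpace (Xs →L[ℝ] Xs))

/-- as an operator -/
def Al.op (a : Al) : Xs →L[ℝ] Xs := a

/-- from an operator -/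
def Al.of (a : Xs →L[ℝ] Xs) : Al := a

theorem Al.op_of (a : Xs →L[ℝ] Xs) : (Al.of a).op = a := rfl

theorem Al.ext {a b : Al} (h : ∀ x, a.op x = b.op x) : a = b := ContinuousLinearMap.ext h

theorem Al.mul_op (a b : Al) (x : Xs) : (a * b).op x = a.op (b.op x) := rfl
theorem Al.add_op (a b : Al) (x : Xs) : (a + b).op x = a.op x + b.op x := rfl
theorem Al.neg_op (a : Al) (x : Xs) : (-a).op x = -a.op x := rfl
theorem Al.sub_op (a b : Al) (x : Xs) : (a - b).op x = a.op x - b.op x := rfl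
theorem Al.one_op (x : Xs) : (1 : Al).op x = x := rfl
theorem Al.smul_op (c : ℝ) (a : Al) (x : Xs) : (c • a).op x = c • a.op x := rfl
theorem Al.le_norm (a : Al) (x : Xs) : ‖a.op x‖ ≤ ‖a‖ * ‖x‖ := a.op.le_opNorm x
theorem Al.norm_le (a : Al) {c : ℝ} (hc : 0 ≤ c) (h : ∀ x, ‖a.op x‖ ≤ c * ‖x‖) : ‖a‖ ≤ c :=
  ContinuousLinearMap.opNorm_le_bound a.op hc h

theorem amp_bound (Z : ℤ → Prop) [DecidablePred Z] (a : Al) (x : Xs) (i : Ix) :
    ‖(if Z (hd i) then a.op (Cm (cs (hd i)) x) (tl i) else 0)‖ ≤ ‖a‖ * ‖x‖ := by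
  split_ifs
  · exact (Xs.le_norm _ _).trans ((a.le_norm _).trans
      (mul_le_mul_of_nonneg_left (Cm_norm _ _) (norm_nonneg _)))
  · rw [norm_zero]; positivity

/-- amplification of an operator -/
def amp1 (Z : ℤ → Prop) [DecidablePred Z] (a : Al) : Al := Al.of
  (LinearMap.mkContinuous
    { toFun := fun x => Xs.mk (fun i => if Z (hd i) then a.op (Cm (cs (hd i)) x) (tl i) else 0)
        (‖a‖ * ‖x‖) (amp_bound Z a x)
      map_add' := fun x y => Xs.ext fun i => by
        simp only [Xs.mk_apply, Xs.add_apply, map_add]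
        split_ifs <;> simp
      map_smul' := fun r x => Xs.ext fun i => by
        simp only [Xs.mk_apply, Xs.smul_apply, RingHom.id_apply, map_smul]
        split_ifs <;> simp } ‖a‖
    (fun x => Xs.norm_le _ (by positivity) (amp_bound Z a x)))

theorem amp1_apply (Z : ℤ → Prop) [DecidablePred Z] (a : Al) (x : Xs) (n : ℤ) (i : Ix) :
    (amp1 Z a).op x (cs n i) = if Z n then a.op (Cm (cs n) x) i else 0 := rfl

/-- amplification as a bounded operator -/
def amp (Z : ℤ → Prop) [DecidablePred Z] : Al →L[ℝ] Al :=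
  LinearMap.mkContinuous
    { toFun := amp1 Z
      map_add' := fun a b => Al.ext fun x => Xs.ext' fun n i => by
        simp only [Al.add_op, Xs.add_apply, amp1_apply]
        split_ifs <;> simp
      map_smul' := fun r a => Al.ext fun x => Xs.ext' fun n i => by
        simp only [Al.smul_op, Xs.smul_apply, amp1_apply, RingHom.id_apply]
        split_ifs <;> simp } 1
    (fun a => by
      rw [one_mul]
      exact Al.norm_le _ (norm_nonneg _) fun x => Xs.norm_le _ (by positivity) (amp_bound Z a x))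

theorem amp_apply (Z : ℤ → Prop) [DecidablePred Z] (a : Al) (x : Xs) (n : ℤ) (i : Ix) :
    (amp Z a).op x (cs n i) = if Z n then a.op (Cm (cs n) x) i else 0 := rfl

theorem slice_amp (Z : ℤ → Prop) [DecidablePred Z] (a : Al) (x : Xs) (n : ℤ) :
    Cm (cs n) ((amp Z a).op x) = if Z n then a.op (Cm (cs n) x) else 0 := by
  refine Xs.ext fun i => ?_
  rw [Cm_apply, amp_apply]
  split_ifs <;> rfl

theorem slice_ext {x y : Xs} (h : ∀ n, Cm (cs n) x = Cm (cs n) y) : x = y :=
  Xs.ext' fun n i => by rw [← Cm_apply (cs n), ← Cm_apply (cs n), h n]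

theorem amp_mul (Z : ℤ → Prop) [DecidablePred Z] (a b : Al) :
    amp Z (a * b) = amp Z a * amp Z b := by
  refine Al.ext fun x => slice_ext fun n => ?_
  rw [Al.mul_op, slice_amp, slice_amp, slice_amp]
  split_ifs <;> rfl

/-- reflections -/
def rf (c : ℤ) : Al := Al.of (Cm fun i => cs (c - hd i) (tl i))

theorem slice_rf (c : ℤ) (x : Xs) (n : ℤ) : Cm (cs n) ((rf c).op x) = Cm (cs (c - n)) x := by
  refine Xs.ext fun i => ?_
  rw [Cm_apply, Cm_apply, rf, Al.op_of, Cm_apply, hd_cs, tl_cs]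

theorem rf_rf (c : ℤ) : rf c * rf c = 1 := by
  refine Al.ext fun x => slice_ext fun n => ?_
  rw [Al.mul_op, slice_rf, slice_rf, sub_sub_cancel, Al.one_op]

/-- the complex structure -/
def Jc : Al := Al.of (Wc (fun _ => Complex.I) (fun _ => Complex.norm_I.le) id)

theorem Jc_apply (x : Xs) (i : Ix) : Jc.op x i = Complex.I * x i := rfl

theorem Jc_Jc : Jc * Jc = -1 := by
  refine Al.ext fun x => Xs.ext fun i => ?_
  rw [Al.mul_op, Jc_apply, Jc_apply, Al.neg_op, Al.one_op, Xs.neg_apply, ← mul_assoc,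
    Complex.I_mul_I, neg_one_mul]

theorem rf_Jc (c : ℤ) : rf c * Jc = Jc * rf c := by
  refine Al.ext fun x => Xs.ext fun i => ?_
  rw [Al.mul_op, Al.mul_op, Jc_apply, rf, Al.op_of, Cm_apply, Cm_apply, Jc_apply]

/-- the generator of a rotation whose half turn is a reflection -/
def kr (c : ℤ) : Al := (1 / 2 : ℝ) • (Jc * (1 - rf c))

theorem kr_sq (c : ℤ) : kr c * kr c = (1 / 2 : ℝ) • (rf c - 1) := by
  have h1 : Jc * (1 - rf c) * (Jc * (1 - rf c)) = (2 : ℝ) • (rf c - 1) := by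
    have h2 : (1 - rf c) * Jc = Jc * (1 - rf c) := by
      rw [sub_mul, mul_sub, rf_Jc, one_mul, mul_one]
    rw [mul_assoc, ← mul_assoc (1 - rf c), h2, ← mul_assoc, ← mul_assoc, Jc_Jc]
    simp only [mul_sub, sub_mul, neg_mul, one_mul, mul_one, rf_rf]
    module
  rw [kr, smul_mul_smul_comm, h1, smul_smul]
  norm_num

theorem kr_cube (c : ℤ) : kr c * kr c * kr c = -kr c := by
  have h2 : (rf c - 1) * Jc = Jc * (rf c - 1) := by
    rw [sub_mul, mul_sub, rf_Jc, one_mul, mul_one]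
  rw [kr_sq, kr, smul_mul_smul_comm, ← mul_assoc, h2, mul_assoc]
  simp only [mul_sub, sub_mul, one_mul, mul_one, rf_rf]
  module

theorem kr_half (c : ℤ) : 1 + (2 : ℝ) • (kr c * kr c) = rf c := by
  rw [kr_sq, smul_smul]
  norm_num

open Classical in
/-- the generator of the circle -/
def kc : Al := Al.of (Wc (fun i => if i = i0 then Complex.I else 0)
  (fun i => by split_ifs <;> simp) id)

open Classical in
theorem kc_apply (x : Xs) (i : Ix) : kc.op x i = (if i = i0 then Complex.I else 0) * x i := rfl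

theorem kc_cube : kc * kc * kc = -kc := by
  refine Al.ext fun x => Xs.ext fun i => ?_
  rw [Al.mul_op, Al.mul_op, Al.neg_op, Xs.neg_apply, kc_apply, kc_apply, kc_apply]
  split_ifs
  · rw [← mul_assoc, Complex.I_mul_I, neg_one_mul]
  · simp

theorem kc_ne : kc ≠ 0 := by
  intro h
  have h1 : kc.op (Xs.mk (fun _ => 1) 1 (fun _ => norm_one.le)) i0 = 0 := by rw [h]; rfl
  rw [kc_apply, if_pos rfl, Xs.mk_apply, mul_one] at h1
  exact Complex.I_ne_zero h1

theorem amp_kc : amp (fun n => n = 0) kc = kc := by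
  refine Al.ext fun x => Xs.ext' fun n i => ?_
  rw [amp_apply, kc_apply, kc_apply, Cm_apply]
  by_cases h : n = 0
  · rw [if_pos h]
    by_cases h2 : i = i0
    · rw [if_pos h2, if_pos ((cs_eq_i0 n i).2 ⟨h, h2⟩)]
    · rw [if_neg h2, if_neg fun h3 => h2 ((cs_eq_i0 n i).1 h3).2]
  · rw [if_neg h, if_neg fun h3 => h ((cs_eq_i0 n i).1 h3).1, zero_mul]

/-- the swindle -/
def data : Data Al where
  ψp := amp (fun n => 0 ≤ n)
  ψ0 := amp (fun n => n = 0)
  mp := amp_mul _
  m0 := amp_mul _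
  k0 := kr 0
  k1 := kr 1
  k := kc
  h0 := kr_cube 0
  h1 := kr_cube 1
  hk := kc_cube
  sw := by
    intro a
    rw [kr_half, kr_half]
    refine Al.ext fun x => slice_ext fun n => ?_
    simp only [Al.mul_op, Al.add_op, Al.one_op, map_add, slice_amp, slice_rf]
    split_ifs <;> first | omega | simp
  fix := amp_kc
  ne := kc_ne

end

end Pool.Agent.H76Z.Vol
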