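import Mathlib

set_option autoImplicit false
set_option linter.unusedSectionVars false
set_option linter.deprecated false
set_option maxHeartbeats 400000

namespace Pool.Agent.H76Z.Vol

open Filter Topology Set

noncomputable section

variable {A : Type} [NormedRing A] [NormedAlgebra ℝ A] [CompleteSpace A]

/-- continuous paths -/
def Pa (A : Type) [NormedRing A] : Type := C(unitInterval, A)

instance : NormedRing (Pa A) := inferInstanceAs (NormedRing C(unitInterval, A))
instance : NormedAlgebra ℝ (Pa A) := inferInstanceAs (NormedAlgebra ℝ C(unitInterval, A))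
instance : CompleteSpace (Pa A) := inferInstanceAs (CompleteSpace C(unitInterval, A))

/-- a path as a continuous map -/
def Pa.toC (p : Pa A) : C(unitInterval, A) := p

/-- a continuous map as a path -/
def Pa.ofC (p : C(unitInterval, A)) : Pa A := p

instance : CoeFun (Pa A) (fun _ => unitInterval → A) := ⟨fun p t => p.toC t⟩

theorem Pa.ext {p q : Pa A} (h : ∀ t, p t = q t) : p = q := ContinuousMap.ext h

theorem Pa.norm_coe_le_norm (p : Pa A) (t : unitInterval) : ‖p t‖ ≤ ‖p‖ :=
  p.toC.norm_coe_le_norm t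

theorem Pa.norm_le (p : Pa A) {c : ℝ} (hc : 0 ≤ c) (h : ∀ t, ‖p t‖ ≤ c) : ‖p‖ ≤ c :=
  (ContinuousMap.norm_le p.toC hc).2 h

theorem Pa.add_apply (p q : Pa A) (t : unitInterval) : (p + q) t = p t + q t := rfl
theorem Pa.sub_apply (p q : Pa A) (t : unitInterval) : (p - q) t = p t - q t := rfl
theorem Pa.mul_apply (p q : Pa A) (t : unitInterval) : (p * q) t = p t * q t := rfl
theorem Pa.neg_apply (p : Pa A) (t : unitInterval) : (-p) t = -p t := rfl
theorem Pa.one_apply (t : unitInterval) : (1 : Pa A) t = 1 := rfl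
theorem Pa.smul_apply (c : ℝ) (p : Pa A) (t : unitInterval) : (c • p) t = c • p t := rfl

/-- evaluation as a bounded operator -/
def evt (t : unitInterval) : Pa A →L[ℝ] A :=
  LinearMap.mkContinuous
    { toFun := fun p => p t
      map_add' := fun _ _ => rfl
      map_smul' := fun _ _ => rfl } 1 (fun p => by rw [one_mul]; exact p.norm_coe_le_norm t)

theorem evt_apply (t : unitInterval) (p : Pa A) : evt t p = p t := rfl

/-- extension of a path to the real line -/
def ex (p : Pa A) (t : ℝ) : A := p (projIcc 0 1 zero_le_one t)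

theorem ex_cont (p : Pa A) : Continuous (ex p) := p.toC.continuous.comp continuous_projIcc

theorem ex_coe (p : Pa A) (t : unitInterval) : ex p t = p t := by
  unfold ex; rw [projIcc_val]

theorem ex_of_mem (p : Pa A) {t : ℝ} (ht : t ∈ Icc (0 : ℝ) 1) : ex p t = p ⟨t, ht⟩ :=
  ex_coe p ⟨t, ht⟩

theorem ex_norm (p : Pa A) (t : ℝ) : ‖ex p t‖ ≤ ‖p‖ := p.norm_coe_le_norm _

/-- the primitive of a path -/
def prim (ξ : Pa A) : Pa A := Pa.ofC
  ⟨fun t => ∫ s in (0 : ℝ)..(t : ℝ), ex ξ s,
    (intervalIntegral.continuous_primitive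
      (fun a b => (ex_cont ξ).intervalIntegrable a b) 0).comp continuous_subtype_val⟩

theorem prim_apply (ξ : Pa A) (t : unitInterval) :
    prim ξ t = ∫ s in (0 : ℝ)..(t : ℝ), ex ξ s := rfl

/-- the primitive as a bounded operator -/
def In : Pa A →L[ℝ] Pa A :=
  LinearMap.mkContinuous
    { toFun := prim
      map_add' := fun ξ η => by
        refine Pa.ext fun t => ?_
        rw [Pa.add_apply, prim_apply, prim_apply, prim_apply, ← intervalIntegral.integral_add ((ex_cont ξ).intervalIntegrable _ _)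
          ((ex_cont η).intervalIntegrable _ _)]
        rfl
      map_smul' := fun c ξ => by
        refine Pa.ext fun t => ?_
        rw [RingHom.id_apply, Pa.smul_apply, prim_apply, prim_apply,
          ← intervalIntegral.integral_smul]
        rfl } 1 (fun ξ => by
      rw [one_mul]
      refine Pa.norm_le _ (norm_nonneg _) fun t => ?_
      have h := intervalIntegral.norm_integral_le_of_norm_le_const (a := 0) (b := (t : ℝ))
        (f := ex ξ) (C := ‖ξ‖) (fun s _ => ex_norm ξ s)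
      refine h.trans ?_
      rw [sub_zero, abs_of_nonneg t.2.1]
      exact mul_le_of_le_one_right (norm_nonneg _) t.2.2)

theorem In_apply (ξ : Pa A) (t : unitInterval) :
    In ξ t = ∫ s in (0 : ℝ)..(t : ℝ), ex ξ s := rfl

theorem In_zero (ξ : Pa A) : In ξ 0 = 0 := by
  rw [In_apply]; simp

/-- `q` is the derivative of `p` -/
def Der (p q : Pa A) : Prop := ∀ t ∈ Ioo (0 : ℝ) 1, HasDerivAt (ex p) (ex q t) t

theorem der_In (ξ : Pa A) : Der (In ξ) ξ := by
  intro t ht
  have h1 : HasDerivAt (fun u => ∫ s in (0 : ℝ)..u, ex ξ s) (ex ξ t) t :=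
    intervalIntegral.integral_hasDerivAt_right ((ex_cont ξ).intervalIntegrable _ _)
      ((ex_cont ξ).stronglyMeasurableAtFilter _ _) (ex_cont ξ).continuousAt
  refine h1.congr_of_eventuallyEq ?_
  filter_upwards [Ioo_mem_nhds ht.1 ht.2] with u hu
  rw [ex_of_mem _ (Ioo_subset_Icc_self hu), In_apply]

theorem Der.add {p q p' q' : Pa A} (h : Der p q) (h' : Der p' q') : Der (p + p') (q + q') :=
  fun t ht => (h t ht).add (h' t ht)

theorem Der.sub {p q p' q' : Pa A} (h : Der p q) (h' : Der p' q') : Der (p - p') (q - q') :=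
  fun t ht => (h t ht).sub (h' t ht)

theorem Der.mul {p q p' q' : Pa A} (h : Der p q) (h' : Der p' q') :
    Der (p * p') (q * p' + p * q') :=
  fun t ht => (h t ht).mul (h' t ht)

/-- constant paths -/
def cst : A →L[ℝ] Pa A :=
  LinearMap.mkContinuous
    { toFun := fun a => Pa.ofC (ContinuousMap.const unitInterval a)
      map_add' := fun _ _ => rfl
      map_smul' := fun _ _ => rfl } 1 (fun a => by
      rw [one_mul]; exact Pa.norm_le _ (norm_nonneg _) fun t => le_rfl)

theorem cst_apply (a : A) (t : unitInterval) : cst a t = a := rfl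

theorem cst_mul (a b : A) : cst (a * b) = cst a * cst b := rfl

theorem cst_one : cst (1 : A) = 1 := rfl

theorem der_cst (a : A) : Der (cst a) 0 := fun t _ => hasDerivAt_const t a

theorem der_one : Der (1 : Pa A) 0 := der_cst 1

theorem Der.eq {p q : Pa A} (h : Der p q) : p = cst (p 0) + In q := by
  refine Pa.ext fun t => ?_
  have h1 := intervalIntegral.integral_eq_sub_of_hasDerivAt_of_le (f := ex p) (f' := ex q)
    t.2.1 (ex_cont p).continuousOn (fun s hs => h s ⟨hs.1, hs.2.trans_le t.2.2⟩)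
    ((ex_cont q).intervalIntegrable _ _)
  rw [Pa.add_apply, In_apply, h1, ex_coe, cst_apply]
  have : ex p 0 = p 0 := ex_coe p 0
  rw [this, add_sub_cancel]

theorem Der.unique {p q q' : Pa A} (h : Der p q) (h' : Der p q') : q = q' := by
  have h1 : EqOn (ex q) (ex q') (Ioo 0 1) := fun t ht => (h t ht).unique (h' t ht)
  have h2 := h1.closure (ex_cont q) (ex_cont q')
  rw [closure_Ioo zero_ne_one] at h2
  refine Pa.ext fun t => ?_
  rw [← ex_coe, ← ex_coe]
  exact h2 t.2

theorem Der.inv {p r q : Pa A} (h : Der p q) (h1 : p * r = 1) (h2 : r * p = 1) :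
    Der r (-(r * q * r)) := by
  intro t ht
  have hu : ∀ s : ℝ, ex p s * ex r s = 1 ∧ ex r s * ex p s = 1 := fun s =>
    ⟨congrArg (fun z : Pa A => ex z s) h1, congrArg (fun z : Pa A => ex z s) h2⟩
  let u : ℝ → Aˣ := fun s => ⟨ex p s, ex r s, (hu s).1, (hu s).2⟩
  have h3 : ex r = fun s => Ring.inverse (ex p s) := by
    funext s
    exact (Ring.inverse_unit (u s)).symm
  have h4 := (hasFDerivAt_ringInverse (𝕜 := ℝ) (u t)).comp_hasDerivAt t (h t ht)
  rw [h3]
  exact h4

/-- Volterra operators are quasinilpotent -/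
theorem volterra_pow (M : Pa A →L[ℝ] Pa A) {κ : ℝ} (hκ : 0 ≤ κ)
    (hM : ∀ η t, ‖M η t‖ ≤ κ * ‖η t‖) (η : Pa A) (n : ℕ) :
    ∀ t : unitInterval, ‖((In.comp M) ^ n) η t‖ ≤ κ ^ n / n.factorial * ‖η‖ * (t : ℝ) ^ n := by
  induction n with
  | zero => intro t; simpa using η.norm_coe_le_norm t
  | succ n ih =>
    intro t
    rw [pow_succ', ContinuousLinearMap.mul_apply, ContinuousLinearMap.comp_apply, In_apply]
    have h1 : ‖∫ s in (0 : ℝ)..(t : ℝ), ex (M (((In.comp M) ^ n) η)) s‖ ≤
        ∫ s in (0 : ℝ)..(t : ℝ), κ * (κ ^ n / n.factorial * ‖η‖) * s ^ n := by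
      refine intervalIntegral.norm_integral_le_of_norm_le t.2.1 ?_ ?_
      · refine Eventually.of_forall fun s hs => ?_
        have hs' : s ∈ Icc (0 : ℝ) 1 := ⟨hs.1.le, hs.2.trans t.2.2⟩
        rw [ex_of_mem _ hs']
        refine (hM _ _).trans ?_
        rw [mul_assoc]
        exact mul_le_mul_of_nonneg_left (ih ⟨s, hs'⟩) hκ
      · exact (by fun_prop : Continuous fun s : ℝ =>
          κ * (κ ^ n / n.factorial * ‖η‖) * s ^ n).intervalIntegrable _ _
    refine h1.trans (le_of_eq ?_)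
    rw [intervalIntegral.integral_const_mul, integral_pow, Nat.factorial_succ]
    push_cast
    have : (n.factorial : ℝ) ≠ 0 := by positivity
    field_simp
    ring

theorem volterra_unit (M : Pa A →L[ℝ] Pa A) {κ : ℝ} (hκ : 0 ≤ κ)
    (hM : ∀ η t, ‖M η t‖ ≤ κ * ‖η t‖) : IsUnit (1 - In.comp M) := by
  have h1 := (Real.summable_pow_div_factorial κ).tendsto_atTop_zero
  obtain ⟨n, hn⟩ := (h1.eventually (gt_mem_nhds zero_lt_one)).exists
  have h2 : ‖(In.comp M) ^ n‖ < 1 := by
    refine lt_of_le_of_lt ?_ hn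
    refine ContinuousLinearMap.opNorm_le_bound _ (by positivity) fun η => ?_
    refine Pa.norm_le _ (by positivity) fun t => ?_
    refine (volterra_pow M hκ hM η n t).trans ?_
    exact mul_le_of_le_one_right (by positivity) (pow_le_one₀ t.2.1 t.2.2)
  have h3 : IsUnit (1 - (In.comp M) ^ n) := (Units.oneSub _ h2).isUnit
  rw [← mul_neg_geom_sum] at h3
  have h4 : Commute (1 - In.comp M) (∑ i ∈ Finset.range n, (In.comp M) ^ i) := by
    refine Commute.sum_right _ _ _ fun i _ => ?_
    exact (Commute.one_left _).sub_left (Commute.self_pow _ i)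
  exact (h4.isUnit_mul_iff.1 h3).1

theorem volterra_zero (M : Pa A →L[ℝ] Pa A) {κ : ℝ} (hκ : 0 ≤ κ)
    (hM : ∀ η t, ‖M η t‖ ≤ κ * ‖η t‖) {m : Pa A} (h0 : m 0 = 0) (hd : Der m (M m)) : m = 0 := by
  have h1 := hd.eq
  rw [h0, map_zero, zero_add] at h1
  obtain ⟨u, hu⟩ := volterra_unit M hκ hM
  have h2 : (u : Pa A →L[ℝ] Pa A) m = 0 := by
    rw [hu, ContinuousLinearMap.sub_apply, ContinuousLinearMap.comp_apply, ← h1]
    simp
  have h3 : ((u⁻¹ : _ˣ) * u : Pa A →L[ℝ] Pa A) m = 0 := by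
    rw [ContinuousLinearMap.mul_apply, h2, map_zero]
  rw [Units.inv_mul] at h3
  exact h3

/-- left multiplication -/
def Lm : Pa A →L[ℝ] Pa A →L[ℝ] Pa A := ContinuousLinearMap.mul ℝ (Pa A)

/-- right multiplication -/
def Rm : Pa A →L[ℝ] Pa A →L[ℝ] Pa A := (ContinuousLinearMap.mul ℝ (Pa A)).flip

theorem Lm_apply (η p : Pa A) : Lm η p = η * p := rfl
theorem Rm_apply (η p : Pa A) : Rm η p = p * η := rfl

theorem Lm_bound (η p : Pa A) (t : unitInterval) : ‖Lm η p t‖ ≤ ‖η‖ * ‖p t‖ :=
  (norm_mul_le _ _).trans (mul_le_mul_of_nonneg_right (η.norm_coe_le_norm t) (norm_nonneg _))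

theorem Rm_bound (η p : Pa A) (t : unitInterval) : ‖Rm η p t‖ ≤ ‖η‖ * ‖p t‖ := by
  rw [mul_comm]
  exact (norm_mul_le _ _).trans
    (mul_le_mul_of_nonneg_left (η.norm_coe_le_norm t) (norm_nonneg _))

/-- the solution of `p = 1 + In (M p)` -/
def sol (M : Pa A →L[ℝ] Pa A) : Pa A := Ring.inverse (1 - In.comp M) 1

theorem sol_eq (M : Pa A →L[ℝ] Pa A) (h : IsUnit (1 - In.comp M)) :
    sol M = 1 + In (M (sol M)) := by
  have h1 : ((1 - In.comp M) * Ring.inverse (1 - In.comp M)) (1 : Pa A) = 1 := by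
    rw [Ring.mul_inverse_cancel _ h]; rfl
  rw [ContinuousLinearMap.mul_apply, ContinuousLinearMap.sub_apply,
    ContinuousLinearMap.comp_apply] at h1
  exact sub_eq_iff_eq_add.1 h1

theorem sol_der (M : Pa A →L[ℝ] Pa A) (h : IsUnit (1 - In.comp M)) :
    Der (sol M) (M (sol M)) := by
  have h1 := der_one.add (der_In (M (sol M)))
  rw [← sol_eq M h, zero_add] at h1
  exact h1

theorem sol_zero (M : Pa A →L[ℝ] Pa A) (h : IsUnit (1 - In.comp M)) : sol M 0 = 1 := by
  rw [sol_eq M h, Pa.add_apply, In_zero, add_zero]; rfl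

theorem sol_smooth (T : Pa A →L[ℝ] Pa A →L[ℝ] Pa A) (h : ∀ η, IsUnit (1 - In.comp (T η))) :
    ContDiff ℝ ⊤ (fun η => sol (T η)) := by
  rw [contDiff_iff_contDiffAt]
  intro η
  have h1 : ContDiff ℝ ⊤ (fun η : Pa A => 1 - In.comp (T η)) :=
    contDiff_const.sub (contDiff_const.clm_comp T.contDiff)
  obtain ⟨u, hu⟩ := h η
  have h2 : ContDiffAt ℝ ⊤ Ring.inverse (1 - In.comp (T η)) := by
    rw [← hu]; exact contDiffAt_ringInverse ℝ u
  exact (h2.comp η h1.contDiffAt).clm_apply contDiffAt_const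

/-- the evolution map -/
def Ev (η : Pa A) : Pa A := sol (Rm η)

/-- the inverse of the evolution -/
def Ei (η : Pa A) : Pa A := sol ((-Lm) η)

theorem unitR (η : Pa A) : IsUnit (1 - In.comp (Rm η)) :=
  volterra_unit _ (norm_nonneg η) (Rm_bound η)

theorem unitL (η : Pa A) : IsUnit (1 - In.comp ((-Lm) η)) :=
  volterra_unit _ (norm_nonneg η) fun p t => by
    have := Lm_bound η p t
    rw [← norm_neg] at this
    exact this

theorem Ev_der (η : Pa A) : Der (Ev η) (Ev η * η) := sol_der _ (unitR η)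
theorem Ei_der (η : Pa A) : Der (Ei η) (-(η * Ei η)) := sol_der _ (unitL η)
theorem Ev_zero (η : Pa A) : Ev η 0 = 1 := sol_zero _ (unitR η)
theorem Ei_zero (η : Pa A) : Ei η 0 = 1 := sol_zero _ (unitL η)
theorem Ev_smooth : ContDiff ℝ ⊤ (Ev : Pa A → Pa A) := sol_smooth Rm unitR
theorem Ei_smooth : ContDiff ℝ ⊤ (Ei : Pa A → Pa A) := sol_smooth (-Lm) unitL

theorem Ev_mul_Ei (η : Pa A) : Ev η * Ei η = 1 := by
  have h := (Ev_der η).mul (Ei_der η)
  have h2 : Ev η * η * Ei η + Ev η * -(η * Ei η) = 0 := by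
    rw [mul_neg, mul_assoc, add_neg_cancel]
  rw [h2] at h
  have h3 := h.eq
  rw [map_zero, add_zero, Pa.mul_apply, Ev_zero, Ei_zero, mul_one, cst_one] at h3
  exact h3

theorem Ei_mul_Ev (η : Pa A) : Ei η * Ev η = 1 := by
  have h := ((Ei_der η).mul (Ev_der η)).sub der_one
  have h1 : Ei η * Ev η - 1 = 0 := by
    refine volterra_zero (Rm η - Lm η) (κ := ‖η‖ + ‖η‖) (by positivity) (fun p t => ?_) ?_ ?_
    · rw [ContinuousLinearMap.sub_apply, Pa.sub_apply, add_mul]
      exact (norm_sub_le _ _).trans (add_le_add (Rm_bound η p t) (Lm_bound η p t))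
    · rw [Pa.sub_apply, Pa.mul_apply, Ev_zero, Ei_zero, mul_one]
      exact sub_self _
    · convert h using 1
      rw [ContinuousLinearMap.sub_apply, Rm_apply, Lm_apply]
      simp only [mul_sub, sub_mul, neg_mul, mul_assoc, one_mul, mul_one, sub_zero]
      abel
  exact sub_eq_zero.1 h1

theorem eq_Ev {p η : Pa A} (h : Der p (p * η)) (h0 : p 0 = 1) : p = Ev η := by
  have h1 : p - Ev η = 0 := by
    refine volterra_zero (Rm η) (norm_nonneg η) (Rm_bound η) ?_ ?_
    · rw [Pa.sub_apply, h0, Ev_zero, sub_self]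
    · rw [Rm_apply, sub_mul]
      exact h.sub (Ev_der η)
  exact sub_eq_zero.1 h1

end

end Pool.Agent.H76Z.Vol
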